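import Pool.Agent.Lib.MP_96bed6_an.W.Spec

section
/-!
# MP_96bed6_an, part W: the averaging step keeps all bounds
-/
set_option autoImplicit false

open MeasureTheory Filter Topology Set
open scoped ENNReal ContDiff NNReal

noncomputable section

namespace Pool.Agent.Lib.MP96bed6

theorem specAHB (hAHM : SpecAHM) (hAVG : SpecAVG) : SpecAHB := by
  intro α κ h hα0 hα1 hκ hh hle f hf
  obtain ⟨μ, hμ, hrep⟩ := hAHM α κ h hα0 hα1 hκ hh hle
  obtain ⟨a1, a2, a3⟩ := hAVG μ f hf
  have hbd0 : ∃ M, ∀ x, |f x| ≤ M := by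
    obtain ⟨A, hA⟩ := hf.2 0
    refine ⟨A, fun x => ?_⟩
    have h1 := hA x
    rwa [norm_iteratedFDeriv_zero] at h1
  have hrf : (fun x => f x - κ * h * lapH α h f x) = avg μ f :=
    funext fun x => hrep f hf.1.continuous hbd0 x
  rw [hrf]
  refine ⟨a1, a2, fun x v => ?_⟩
  have hcd : Continuous fun y : E => fderiv ℝ f y v :=
    (hf.1.continuous_fderiv (by simp)).clm_apply continuous_const
  have hbd1 : ∃ M, ∀ x, |fderiv ℝ f x v| ≤ M := by
    obtain ⟨A, hA⟩ := hf.2 1
    refine ⟨A * ‖v‖, fun x => ?_⟩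
    have h1 := hA x
    rw [norm_iteratedFDeriv_one] at h1
    calc |fderiv ℝ f x v| = ‖fderiv ℝ f x v‖ := rfl
      _ ≤ ‖fderiv ℝ f x‖ * ‖v‖ := (fderiv ℝ f x).le_opNorm v
      _ ≤ A * ‖v‖ := mul_le_mul_of_nonneg_right h1 (norm_nonneg v)
  rw [a3 x v, ← hrep (fun y => fderiv ℝ f y v) hcd hbd1 x]

end Pool.Agent.Lib.MP96bed6
end
end

section
/-!
# MP_96bed6_an, part W: `f - κhΛ_h f` is an average of translates
-/
set_option autoImplicit false

open MeasureTheory Filter Topology Set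
open scoped ENNReal ContDiff NNReal

noncomputable section

namespace Pool.Agent.Lib.MP96bed6

namespace AHMM

theorem kh_meas (α h : ℝ) : Measurable (kh α h) := by
  unfold kh
  refine Measurable.ite ?_ ?_ measurable_const
  · exact measurableSet_le measurable_const measurable_norm
  · exact measurable_const.div (measurable_norm.pow_const _)

end AHMM

theorem specAHM (hKHI : SpecKHI) : SpecAHM := by
  intro α κ h hα0 hα1 hκ hh hle
  obtain ⟨hI, hpos, hmass, -⟩ := hKHI α h hα0 hα1 hh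
  obtain ⟨lam, hlam⟩ : ∃ lam : ℝ, lam = ∫ y : E, kh α h y := ⟨_, rfl⟩
  have hlam0 : 0 ≤ lam := by rw [hlam]; exact integral_nonneg hpos
  have hle' : κ * h * lam ≤ 1 := by
    rw [← hlam] at hmass
    calc κ * h * lam = κ * (h * lam) := by ring
      _ ≤ κ * (h ^ (1 - 2 * α) * PHI α) := mul_le_mul_of_nonneg_left hmass hκ
      _ = κ * PHI α * h ^ (1 - 2 * α) := by ring
      _ ≤ 1 := hle
  have hm0 : 0 ≤ κ * h * lam := by positivity
  let d : E → ℝ := fun y => κ * h * kh α h y
  have hdm : Measurable d := (AHMM.kh_meas α h).const_mul (κ * h)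
  have hd0 : ∀ y, 0 ≤ d y := fun y => mul_nonneg (mul_nonneg hκ hh.le) (hpos y)
  have hdI : Integrable d := hI.const_mul (κ * h)
  have hdint : ∫ y, d y = κ * h * lam := by
    rw [hlam]
    exact integral_const_mul _ _
  let ν : Measure E := (volume : Measure E).withDensity fun y => ENNReal.ofReal (d y)
  have hνuniv : ν Set.univ = ENNReal.ofReal (κ * h * lam) := by
    rw [withDensity_apply _ MeasurableSet.univ, Measure.restrict_univ,
      ← ofReal_integral_eq_lintegral_ofReal hdI (Eventually.of_forall hd0), hdint]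
  have hνfin : IsFiniteMeasure ν := ⟨by rw [hνuniv]; exact ENNReal.ofReal_lt_top⟩
  let c : ℝ≥0∞ := ENNReal.ofReal (1 - κ * h * lam)
  refine ⟨c • Measure.dirac 0 + ν, ⟨?_⟩, ?_⟩
  · rw [Measure.add_apply, Measure.smul_apply, hνuniv, measure_univ, smul_eq_mul, mul_one,
      ← ENNReal.ofReal_add (by linarith) hm0]
    simp
  · intro f hf hb x
    obtain ⟨M, hM⟩ := hb
    have hfx : Continuous fun y : E => f (x - y) := hf.comp (continuous_const.sub continuous_id)
    have hbd : ∀ y : E, ‖f (x - y)‖ ≤ M := fun y => hM _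
    have hIν : Integrable (fun y : E => f (x - y)) ν :=
      Integrable.of_bound hfx.aestronglyMeasurable M (Eventually.of_forall hbd)
    have hId : Integrable (fun y : E => f (x - y)) (c • Measure.dirac (0 : E)) := by
      have : Integrable (fun y : E => f (x - y)) (Measure.dirac (0 : E)) :=
        Integrable.of_bound hfx.aestronglyMeasurable M (Eventually.of_forall hbd)
      exact this.smul_measure ENNReal.ofReal_ne_top
    have hIk : Integrable (fun y : E => f (x - y) * kh α h y) := by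
      refine (hI.const_mul M).mono' (hfx.aestronglyMeasurable.mul (AHMM.kh_meas α h).aestronglyMeasurable)
        (Eventually.of_forall fun y => ?_)
      rw [norm_mul, Real.norm_of_nonneg (hpos y)]
      exact mul_le_mul_of_nonneg_right (hbd y) (hpos y)
    unfold avg
    rw [integral_add_measure hId hIν, integral_smul_measure,
      integral_dirac' _ _ hfx.stronglyMeasurable,
      integral_withDensity_eq_integral_toReal_smul (hdm.ennreal_ofReal)
        (Eventually.of_forall fun y => ENNReal.ofReal_lt_top)]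
    have h1 : (∫ y : E, (ENNReal.ofReal (d y)).toReal • f (x - y)) =
        κ * h * ∫ y : E, f (x - y) * kh α h y := by
      rw [← integral_const_mul]
      refine integral_congr_ae (Eventually.of_forall fun y => ?_)
      change (ENNReal.ofReal (d y)).toReal • f (x - y) = κ * h * (f (x - y) * kh α h y)
      rw [ENNReal.toReal_ofReal (hd0 y), smul_eq_mul]
      change κ * h * kh α h y * f (x - y) = κ * h * (f (x - y) * kh α h y)
      ring
    have h2 : lapH α h f x = f x * lam - ∫ y : E, f (x - y) * kh α h y := by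
      unfold lapH
      rw [hlam, ← integral_const_mul, ← integral_sub (hI.const_mul (f x)) hIk]
      refine integral_congr_ae (Eventually.of_forall fun y => ?_)
      change (f x - f (x - y)) * kh α h y = f x * kh α h y - f (x - y) * kh α h y
      ring
    rw [h1, h2, ENNReal.toReal_ofReal (by linarith), smul_eq_mul, sub_zero]
    ring

end Pool.Agent.Lib.MP96bed6
end
end

section
/-!
# AVG: averages of translates are smooth and contract all norms
-/
set_option autoImplicit false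

open MeasureTheory Filter Topology Set
open scoped ENNReal ContDiff NNReal

noncomputable section

namespace Pool.Agent.Lib.MP96bed6

namespace AVGM

/-- Smooth with bounded derivatives, values in any space. -/
def SBW {W : Type} [NormedAddCommGroup W] [NormedSpace ℝ W] (F : E → W) : Prop :=
  ContDiff ℝ ∞ F ∧ ∀ k : ℕ, ∃ A : ℝ, BD k A F

/-- Averages of translates, values in any space. -/
def avgW {W : Type} [NormedAddCommGroup W] [NormedSpace ℝ W] (μ : Measure E) (F : E → W) (x : E) : W :=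
  ∫ y, F (x - y) ∂μ

variable {W : Type} [NormedAddCommGroup W] [NormedSpace ℝ W]

theorem SBW.fderiv {F : E → W} (h : SBW F) : SBW (fderiv ℝ F) := by
  refine ⟨h.1.fderiv_right (by simp), fun k => ?_⟩
  obtain ⟨A, hA⟩ := h.2 (k + 1)
  refine ⟨A, fun x => ?_⟩
  rw [norm_iteratedFDeriv_fderiv]
  exact hA x

theorem bound0 {F : E → W} (h : SBW F) : ∃ A : ℝ, ∀ x, ‖F x‖ ≤ A := by
  obtain ⟨A, hA⟩ := h.2 0
  refine ⟨A, fun x => ?_⟩
  have := hA x
  rwa [norm_iteratedFDeriv_zero] at this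

omit [NormedSpace ℝ W] in
theorem meas {F : E → W} (h : Continuous F) (μ : Measure E) (x : E) :
    AEStronglyMeasurable (fun y => F (x - y)) μ :=
  (h.comp (continuous_const.sub continuous_id)).aestronglyMeasurable

theorem integ {F : E → W} (h : SBW F) (μ : Measure E) [IsProbabilityMeasure μ] (x : E) :
    Integrable (fun y => F (x - y)) μ := by
  obtain ⟨A, hA⟩ := bound0 h
  exact Integrable.of_bound (meas h.1.continuous μ x) A (Eventually.of_forall fun y => hA _)

theorem hasFDerivAt_avgW {F : E → W} (h : SBW F) (μ : Measure E) [IsProbabilityMeasure μ] (x : E) :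
    HasFDerivAt (avgW μ F) (avgW μ (fderiv ℝ F) x) x := by
  obtain ⟨A, hA⟩ := bound0 h.fderiv
  unfold avgW
  refine hasFDerivAt_integral_of_dominated_of_fderiv_le (F := fun x y => F (x - y))
    (F' := fun x y => fderiv ℝ F (x - y)) (bound := fun _ => A) (s := univ) Filter.univ_mem ?_ ?_ ?_ ?_ ?_ ?_
  · exact Eventually.of_forall fun x => meas h.1.continuous μ x
  · exact integ h μ x
  · exact meas h.fderiv.1.continuous μ x
  · exact Eventually.of_forall fun y x _ => hA _
  · exact integrable_const A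
  · refine Eventually.of_forall fun y x _ => ?_
    have h1 : HasFDerivAt F (fderiv ℝ F (x - y)) (x - y) :=
      ((h.1.differentiable (by simp)) _).hasFDerivAt
    have h2 : HasFDerivAt (fun x : E => x - y) (ContinuousLinearMap.id ℝ E) x :=
      (hasFDerivAt_id x).sub_const y
    have h3 := h1.comp x h2
    rwa [ContinuousLinearMap.comp_id] at h3

theorem fderiv_avgW {F : E → W} (h : SBW F) (μ : Measure E) [IsProbabilityMeasure μ] :
    fderiv ℝ (avgW μ F) = avgW μ (fderiv ℝ F) :=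
  funext fun x => (hasFDerivAt_avgW h μ x).fderiv

theorem norm_avgW {F : E → W} (μ : Measure E) [IsProbabilityMeasure μ] {A : ℝ} (hA : ∀ x, ‖F x‖ ≤ A) (x : E) :
    ‖avgW μ F x‖ ≤ A := by
  unfold avgW
  have := norm_integral_le_of_norm_le_const (μ := μ) (f := fun y => F (x - y)) (C := A)
    (Eventually.of_forall fun y => hA _)
  simpa using this

theorem main (μ : Measure E) [IsProbabilityMeasure μ] (n : ℕ) :
    ∀ (W : Type) [NormedAddCommGroup W] [NormedSpace ℝ W] (F : E → W), SBW F →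
      ContDiff ℝ n (avgW μ F) ∧ ∀ A : ℝ, BD n A F → BD n A (avgW μ F) := by
  induction n with
  | zero =>
    intro W _ _ F hF
    refine ⟨?_, fun A hA x => ?_⟩
    · rw [Nat.cast_zero, contDiff_zero]
      exact continuous_iff_continuousAt.2 fun x => (hasFDerivAt_avgW hF μ x).continuousAt
    · rw [norm_iteratedFDeriv_zero]
      refine norm_avgW μ (fun y => ?_) x
      have := hA y
      rwa [norm_iteratedFDeriv_zero] at this
  | succ n ih =>
    intro W _ _ F hF
    obtain ⟨h1, h2⟩ := ih (E →L[ℝ] W) (fderiv ℝ F) hF.fderiv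
    rw [← fderiv_avgW hF] at h1 h2
    refine ⟨?_, fun A hA x => ?_⟩
    · rw [Nat.cast_succ, contDiff_succ_iff_fderiv]
      refine ⟨fun x => (hasFDerivAt_avgW hF μ x).differentiableAt, fun h => ?_, h1⟩
      exact absurd h (by simp)
    · rw [← norm_iteratedFDeriv_fderiv]
      refine h2 A (fun y => ?_) x
      rw [norm_iteratedFDeriv_fderiv]
      exact hA y

end AVGM

open AVGM in
/-- **AVG**. -/
theorem specAVG : SpecAVG := by
  intro μ hμ f hf
  have hf' : SBW f := hf
  have hm := fun n : ℕ => main μ n ℝ f hf'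
  have he : avgW μ f = avg μ f := rfl
  rw [he] at hm
  refine ⟨⟨contDiff_infty.2 fun n => (hm n).1, fun k => ?_⟩, fun k A hA => (hm k).2 A hA, fun x v => ?_⟩
  · obtain ⟨A, hA⟩ := hf.2 k
    exact ⟨A, (hm k).2 A hA⟩
  · have h1 : fderiv ℝ (avg μ f) x = avgW μ (fderiv ℝ f) x := by
      rw [← he, fderiv_avgW hf']
    rw [h1]
    unfold avgW avg
    exact ContinuousLinearMap.integral_apply (integ hf'.fderiv μ x) v

end Pool.Agent.Lib.MP96bed6
end
end

section
/-!
# MP_96bed6_an, part W: continuation of smooth solutions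
-/
set_option autoImplicit false

open MeasureTheory Filter Topology Set
open scoped ENNReal ContDiff NNReal

noncomputable section

namespace Pool.Agent.Lib.MP96bed6

theorem specCNT (hEXI : SpecEXI) (hUNQ : SpecUNQ) (hSHT : SpecSHT) (hGLS : SpecGLS) : SpecCNT := by
  intro g α κ hg hα0 hα1 hκ
  obtain ⟨c, hc, hE⟩ := hEXI g α κ hg hα0 hα1 hκ
  refine ⟨c, hc, hE, ?_⟩
  intro T' t A θ₀ θ hθ ht hA hBD hT
  obtain ⟨η, hη⟩ := hE (θ t) A ⟨hθ.smooth t ht, fun k => by
      obtain ⟨B, hB⟩ := hθ.bdd k t ht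
      exact ⟨B, hB t ⟨ht.1, le_refl t⟩⟩⟩
    (fun ε hε => by
      obtain ⟨R, hR⟩ := hθ.sol.decay t ht ε hε
      exact ⟨R, fun x hx => hR t ⟨ht.1, le_refl t⟩ x hx⟩) hA hBD
  have hS := hSHT g α κ T' t θ₀ θ hθ ht
  have hmin : min (c / A) (T' - t) = T' - t := min_eq_right (by linarith)
  have hag : ∀ s ∈ Ico (0 : ℝ) (T' - t), η s = θ (t + s) := by
    intro s hs
    exact hUNQ g α κ hg hα0 hα1 hκ (c / A) (T' - t) (θ t) η (fun s => θ (t + s)) hη.sol hS.sol
      (fun t' ht' => hS.bdd 1 t' ht') s (by rw [hmin]; exact hs)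
  exact ⟨_, hGLS g α κ T' (c / A) t θ₀ θ η ht.1 ht.2 hT hθ hη hag⟩

end Pool.Agent.Lib.MP96bed6
end
end

section
/-!
# MP_96bed6_an, part W, module DCY: decay at infinity of the scheme, uniformly in the step
-/
set_option autoImplicit false

open MeasureTheory Filter Topology Set
open scoped ENNReal ContDiff NNReal

noncomputable section

namespace Pool.Agent.Lib.MP96bed6

namespace DCYM

/-- The cut-off function. -/
def cut (R : ℝ) (x : E) : ℝ := min 1 (max 0 (2 - ‖x‖ / R))

lemma cut_nonneg (R : ℝ) (x : E) : 0 ≤ cut R x := le_min zero_le_one (le_max_left _ _)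

lemma cut_le_one (R : ℝ) (x : E) : cut R x ≤ 1 := min_le_left _ _

lemma cut_eq_one {R : ℝ} (hR : 0 < R) {x : E} (hx : ‖x‖ ≤ R) : cut R x = 1 := by
  have h1 : ‖x‖ / R ≤ 1 := (div_le_one hR).mpr hx
  have h2 : 1 ≤ max 0 (2 - ‖x‖ / R) := le_trans (by linarith) (le_max_right _ _)
  exact min_eq_left h2

lemma cut_eq_zero {R : ℝ} (hR : 0 < R) {x : E} (hx : 2 * R ≤ ‖x‖) : cut R x = 0 := by
  have h1 : 2 ≤ ‖x‖ / R := by
    rw [le_div_iff₀ hR]
    exact hx
  have h2 : max 0 (2 - ‖x‖ / R) = 0 := max_eq_left (by linarith)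
  rw [cut, h2]
  exact min_eq_right zero_le_one

lemma cut_lip {R : ℝ} (hR : 0 < R) (y z : E) : |cut R y - cut R z| ≤ 1 / R * ‖y - z‖ := by
  have h1 : |cut R y - cut R z| ≤ |(max 0 (2 - ‖y‖ / R)) - (max 0 (2 - ‖z‖ / R))| := by
    have := abs_min_sub_min_le_max (1 : ℝ) (max 0 (2 - ‖y‖ / R)) 1 (max 0 (2 - ‖z‖ / R))
    simpa [cut] using this
  have h2 : |(max 0 (2 - ‖y‖ / R)) - (max 0 (2 - ‖z‖ / R))| ≤ |(2 - ‖y‖ / R) - (2 - ‖z‖ / R)| := by
    have := abs_max_sub_max_le_max (0 : ℝ) (2 - ‖y‖ / R) 0 (2 - ‖z‖ / R)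
    simpa using this
  have h3 : |(2 - ‖y‖ / R) - (2 - ‖z‖ / R)| = 1 / R * |‖z‖ - ‖y‖| := by
    have : (2 - ‖y‖ / R) - (2 - ‖z‖ / R) = 1 / R * (‖z‖ - ‖y‖) := by ring
    rw [this, abs_mul, abs_of_pos (by positivity : (0 : ℝ) < 1 / R)]
  have h4 : |‖z‖ - ‖y‖| ≤ ‖y - z‖ := by
    rw [norm_sub_rev]
    exact abs_norm_sub_norm_le z y
  calc |cut R y - cut R z| ≤ 1 / R * |‖z‖ - ‖y‖| := by
        rw [← h3]
        exact le_trans h1 h2
    _ ≤ 1 / R * ‖y - z‖ := mul_le_mul_of_nonneg_left h4 (by positivity)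

lemma cut_cont (R : ℝ) : Continuous (cut R) := by
  unfold cut
  fun_prop

lemma PHI_nonneg (α : ℝ) : 0 ≤ PHI α := by
  unfold PHI
  refine integral_nonneg ?_
  intro z
  have h1 : (0 : ℝ) ≤ min 1 ‖z‖ := le_min zero_le_one (norm_nonneg _)
  have h2 : (0 : ℝ) ≤ ‖z‖ ^ (2 + 2 * α) := Real.rpow_nonneg (norm_nonneg _) _
  exact div_nonneg h1 h2

lemma exists_R (α κ K M T₀ R₀ η : ℝ) (hα : 0 < α) (hη : 0 < η) :
    ∃ R : ℝ, 1 ≤ R ∧ R₀ ≤ R ∧ M * T₀ * (K * M / R + κ * (1 / R) ^ (2 * α) * PHI α) ≤ η / 2 := by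
  have t1 : Tendsto (fun R : ℝ => 1 / R) atTop (𝓝 0) := by
    simpa using tendsto_inv_atTop_zero (𝕜 := ℝ)
  have t2 : Tendsto (fun R : ℝ => (1 / R) ^ (2 * α)) atTop (𝓝 0) := by
    have := t1.rpow_const (p := 2 * α) (Or.inr (by positivity))
    rwa [Real.zero_rpow (by positivity)] at this
  have t3 : Tendsto (fun R : ℝ => M * T₀ * (K * M * (1 / R) + κ * (1 / R) ^ (2 * α) * PHI α)) atTop
      (𝓝 (M * T₀ * (K * M * 0 + κ * 0 * PHI α))) :=
    ((t1.const_mul (K * M)).add ((t2.const_mul κ).mul_const (PHI α))).const_mul (M * T₀)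
  have t4 : ∀ᶠ R : ℝ in atTop, M * T₀ * (K * M * (1 / R) + κ * (1 / R) ^ (2 * α) * PHI α) < η / 2 := by
    refine t3.eventually_lt_const ?_
    simp only [mul_zero, zero_mul, add_zero]
    exact half_pos hη
  obtain ⟨R, hR1, hR2, hR3⟩ := (t4.and ((eventually_ge_atTop (1 : ℝ)).and (eventually_ge_atTop R₀))).exists
  refine ⟨R, hR2, hR3, ?_⟩
  have : K * M / R = K * M * (1 / R) := by ring
  rw [this]
  exact hR1.le

end DCYM

open DCYM in
/-- DCY: decay at infinity. -/
theorem specDCY (hAHM : SpecAHM) (hLHB : SpecLHB) (hSUP : SpecSUP) (hDIV : SpecDIV) : SpecDCY := by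
  intro g α κ hg hα hα2 hκ M T₀ f₀ hT₀ hM hdec η hη
  obtain ⟨K, hK, hvel⟩ := hSUP g hg
  have hM0 : 0 ≤ M := le_trans (abs_nonneg _) (hM 0)
  obtain ⟨R₀, hR₀⟩ := hdec (η / 2) (half_pos hη)
  obtain ⟨R, hR1, hR0, hRc⟩ := exists_R α κ K M T₀ R₀ η hα hη
  have hRp : 0 < R := lt_of_lt_of_le one_pos hR1
  set c : ℝ := K * M / R + κ * (1 / R) ^ (2 * α) * PHI α with hc
  have hc0 : 0 ≤ c := by
    have h1 : 0 ≤ K * M / R := by positivity
    have h2 : 0 ≤ κ * (1 / R) ^ (2 * α) * PHI α :=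
      mul_nonneg (mul_nonneg hκ (Real.rpow_nonneg (by positivity) _)) (PHI_nonneg α)
    linarith
  refine ⟨2 * R, ?_⟩
  intro h f hh hh1 hκh hf0 hfb hfs
  obtain ⟨μ, hμ, hμf⟩ := hAHM α κ h hα hα2 hκ hh hκh
  have := hμ
  have key : ∀ n : ℕ, (n : ℝ) * h ≤ T₀ → ∀ x, |f n x| ≤ η / 2 + M * cut R x + M * (n * h) * c := by
    intro n
    induction n with
    | zero =>
      intro _ x
      rw [hf0]
      by_cases hx : ‖x‖ ≤ R
      · rw [cut_eq_one hRp hx]
        have := hM x
        simp only [Nat.cast_zero, zero_mul, mul_zero, add_zero]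
        linarith
      · have h1 := hR₀ x (le_trans hR0 (not_le.mp hx).le)
        have h2 : 0 ≤ M * cut R x := mul_nonneg hM0 (cut_nonneg R x)
        simp only [Nat.cast_zero, zero_mul, mul_zero, add_zero]
        linarith
    | succ n ih =>
      intro hn x
      have hn' : (n : ℝ) * h ≤ T₀ := by
        have : (n : ℝ) * h ≤ ((n + 1 : ℕ) : ℝ) * h := by
          push_cast
          nlinarith
        linarith
      have ih' := ih hn'
      obtain ⟨⟨hsm, -⟩, hfM⟩ := hfb n hn'
      have hvc : Continuous (vel g (f n)) := (hDIV g (f n) hg hsm).1.continuous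
      have hfc : Continuous (f n) := hsm.continuous
      have hFc : Continuous (shift g h (f n)) := by
        unfold shift
        exact hfc.comp (continuous_id.sub (hvc.const_smul h))
      have hFM : ∀ y, |shift g h (f n) y| ≤ M := fun y => hfM _
      set a : ℝ := η / 2 + M * (h * (K * M / R)) + M * (n * h) * c with ha
      have hFb : ∀ y, |shift g h (f n) y| ≤ a + M * cut R y := by
        intro y
        have h1 := ih' (y - h • vel g (f n) y)
        have h2 : cut R (y - h • vel g (f n) y) ≤ cut R y + h * (K * M / R) := by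
          have h3 := cut_lip hRp (y - h • vel g (f n) y) y
          have h4 : ‖(y - h • vel g (f n) y) - y‖ ≤ h * (K * M) := by
            have : (y - h • vel g (f n) y) - y = -(h • vel g (f n) y) := by abel
            rw [this, norm_neg, norm_smul, Real.norm_eq_abs, abs_of_pos hh]
            exact mul_le_mul_of_nonneg_left (hvel (f n) hfc M hfM y) hh.le
          have h5 : 1 / R * ‖(y - h • vel g (f n) y) - y‖ ≤ 1 / R * (h * (K * M)) :=
            mul_le_mul_of_nonneg_left h4 (by positivity)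
          have h6 : 1 / R * (h * (K * M)) = h * (K * M / R) := by ring
          have h7 := le_trans (le_abs_self _) h3
          linarith
        have h8 : M * cut R (y - h • vel g (f n) y) ≤ M * (cut R y + h * (K * M / R)) :=
          mul_le_mul_of_nonneg_left h2 hM0
        show |f n (y - h • vel g (f n) y)| ≤ a + M * cut R y
        rw [ha]
        linarith
      have hint : Integrable (fun y => cut R (x - y)) μ := by
        refine Integrable.of_bound (C := 1) ?_ ?_
        · exact ((cut_cont R).comp (continuous_const.sub continuous_id)).aestronglyMeasurable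
        · refine Eventually.of_forall ?_
          intro y
          rw [Real.norm_eq_abs, abs_of_nonneg (cut_nonneg _ _)]
          exact cut_le_one _ _
      have e1 : f (n + 1) x = avg μ (shift g h (f n)) x := by
        rw [hfs n]
        exact hμf _ hFc ⟨M, hFM⟩ x
      have e2 : |avg μ (shift g h (f n)) x| ≤ ∫ y, (a + M * cut R (x - y)) ∂μ := by
        have := norm_integral_le_of_norm_le (μ := μ) (f := fun y => shift g h (f n) (x - y))
          (g := fun y => a + M * cut R (x - y)) ((integrable_const a).add (hint.const_mul M))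
          (Eventually.of_forall (fun y => by
            rw [Real.norm_eq_abs]
            exact hFb (x - y)))
        rw [Real.norm_eq_abs] at this
        exact this
      have e3 : (∫ y, (a + M * cut R (x - y)) ∂μ) = a + M * avg μ (cut R) x := by
        rw [integral_add (integrable_const a) (hint.const_mul M), integral_const, integral_const_mul]
        simp [avg]
      have e4 : avg μ (cut R) x = cut R x - κ * h * lapH α h (cut R) x :=
        (hμf (cut R) (cut_cont R) ⟨1, fun y => by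
          rw [abs_of_nonneg (cut_nonneg _ _)]
          exact cut_le_one _ _⟩ x).symm
      have e5 : |lapH α h (cut R) x| ≤ (1 / R) ^ (2 * α) * PHI α :=
        (hLHB α h hα hα2 hh).2 (cut R) (1 / R) (by positivity)
          (fun y => ⟨cut_nonneg _ _, cut_le_one _ _⟩) (cut_lip hRp) x
      have e6 : avg μ (cut R) x ≤ cut R x + h * (κ * (1 / R) ^ (2 * α) * PHI α) := by
        rw [e4]
        have h1 := neg_abs_le (lapH α h (cut R) x)
        have h2 : -((1 / R) ^ (2 * α) * PHI α) ≤ lapH α h (cut R) x := by linarith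
        have h3 : κ * h * (-((1 / R) ^ (2 * α) * PHI α)) ≤ κ * h * lapH α h (cut R) x :=
          mul_le_mul_of_nonneg_left h2 (by positivity)
        nlinarith [h3]
      have e7 : M * avg μ (cut R) x ≤ M * (cut R x + h * (κ * (1 / R) ^ (2 * α) * PHI α)) :=
        mul_le_mul_of_nonneg_left e6 hM0
      rw [e1]
      have e8 : a + M * (cut R x + h * (κ * (1 / R) ^ (2 * α) * PHI α))
          = η / 2 + M * cut R x + M * (((n + 1 : ℕ) : ℝ) * h) * c := by
        rw [ha, hc]
        push_cast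
        ring
      calc |avg μ (shift g h (f n)) x| ≤ a + M * avg μ (cut R) x := by rw [← e3]; exact e2
        _ ≤ a + M * (cut R x + h * (κ * (1 / R) ^ (2 * α) * PHI α)) := by linarith
        _ = _ := e8
  intro n hn x hx
  have h1 := key n hn x
  rw [cut_eq_zero hRp hx, mul_zero, add_zero] at h1
  have h2 : M * (n * h) * c ≤ M * T₀ * c := by
    refine mul_le_mul_of_nonneg_right ?_ hc0
    exact mul_le_mul_of_nonneg_left hn hM0
  linarith

end Pool.Agent.Lib.MP96bed6
end
end

section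
/-!
# EXI: existence of a smooth solution
-/
set_option autoImplicit false

open MeasureTheory Filter Topology Set
open scoped ENNReal ContDiff NNReal

noncomputable section

namespace Pool.Agent.Lib.MP96bed6

namespace EXIM

/-- bounded sequences converge along an ultrafilter -/
theorem exists_lim (𝒰 : Ultrafilter ℕ) (a : ℕ → ℝ) (M : ℝ) (h : ∀ N, |a N| ≤ M) :
    ∃ l : ℝ, Tendsto a 𝒰 (𝓝 l) := by
  have h1 : IsCompact (Icc (-M) M) := isCompact_Icc
  obtain ⟨l, -, hl⟩ := h1.ultrafilter_le_nhds (𝒰.map a) (by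
    rw [Ultrafilter.coe_map, le_principal_iff, mem_map]
    exact Filter.univ_mem' fun N => abs_le.1 (h N))
  exact ⟨l, hl⟩

theorem bd_zero {M : ℝ} {f : E → ℝ} (h : BD 0 M f) (x : E) : |f x| ≤ M := by
  have h1 := h x
  rwa [norm_iteratedFDeriv_zero, Real.norm_eq_abs] at h1

theorem bd_mono {k : ℕ} {A B : ℝ} {f : E → ℝ} (h : BD k A f) (hAB : A ≤ B) : BD k B f :=
  fun x => (h x).trans hAB

theorem bd_lip {A : ℝ} {f : E → ℝ} (hf : ContDiff ℝ ∞ f) (h : BD 1 A f) (x y : E) :
    |f x - f y| ≤ A * ‖x - y‖ := by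
  have hd : Differentiable ℝ f := hf.differentiable (by simp)
  have h1 : ∀ z ∈ (univ : Set E), ‖fderiv ℝ f z‖ ≤ A := by
    intro z _
    have h2 := h z
    rwa [norm_iteratedFDeriv_one] at h2
  have h3 := convex_univ.norm_image_sub_le_of_norm_fderiv_le (𝕜 := ℝ) (fun z _ => hd z) h1
    (mem_univ y) (mem_univ x)
  rwa [Real.norm_eq_abs] at h3

theorem floor_le {t h : ℝ} (ht : 0 ≤ t) (hh : 0 < h) : (⌊t / h⌋₊ : ℝ) * h ≤ t := by
  have h1 := Nat.floor_le (div_nonneg ht hh.le)
  calc (⌊t / h⌋₊ : ℝ) * h ≤ t / h * h := mul_le_mul_of_nonneg_right h1 hh.le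
    _ = t := div_mul_cancel₀ _ hh.ne'

theorem le_floor {t h : ℝ} (hh : 0 < h) : t - h ≤ (⌊t / h⌋₊ : ℝ) * h := by
  have h1 := (Nat.lt_floor_add_one (t / h)).le
  have h2 : t ≤ ((⌊t / h⌋₊ : ℝ) + 1) * h := by
    calc t = t / h * h := (div_mul_cancel₀ _ hh.ne').symm
      _ ≤ _ := mul_le_mul_of_nonneg_right h1 hh.le
  linarith

/-- the number of steps times the length of a step -/
theorem tendsto_steps {𝒰 : Filter ℕ} {h : ℕ → ℝ} (hpos : ∀ N, 0 < h N)
    (hh : Tendsto h 𝒰 (𝓝 0)) {t : ℝ} (ht : 0 ≤ t) :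
    Tendsto (fun N => (⌊t / h N⌋₊ : ℝ) * h N) 𝒰 (𝓝 t) := by
  have h1 : Tendsto (fun N => t - h N) 𝒰 (𝓝 t) := by
    simpa using (tendsto_const_nhds (x := t)).sub hh
  exact tendsto_of_tendsto_of_tendsto_of_le_of_le h1 tendsto_const_nhds
    (fun N => le_floor (hpos N)) fun N => floor_le ht (hpos N)

/-- a derivative from a quadratic estimate -/
theorem hasDerivAt_of_quad {u : ℝ → ℝ} {s G C a b : ℝ} (hs : s ∈ Ioo a b)
    (h : ∀ t ∈ Ioo a b, |u t - u s + (t - s) * G| ≤ C * (t - s) ^ 2) : HasDerivAt u (-G) s := by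
  rw [hasDerivAt_iff_isLittleO]
  have h1 : (fun t => u t - u s - (t - s) • (-G)) =O[𝓝 s] fun t => (t - s) ^ 2 := by
    refine Asymptotics.IsBigO.of_bound C ?_
    filter_upwards [Ioo_mem_nhds hs.1 hs.2] with t ht
    rw [Real.norm_eq_abs, Real.norm_eq_abs, abs_of_nonneg (sq_nonneg (t - s)), smul_eq_mul]
    have h2 := h t ht
    have h3 : u t - u s - (t - s) * (-G) = u t - u s + (t - s) * G := by ring
    rwa [h3]
  refine h1.trans_isLittleO ?_
  have h2 : (fun t : ℝ => (t - s) ^ 2) = fun t => (t - s) * (t - s) := by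
    funext t; ring
  rw [h2]
  have h3 : (fun t : ℝ => t - s) =o[𝓝 s] fun _ => (1 : ℝ) := by
    rw [Asymptotics.isLittleO_one_iff]
    have : Tendsto (fun t : ℝ => t - s) (𝓝 s) (𝓝 (s - s)) :=
      (continuous_id.sub continuous_const).tendsto s
    simpa using this
  simpa using h3.mul_isBigO (Asymptotics.isBigO_refl (fun t : ℝ => t - s) (𝓝 s))

end EXIM

open EXIM in
theorem specEXI (hSCB : SpecSCB) (hMOD : SpecMOD) (hDCY : SpecDCY) (hLMC : SpecLMC)
    (hLMR : SpecLMR) : SpecEXI := by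
  intro g α κ hg hα hα2 hκ
  obtain ⟨c, h₀, hc, hh₀, hh₀1, hcond, hS⟩ := hSCB g α κ hg hα hα2 hκ
  refine ⟨c, hc, fun f₀ A hSB hdec hA hBD1 => ?_⟩
  obtain ⟨C, hC0, hCs⟩ := hS f₀ A hSB hA hBD1
  set T₀ := c / A with hT₀
  have hT₀pos : 0 < T₀ := div_pos hc hA
  obtain ⟨M, hM⟩ := hSB.2 0
  have hM' : ∀ x, |f₀ x| ≤ M := fun x => bd_zero hM x
  -- the steps
  let h : ℕ → ℝ := fun N => h₀ / ((N : ℝ) + 1)
  have hpos : ∀ N, 0 < h N := fun N => div_pos hh₀ (by positivity)
  have hle : ∀ N, h N ≤ h₀ := fun N => by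
    show h₀ / ((N : ℝ) + 1) ≤ h₀
    rw [div_le_iff₀ (by positivity)]
    nlinarith [Nat.cast_nonneg (α := ℝ) N]
  let 𝒰 : Ultrafilter ℕ := hyperfilter ℕ
  have h𝒰 : Tendsto h 𝒰 (𝓝 0) := by
    have h1 : Tendsto h atTop (𝓝 0) := by
      have h2 : Tendsto (fun N : ℕ => (N : ℝ) + 1) atTop atTop :=
        tendsto_atTop_add_const_right _ _ tendsto_natCast_atTop_atTop
      exact h2.const_div_atTop h₀
    exact h1.mono_left (Nat.hyperfilter_le_atTop)
  let F : ℕ → ℝ → E → ℝ := fun N t => sch g α κ (h N) f₀ ⌊t / h N⌋₊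
  have hn : ∀ N, ∀ t ∈ Icc (0 : ℝ) T₀, (⌊t / h N⌋₊ : ℝ) * h N ≤ T₀ := fun N t ht =>
    (floor_le ht.1 (hpos N)).trans ht.2
  have hF : ∀ N, ∀ t ∈ Icc (0 : ℝ) T₀, SB (F N t) ∧ (∀ k, BD k (C k) (F N t)) ∧
      ∀ x, |F N t x| ≤ M := by
    intro N t ht
    obtain ⟨h1, h2, h3⟩ := hCs (h N) ⌊t / h N⌋₊ (hpos N) (hle N) (hn N t ht)
    exact ⟨h1, h2, h3 M hM'⟩
  have hex : ∀ (t : ℝ) (x : E), ∃ l : ℝ, t ∈ Icc (0 : ℝ) T₀ →
      Tendsto (fun N => F N t x) 𝒰 (𝓝 l) := by
    intro t x
    by_cases ht : t ∈ Icc (0 : ℝ) T₀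
    · obtain ⟨l, hl⟩ := exists_lim 𝒰 (fun N => F N t x) M fun N => (hF N t ht).2.2 x
      exact ⟨l, fun _ => hl⟩
    · exact ⟨0, fun h => absurd h ht⟩
  choose θ hθ using hex
  have hIco : ∀ {t : ℝ}, t ∈ Ico (0 : ℝ) T₀ → t ∈ Icc (0 : ℝ) T₀ := fun ht => ⟨ht.1, ht.2.le⟩
  have hIoo : ∀ {t : ℝ}, t ∈ Ioo (0 : ℝ) T₀ → t ∈ Icc (0 : ℝ) T₀ := fun ht => ⟨ht.1.le, ht.2.le⟩
  -- smoothness and bounds
  have hsm : ∀ t ∈ Icc (0 : ℝ) T₀, ContDiff ℝ ∞ (θ t) ∧ ∀ k, BD k (C k) (θ t) := by
    intro t ht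
    obtain ⟨h1, h2, -⟩ := hLMC 𝒰 (fun N => F N t) (θ t) (fun N => (hF N t ht).1.1)
      (fun k => ⟨C k, fun N => (hF N t ht).2.1 k⟩) (fun x => hθ t x ht)
    exact ⟨h1, fun k => h2 k (C k) fun N => (hF N t ht).2.1 k⟩
  -- the modulus
  set B : ℝ := C 0 + C 1 + C 2 with hB
  have hB0 : 0 ≤ B := by have := hC0 0; have := hC0 1; have := hC0 2; positivity
  obtain ⟨K, hK0, hK⟩ := hMOD g α κ hg hα hα2 hκ B T₀ hB0 hT₀pos.le
  have hmod : ∀ N, ∀ t ∈ Icc (0 : ℝ) T₀, ∀ s ∈ Icc (0 : ℝ) T₀, ∀ x,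
      |F N t x - F N s x| ≤ K * (|(⌊t / h N⌋₊ : ℝ) - ⌊s / h N⌋₊| * h N) ∧
      |F N t x - F N s x + ((⌊t / h N⌋₊ : ℝ) - ⌊s / h N⌋₊) * h N * rhs g α κ (h N) (F N s) x| ≤
        K * ((((⌊t / h N⌋₊ : ℝ) - ⌊s / h N⌋₊) * h N) ^ 2 + h N) := by
    intro N t ht s hs x
    refine hK (h N) (sch g α κ (h N) f₀) (hpos N) ((hle N).trans hh₀1) (hcond _ (hpos N) (hle N))
      ?_ ?_ _ _ (hn N t ht) (hn N s hs) x
    · intro n hn'
      obtain ⟨h1, h2, -⟩ := hCs (h N) n (hpos N) (hle N) hn'
      refine ⟨h1, fun j hj => ?_⟩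
      have h0 := hC0 0
      have h1' := hC0 1
      have h2' := hC0 2
      interval_cases j
      · exact bd_mono (h2 0) (by rw [hB]; linarith)
      · exact bd_mono (h2 1) (by rw [hB]; linarith)
      · exact bd_mono (h2 2) (by rw [hB]; linarith)
    · intro n
      exact Function.iterate_succ_apply' _ _ _
  have hst : ∀ t ∈ Icc (0 : ℝ) T₀, ∀ s ∈ Icc (0 : ℝ) T₀,
      Tendsto (fun N => ((⌊t / h N⌋₊ : ℝ) - ⌊s / h N⌋₊) * h N) 𝒰 (𝓝 (t - s)) := by
    intro t ht s hs
    have h1 := (tendsto_steps hpos h𝒰 ht.1).sub (tendsto_steps hpos h𝒰 hs.1)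
    refine h1.congr fun N => ?_
    ring
  have hlipt : ∀ t ∈ Icc (0 : ℝ) T₀, ∀ s ∈ Icc (0 : ℝ) T₀, ∀ x,
      |θ t x - θ s x| ≤ K * |t - s| := by
    intro t ht s hs x
    have h1 : Tendsto (fun N => |F N t x - F N s x|) 𝒰 (𝓝 |θ t x - θ s x|) :=
      ((hθ t x ht).sub (hθ s x hs)).abs
    have h2 : Tendsto (fun N => K * |((⌊t / h N⌋₊ : ℝ) - ⌊s / h N⌋₊) * h N|) 𝒰
        (𝓝 (K * |t - s|)) := (hst t ht s hs).abs.const_mul K
    refine le_of_tendsto_of_tendsto' h1 h2 fun N => ?_
    rw [abs_mul, abs_of_pos (hpos N)]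
    exact (hmod N t ht s hs x).1
  -- the equation at `s`
  let G : ℝ → E → ℝ := fun s x => fderiv ℝ (θ s) x (vel g (θ s) x) + κ * fracLap α (θ s) x
  have hrhs : ∀ s ∈ Icc (0 : ℝ) T₀, ∀ x,
      Tendsto (fun N => rhs g α κ (h N) (F N s) x) 𝒰 (𝓝 (G s x)) := by
    intro s hs x
    exact hLMR g α κ hg hα hα2 𝒰 h (fun N => F N s) (θ s) hpos h𝒰 (fun N => (hF N s hs).1.1)
      (fun k => ⟨C k, fun N => (hF N s hs).2.1 k⟩) (fun x => hθ s x hs) x
  have hquad : ∀ t ∈ Icc (0 : ℝ) T₀, ∀ s ∈ Icc (0 : ℝ) T₀, ∀ x,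
      |θ t x - θ s x + (t - s) * G s x| ≤ K * (t - s) ^ 2 := by
    intro t ht s hs x
    have h1 : Tendsto (fun N => |F N t x - F N s x +
        ((⌊t / h N⌋₊ : ℝ) - ⌊s / h N⌋₊) * h N * rhs g α κ (h N) (F N s) x|) 𝒰
        (𝓝 |θ t x - θ s x + (t - s) * G s x|) :=
      (((hθ t x ht).sub (hθ s x hs)).add ((hst t ht s hs).mul (hrhs s hs x))).abs
    have h2 : Tendsto (fun N => K * ((((⌊t / h N⌋₊ : ℝ) - ⌊s / h N⌋₊) * h N) ^ 2 + h N)) 𝒰
        (𝓝 (K * ((t - s) ^ 2 + 0))) := (((hst t ht s hs).pow 2).add h𝒰).const_mul K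
    rw [add_zero] at h2
    exact le_of_tendsto_of_tendsto' h1 h2 fun N => (hmod N t ht s hs x).2
  have hder : ∀ s ∈ Ioo (0 : ℝ) T₀, ∀ x, HasDerivAt (fun t => θ t x) (-G s x) s := by
    intro s hs x
    exact hasDerivAt_of_quad hs fun t ht => hquad t (hIoo ht) s (hIoo hs) x
  refine ⟨θ, ⟨⟨?_, ?_, ?_, ?_, ?_, ?_⟩, ?_, ?_⟩⟩
  · -- initial value
    funext x
    have h1 : ∀ N, F N 0 x = f₀ x := by
      intro N
      show sch g α κ (h N) f₀ ⌊0 / h N⌋₊ x = f₀ x
      rw [zero_div, Nat.floor_zero]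
      rfl
    have h2 := hθ 0 x ⟨le_rfl, hT₀pos.le⟩
    simp only [h1] at h2
    exact tendsto_nhds_unique h2 tendsto_const_nhds
  · -- joint continuity
    have h1 : ∀ p ∈ Ico (0 : ℝ) T₀ ×ˢ (univ : Set E), ∀ q ∈ Ico (0 : ℝ) T₀ ×ˢ (univ : Set E),
        dist (θ p.1 p.2) (θ q.1 q.2) ≤ (K + C 1) * dist p q := by
      intro p hp q hq
      have e1 := hlipt p.1 (hIco hp.1) q.1 (hIco hq.1) p.2
      have e2 := bd_lip (hsm q.1 (hIco hq.1)).1 ((hsm q.1 (hIco hq.1)).2 1) p.2 q.2
      have e3 : |p.1 - q.1| ≤ dist p q := by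
        rw [← Real.dist_eq]
        exact (le_max_left _ _)
      have e4 : ‖p.2 - q.2‖ ≤ dist p q := by
        rw [← dist_eq_norm]
        exact (le_max_right _ _)
      rw [Real.dist_eq]
      calc |θ p.1 p.2 - θ q.1 q.2| ≤ |θ p.1 p.2 - θ q.1 p.2| + |θ q.1 p.2 - θ q.1 q.2| :=
            abs_sub_le _ _ _
        _ ≤ K * |p.1 - q.1| + C 1 * ‖p.2 - q.2‖ := add_le_add e1 e2
        _ ≤ K * dist p q + C 1 * dist p q :=
            add_le_add (mul_le_mul_of_nonneg_left e3 hK0) (mul_le_mul_of_nonneg_left e4 (hC0 1))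
        _ = (K + C 1) * dist p q := by ring
    have h2 : LipschitzOnWith (Real.toNNReal (K + C 1)) (fun p : ℝ × E => θ p.1 p.2)
        (Ico 0 T₀ ×ˢ univ) :=
      LipschitzOnWith.of_dist_le_mul fun p hp q hq => by
        rw [Real.coe_toNNReal _ (add_nonneg hK0 (hC0 1))]
        exact h1 p hp q hq
    exact h2.continuousOn
  · -- decay
    intro t _ η hη
    obtain ⟨R, hR⟩ := hDCY g α κ hg hα hα2 hκ M T₀ f₀ hT₀pos.le hM' hdec η hη
    refine ⟨R, fun s hs x hx => ?_⟩
    have hs' : s ∈ Icc (0 : ℝ) T₀ := ⟨hs.1, hs.2.trans (by rename_i ht; exact ht.2.le)⟩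
    have h1 := (hθ s x hs').abs
    refine le_of_tendsto' h1 fun N => ?_
    refine hR (h N) (sch g α κ (h N) f₀) (hpos N) ((hle N).trans hh₀1) (hcond _ (hpos N) (hle N))
      rfl ?_ ?_ _ (hn N s hs') x hx
    · intro n hn'
      obtain ⟨h1, -, h3⟩ := hCs (h N) n (hpos N) (hle N) hn'
      exact ⟨h1, h3 M hM'⟩
    · intro n
      exact Function.iterate_succ_apply' _ _ _
  · intro t ht x
    exact (hder t ht x).differentiableAt
  · intro t ht x
    exact ((hsm t (hIoo ht)).1.differentiable (by simp)) x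
  · intro t ht x
    rw [(hder t ht x).deriv]
    show -G t x + fderiv ℝ (θ t) x (vel g (θ t) x) + κ * fracLap α (θ t) x = 0
    show -(fderiv ℝ (θ t) x (vel g (θ t) x) + κ * fracLap α (θ t) x) +
      fderiv ℝ (θ t) x (vel g (θ t) x) + κ * fracLap α (θ t) x = 0
    ring
  · intro t ht
    exact (hsm t (hIco ht)).1
  · intro k t ht
    exact ⟨C k, fun s hs => (hsm s ⟨hs.1, hs.2.trans ht.2.le⟩).2 k⟩

end Pool.Agent.Lib.MP96bed6
end
end

section
/-!
# MP_96bed6_an, part W, module FDA: first derivative of `f∘(id - h u)`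
-/
set_option autoImplicit false

open MeasureTheory Filter Topology Set
open scoped ENNReal ContDiff NNReal

noncomputable section

namespace Pool.Agent.Lib.MP96bed6

theorem specFDA : SpecFDA := by
  intro h A B hh hA hB f u hf hu hfA huB x
  rw [norm_iteratedFDeriv_one]
  have hfd : ∀ y, DifferentiableAt ℝ f y := fun y => (hf.differentiable (by simp)) y
  have hud : ∀ y, DifferentiableAt ℝ u y := fun y => (hu.differentiable (by simp)) y
  have h1 : HasFDerivAt (fun x => x - h • u x) (ContinuousLinearMap.id ℝ E - h • fderiv ℝ u x) x :=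
    (hasFDerivAt_id x).sub ((hud x).hasFDerivAt.const_smul h)
  have h2 : HasFDerivAt (fun x => f (x - h • u x))
      ((fderiv ℝ f (x - h • u x)).comp (ContinuousLinearMap.id ℝ E - h • fderiv ℝ u x)) x :=
    (hfd (x - h • u x)).hasFDerivAt.comp x h1
  rw [h2.fderiv]
  have h3 : ‖fderiv ℝ f (x - h • u x)‖ ≤ A := by
    rw [← norm_iteratedFDeriv_one]; exact hfA _
  have h4 : ‖fderiv ℝ u x‖ ≤ B := by
    rw [← norm_iteratedFDeriv_one]; exact huB _
  have h5 : ‖ContinuousLinearMap.id ℝ E - h • fderiv ℝ u x‖ ≤ 1 + h * B := by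
    calc ‖ContinuousLinearMap.id ℝ E - h • fderiv ℝ u x‖
        ≤ ‖ContinuousLinearMap.id ℝ E‖ + ‖h • fderiv ℝ u x‖ := norm_sub_le _ _
      _ ≤ 1 + h * B := by
          gcongr
          · exact ContinuousLinearMap.norm_id_le
          · rw [norm_smul, Real.norm_eq_abs, abs_of_nonneg hh]
            exact mul_le_mul_of_nonneg_left h4 hh
  calc ‖(fderiv ℝ f (x - h • u x)).comp (ContinuousLinearMap.id ℝ E - h • fderiv ℝ u x)‖
      ≤ ‖fderiv ℝ f (x - h • u x)‖ * ‖ContinuousLinearMap.id ℝ E - h • fderiv ℝ u x‖ :=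
        ContinuousLinearMap.opNorm_comp_le _ _
    _ ≤ A * (1 + h * B) := mul_le_mul h3 h5 (norm_nonneg _) hA

end Pool.Agent.Lib.MP96bed6
end
end

section
/-!
# MP_96bed6_an, part W, module FDB: derivatives of order `k ≥ 2` of `f ∘ (id - h u)`
-/
set_option autoImplicit false

open MeasureTheory Filter Topology Set
open scoped ENNReal ContDiff NNReal

noncomputable section

namespace Pool.Agent.Lib.MP96bed6

namespace FDBM

/-- The sizes of the parts add up to `n`. -/
lemma sum_partSize {n : ℕ} (c : OrderedFinpartition n) : ∑ i, c.partSize i = n := by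
  have h := Fintype.card_congr c.equivSigma
  simpa [Fintype.card_sigma] using h

/-- The partition into singletons is the only one with `n` parts. -/
lemma eq_atomic {n : ℕ} (c : OrderedFinpartition n) (h : c.length = n) : c = OrderedFinpartition.atomic n := by
  have hs := sum_partSize c
  have h2 : ∀ i, c.partSize i = 1 := by
    by_contra hcon
    push Not at hcon
    obtain ⟨i, hi⟩ := hcon
    have h3 : ∑ i : Fin c.length, 1 < ∑ i, c.partSize i := by
      refine Finset.sum_lt_sum (fun j _ => c.partSize_pos j) ⟨i, Finset.mem_univ _, ?_⟩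
      have := c.partSize_pos i
      omega
    simp at h3
    omega
  rcases c with ⟨length, partSize, hpos, emb, hmono, hparts, hdisj, hcover⟩
  dsimp only at h h2
  subst h
  obtain rfl : partSize = fun _ => 1 := funext h2
  have hid : ∀ m, emb m 0 = m := by
    have hf : StrictMono (fun m => emb m 0) := hparts
    intro m
    exact le_antisymm hf.apply_le hf.le_apply
  have hemb : emb = fun m _ => m := by
    funext m j
    rw [Subsingleton.elim j 0, hid m]
  subst hemb
  rfl

/-- Otherwise one part has at least two elements. -/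
lemma exists_two {n : ℕ} (c : OrderedFinpartition n) (h : c.length ≠ n) : ∃ i, 2 ≤ c.partSize i := by
  by_contra hcon
  push Not at hcon
  have h1 : ∀ i, c.partSize i = 1 := by
    intro i
    have h2 := hcon i
    have h3 := c.partSize_pos i
    omega
  have hs := sum_partSize c
  simp [h1] at hs
  exact h hs

/-- If there are two parts, all parts have less than `n` elements. -/
lemma partSize_lt {n : ℕ} (c : OrderedFinpartition n) (h : 2 ≤ c.length) (i : Fin c.length) : c.partSize i < n := by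
  have hs := sum_partSize c
  rw [← Finset.add_sum_erase _ _ (Finset.mem_univ i)] at hs
  have h1 : ∑ j ∈ Finset.univ.erase i, 1 ≤ ∑ j ∈ Finset.univ.erase i, c.partSize j :=
    Finset.sum_le_sum (fun j _ => c.partSize_pos j)
  have h2 : (Finset.univ.erase i).card = c.length - 1 := by
    rw [Finset.card_erase_of_mem (Finset.mem_univ i), Finset.card_univ, Fintype.card_fin]
  rw [Finset.sum_const, h2, smul_eq_mul, mul_one] at h1
  omega

/-- `(1 + hB)^k ≤ 1 + h(1+B)^k` for `h ≤ 1`. -/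
lemma pow_bound (h B : ℝ) (h0 : 0 ≤ h) (h1 : h ≤ 1) (hB : 0 ≤ B) (k : ℕ) : (1 + h * B) ^ k ≤ 1 + h * ((1 + B) ^ k - 1) := by
  induction k with
  | zero => simp
  | succ k ih =>
    have h2 : (1 : ℝ) ≤ (1 + B) ^ k := one_le_pow₀ (by linarith)
    set X := (1 + B) ^ k with hX
    calc (1 + h * B) ^ (k + 1) = (1 + h * B) ^ k * (1 + h * B) := pow_succ _ _
      _ ≤ (1 + h * (X - 1)) * (1 + h * B) := mul_le_mul_of_nonneg_right ih (by positivity)
      _ ≤ 1 + h * ((1 + B) ^ (k + 1) - 1) := by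
        rw [pow_succ, ← hX]
        have h3 : 0 ≤ h * B * ((X - 1) * (1 - h)) :=
          mul_nonneg (mul_nonneg h0 hB) (mul_nonneg (by linarith) (by linarith))
        nlinarith

/-- The derivatives of the identity of order at least two vanish. -/
lemma iteratedFDeriv_id' (j : ℕ) (hj : 2 ≤ j) (x : E) : iteratedFDeriv ℝ j (fun y : E => y) x = 0 := by
  obtain ⟨m, rfl⟩ : ∃ m, j = m + 2 := ⟨j - 2, by omega⟩
  rw [← norm_eq_zero, ← norm_iteratedFDeriv_fderiv]
  have h1 : fderiv ℝ (fun y : E => y) = fun _ => ContinuousLinearMap.id ℝ E := by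
    funext y
    exact fderiv_fun_id
  rw [h1, iteratedFDeriv_succ_const]
  simp

/-- First derivative of `φ = id - h u`. -/
lemma phi_one (h B : ℝ) (h0 : 0 ≤ h) (u : E → E) (hu : ContDiff ℝ ∞ u) (x : E) (hB : ‖iteratedFDeriv ℝ 1 u x‖ ≤ B) :
    ‖iteratedFDeriv ℝ 1 (fun y => y - h • u y) x‖ ≤ 1 + h * B := by
  rw [norm_iteratedFDeriv_one] at hB ⊢
  have hd : DifferentiableAt ℝ u x := (hu.differentiable (by simp)) x
  have h1 : fderiv ℝ (fun y => y - h • u y) x = ContinuousLinearMap.id ℝ E - h • fderiv ℝ u x := by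
    exact ((hasFDerivAt_id x).sub (hd.hasFDerivAt.const_smul h)).fderiv
  rw [h1]
  refine (norm_sub_le _ _).trans (add_le_add ContinuousLinearMap.norm_id_le ?_)
  rw [norm_smul, Real.norm_eq_abs, abs_of_nonneg h0]
  exact mul_le_mul_of_nonneg_left hB h0

/-- Higher derivatives of `φ = id - h u`. -/
lemma phi_higher (h B : ℝ) (h0 : 0 ≤ h) (u : E → E) (hu : ContDiff ℝ ∞ u) (x : E) (j : ℕ) (hj : 2 ≤ j)
    (hB : ‖iteratedFDeriv ℝ j u x‖ ≤ B) : ‖iteratedFDeriv ℝ j (fun y => y - h • u y) x‖ ≤ h * B := by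
  have hu' : ContDiffAt ℝ j u x := (hu.of_le (by exact_mod_cast le_top)).contDiffAt
  have h1 : iteratedFDeriv ℝ j (fun y => y - h • u y) x = iteratedFDeriv ℝ j (fun y : E => y) x -
      iteratedFDeriv ℝ j (fun y => h • u y) x :=
    fun_iteratedFDeriv_sub_apply contDiffAt_id (hu'.const_smul h)
  rw [h1, iteratedFDeriv_id' j hj, zero_sub, norm_neg, iteratedFDeriv_const_smul_apply' hu', norm_smul, Real.norm_eq_abs,
    abs_of_nonneg h0]
  exact mul_le_mul_of_nonneg_left hB h0

end FDBM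

open FDBM

theorem specFDB : SpecFDB := by
  intro k hk B hB
  set N : ℕ := Fintype.card (OrderedFinpartition k) with hN
  set P : ℝ := (1 + B) ^ k with hP
  have hP1 : 1 ≤ P := one_le_pow₀ (by linarith)
  refine ⟨P + N * (B + B ^ 2 * P), by positivity, ?_⟩
  intro h A A' h0 h1 hA hA' f u hf hu hlow hfk huk x
  set φ : E → E := fun y => y - h • u y with hφ
  have hφs : ContDiff ℝ ∞ φ := contDiff_id.sub (hu.const_smul h)
  have hcomp : iteratedFDeriv ℝ k (fun x => f (x - h • u x)) x =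
      (ftaylorSeries ℝ f (φ x)).taylorComp (ftaylorSeries ℝ φ x) k :=
    iteratedFDeriv_comp (n := ∞) (g := f) (f := φ) hf.contDiffAt hφs.contDiffAt (by exact_mod_cast le_top)
  rw [hcomp]
  -- the factors
  have hone : ‖iteratedFDeriv ℝ 1 φ x‖ ≤ 1 + h * B :=
    phi_one h B h0 u hu x ((hlow 1 le_rfl (by omega)).2 x)
  have hone' : ‖iteratedFDeriv ℝ 1 φ x‖ ≤ 1 + B := hone.trans (by nlinarith)
  have hhigh : ∀ j, 2 ≤ j → j < k → ‖iteratedFDeriv ℝ j φ x‖ ≤ h * B := fun j hj hjk =>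
    phi_higher h B h0 u hu x j hj ((hlow j (by omega) hjk).2 x)
  have hall : ∀ j, 1 ≤ j → j < k → ‖iteratedFDeriv ℝ j φ x‖ ≤ 1 + B := by
    intro j hj hjk
    rcases eq_or_lt_of_le hj with h3 | h3
    · rw [← h3]; exact hone'
    · exact (hhigh j h3 hjk).trans (by nlinarith)
  -- one term
  have hterm : ∀ c : OrderedFinpartition k, c ≠ OrderedFinpartition.atomic k →
      ‖(ftaylorSeries ℝ f (φ x)).compAlongOrderedFinpartition (ftaylorSeries ℝ φ x) c‖ ≤ h * (B * A' + B ^ 2 * P) := by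
    intro c hc
    have hlen : c.length ≠ k := fun hh => hc (eq_atomic c hh)
    have hlen' : c.length < k := lt_of_le_of_ne c.length_le hlen
    have hlpos : 0 < c.length := c.length_pos (by omega)
    refine (OrderedFinpartition.norm_compAlongOrderedFinpartition_le c _ _).trans ?_
    have hfl : ‖ftaylorSeries ℝ f (φ x) c.length‖ ≤ B := (hlow c.length hlpos hlen').1 (φ x)
    obtain ⟨i, hi⟩ := exists_two c hlen
    rcases Nat.lt_or_ge 1 c.length with hl | hl
    · -- at least two parts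
      have hlt : ∀ j, c.partSize j < k := partSize_lt c hl
      have hprod : ∏ j, ‖ftaylorSeries ℝ φ x (c.partSize j)‖ ≤ h * B * P := by
        rw [← Finset.mul_prod_erase _ _ (Finset.mem_univ i)]
        refine mul_le_mul (hhigh _ hi (hlt i)) ?_ (Finset.prod_nonneg (fun _ _ => norm_nonneg _)) (by positivity)
        calc ∏ j ∈ Finset.univ.erase i, ‖ftaylorSeries ℝ φ x (c.partSize j)‖
            ≤ ∏ j ∈ Finset.univ.erase i, (1 + B) :=
              Finset.prod_le_prod (fun _ _ => norm_nonneg _) (fun j _ => hall _ (c.partSize_pos j) (hlt j))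
          _ = (1 + B) ^ (Finset.univ.erase i).card := by rw [Finset.prod_const]
          _ ≤ P := by
            refine pow_le_pow_right₀ (by linarith) ?_
            rw [Finset.card_erase_of_mem (Finset.mem_univ i), Finset.card_univ, Fintype.card_fin]
            omega
      calc ‖ftaylorSeries ℝ f (φ x) c.length‖ * ∏ j, ‖ftaylorSeries ℝ φ x (c.partSize j)‖
          ≤ B * (h * B * P) := mul_le_mul hfl hprod (Finset.prod_nonneg (fun _ _ => norm_nonneg _)) hB
        _ = h * (B ^ 2 * P) := by ring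
        _ ≤ h * (B * A' + B ^ 2 * P) := by
          refine mul_le_mul_of_nonneg_left ?_ h0
          have : 0 ≤ B * A' := mul_nonneg hB hA'
          linarith
    · -- one part
      have hl1 : c.length = 1 := by omega
      have hsub : ∀ j : Fin c.length, j = i := by
        intro j
        apply Fin.ext
        have h5 := j.2
        have h6 := i.2
        omega
      have huniv : (Finset.univ : Finset (Fin c.length)) = {i} := by
        ext j; simp [hsub j]
      have hsize : c.partSize i = k := by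
        have hs := sum_partSize c
        rw [huniv, Finset.sum_singleton] at hs
        exact hs
      have hprod : ∏ j, ‖ftaylorSeries ℝ φ x (c.partSize j)‖ ≤ h * A' := by
        rw [huniv, Finset.prod_singleton]
        show ‖iteratedFDeriv ℝ (c.partSize i) φ x‖ ≤ h * A'
        rw [hsize]
        exact phi_higher h A' h0 u hu x k hk (huk x)
      calc ‖ftaylorSeries ℝ f (φ x) c.length‖ * ∏ j, ‖ftaylorSeries ℝ φ x (c.partSize j)‖
          ≤ B * (h * A') := mul_le_mul hfl hprod (Finset.prod_nonneg (fun _ _ => norm_nonneg _)) hB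
        _ = h * (B * A') := by ring
        _ ≤ h * (B * A' + B ^ 2 * P) := by
          refine mul_le_mul_of_nonneg_left ?_ h0
          have : 0 ≤ B ^ 2 * P := by positivity
          linarith
  -- the main term
  have hmain : ‖(ftaylorSeries ℝ f (φ x)).compAlongOrderedFinpartition (ftaylorSeries ℝ φ x)
      (OrderedFinpartition.atomic k)‖ ≤ A + h * (A * P) := by
    refine (OrderedFinpartition.norm_compAlongOrderedFinpartition_le _ _ _).trans ?_
    have e1 : ∏ j, ‖ftaylorSeries ℝ φ x ((OrderedFinpartition.atomic k).partSize j)‖ ≤ (1 + h * B) ^ k := by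
      calc ∏ j, ‖ftaylorSeries ℝ φ x ((OrderedFinpartition.atomic k).partSize j)‖
          ≤ ∏ _j : Fin (OrderedFinpartition.atomic k).length, (1 + h * B) :=
            Finset.prod_le_prod (fun _ _ => norm_nonneg _) (fun j _ => hone)
        _ = (1 + h * B) ^ k := by
          rw [Finset.prod_const, Finset.card_univ, Fintype.card_fin]
          rfl
    have e2 : ‖ftaylorSeries ℝ f (φ x) (OrderedFinpartition.atomic k).length‖ ≤ A := hfk (φ x)
    have e3 := pow_bound h B h0 h1 hB k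
    rw [← hP] at e3
    calc _ ≤ A * (1 + h * B) ^ k := mul_le_mul e2 e1 (Finset.prod_nonneg (fun _ _ => norm_nonneg _)) hA
      _ ≤ A * (1 + h * (P - 1)) := mul_le_mul_of_nonneg_left e3 hA
      _ ≤ A + h * (A * P) := by
        have : 0 ≤ h * A := mul_nonneg h0 hA
        nlinarith
  -- the sum
  have hsum : ‖(ftaylorSeries ℝ f (φ x)).taylorComp (ftaylorSeries ℝ φ x) k‖ ≤
      ∑ c : OrderedFinpartition k, ‖(ftaylorSeries ℝ f (φ x)).compAlongOrderedFinpartition (ftaylorSeries ℝ φ x) c‖ :=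
    norm_sum_le _ _
  refine hsum.trans ?_
  rw [← Finset.add_sum_erase _ _ (Finset.mem_univ (OrderedFinpartition.atomic k))]
  have hrest : ∑ c ∈ Finset.univ.erase (OrderedFinpartition.atomic k),
      ‖(ftaylorSeries ℝ f (φ x)).compAlongOrderedFinpartition (ftaylorSeries ℝ φ x) c‖ ≤
      N * (h * (B * A' + B ^ 2 * P)) := by
    have hQ : 0 ≤ h * (B * A' + B ^ 2 * P) := by positivity
    calc _ ≤ ∑ c ∈ Finset.univ.erase (OrderedFinpartition.atomic k), h * (B * A' + B ^ 2 * P) :=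
          Finset.sum_le_sum (fun c hc => hterm c (Finset.ne_of_mem_erase hc))
      _ = ((Finset.univ.erase (OrderedFinpartition.atomic k)).card : ℝ) * (h * (B * A' + B ^ 2 * P)) := by
          rw [Finset.sum_const, nsmul_eq_mul]
      _ ≤ N * (h * (B * A' + B ^ 2 * P)) := by
          refine mul_le_mul_of_nonneg_right ?_ hQ
          have := Finset.card_le_univ (Finset.univ.erase (OrderedFinpartition.atomic k))
          exact_mod_cast this
  refine (add_le_add hmain hrest).trans ?_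
  have hN0 : (0 : ℝ) ≤ N := Nat.cast_nonneg _
  have key : A * P + N * (B * A' + B ^ 2 * P) ≤ (P + N * (B + B ^ 2 * P)) * (1 + A + A') := by
    have t1 : 0 ≤ P * (1 + A') := by positivity
    have t2 : 0 ≤ N * (B * (1 + A)) := by positivity
    have t3 : 0 ≤ N * (B ^ 2 * P * (A + A')) := by positivity
    nlinarith
  have : h * (A * P) + N * (h * (B * A' + B ^ 2 * P)) = h * (A * P + N * (B * A' + B ^ 2 * P)) := by ring
  calc A + h * (A * P) + N * (h * (B * A' + B ^ 2 * P)) = A + h * (A * P + N * (B * A' + B ^ 2 * P)) := by ring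
    _ ≤ A + h * ((P + N * (B + B ^ 2 * P)) * (1 + A + A')) := by
      have := mul_le_mul_of_nonneg_left key h0
      linarith

end Pool.Agent.Lib.MP96bed6
end
end

section
/-!
# MP_96bed6_an, part W: the transport step, first order estimates
-/
set_option autoImplicit false

open MeasureTheory Filter Topology Set
open scoped ENNReal ContDiff NNReal

noncomputable section

namespace Pool.Agent.Lib.MP96bed6

namespace FDCM

theorem one_norm {W : Type} [NormedAddCommGroup W] [NormedSpace ℝ W] {B : ℝ} {f : E → W} (h : BD 1 B f) (x : E) :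
    ‖fderiv ℝ f x‖ ≤ B := by
  rw [← norm_iteratedFDeriv_one]
  exact h x

theorem two_norm {B : ℝ} {f : E → ℝ} (h : BD 2 B f) (x : E) : ‖fderiv ℝ (fderiv ℝ f) x‖ ≤ B := by
  rw [← norm_iteratedFDeriv_one, norm_iteratedFDeriv_fderiv]
  exact h x

theorem lip {W : Type} [NormedAddCommGroup W] [NormedSpace ℝ W] {B : ℝ} {f : E → W} (hf : Differentiable ℝ f)
    (h : ∀ x, ‖fderiv ℝ f x‖ ≤ B) (x y : E) : ‖f y - f x‖ ≤ B * ‖y - x‖ :=
  convex_univ.norm_image_sub_le_of_norm_fderiv_le (fun z _ => hf z) (fun z _ => h z) (mem_univ x) (mem_univ y)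

theorem taylor {B : ℝ} (hB : 0 ≤ B) {f : E → ℝ} (hf : Differentiable ℝ f) (hf' : Differentiable ℝ (fderiv ℝ f))
    (h : ∀ x, ‖fderiv ℝ (fderiv ℝ f) x‖ ≤ B) (x y : E) :
    ‖f y - f x - fderiv ℝ f x (y - x)‖ ≤ B * ‖y - x‖ * ‖y - x‖ := by
  refine (convex_closedBall x ‖y - x‖).norm_image_sub_le_of_norm_fderiv_le' (fun z _ => hf z) (fun z hz => ?_)
    (Metric.mem_closedBall_self (norm_nonneg _)) ?_
  · refine (lip hf' h x z).trans (mul_le_mul_of_nonneg_left ?_ hB)
    rw [Metric.mem_closedBall, dist_eq_norm] at hz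
    exact hz
  · rw [Metric.mem_closedBall, dist_eq_norm]

end FDCM

theorem specFDC : SpecFDC := by
  intro h B hh hB f u hf hu hf1 hf2 hu0 hu1 x
  have hfd : Differentiable ℝ f := hf.differentiable (by simp)
  have hud : Differentiable ℝ u := hu.differentiable (by simp)
  have hfd' : Differentiable ℝ (fderiv ℝ f) := (contDiff_infty_iff_fderiv.1 hf).2.differentiable (by simp)
  have h1 : ∀ y, ‖fderiv ℝ f y‖ ≤ B := FDCM.one_norm hf1
  have h2 : ∀ y, ‖fderiv ℝ (fderiv ℝ f) y‖ ≤ B := FDCM.two_norm hf2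
  have h3 : ∀ y, ‖fderiv ℝ u y‖ ≤ B := FDCM.one_norm hu1
  have h4 : ‖u x‖ ≤ B := by
    have := hu0 x
    rwa [norm_iteratedFDeriv_zero] at this
  have hv : ‖x - h • u x - x‖ ≤ h * B := by
    rw [sub_sub_cancel_left, norm_neg, norm_smul, Real.norm_of_nonneg hh]
    exact mul_le_mul_of_nonneg_left h4 hh
  have hv0 : 0 ≤ ‖x - h • u x - x‖ := norm_nonneg _
  refine ⟨?_, ?_, ?_⟩
  · have := FDCM.lip hfd h1 x (x - h • u x)
    rw [Real.norm_eq_abs] at this
    calc _ ≤ B * ‖x - h • u x - x‖ := this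
      _ ≤ B * (h * B) := mul_le_mul_of_nonneg_left hv hB
      _ = h * B ^ 2 := by ring
  · have := FDCM.taylor hB hfd hfd' h2 x (x - h • u x)
    have e : fderiv ℝ f x (x - h • u x - x) = -(h * fderiv ℝ f x (u x)) := by
      rw [sub_sub_cancel_left, map_neg, map_smul, smul_eq_mul]
    rw [e, sub_neg_eq_add, Real.norm_eq_abs] at this
    calc _ ≤ B * ‖x - h • u x - x‖ * ‖x - h • u x - x‖ := this
      _ ≤ B * (h * B) * (h * B) :=
          mul_le_mul (mul_le_mul_of_nonneg_left hv hB) hv hv0 (mul_nonneg hB (mul_nonneg hh hB))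
      _ = h ^ 2 * B ^ 3 := by ring
  · have hφ : HasFDerivAt (fun x => x - h • u x) (ContinuousLinearMap.id ℝ E - h • fderiv ℝ u x) x :=
      (hasFDerivAt_id x).sub ((hud x).hasFDerivAt.const_smul h)
    have hc : HasFDerivAt (fun x => f (x - h • u x))
        ((fderiv ℝ f (x - h • u x)).comp (ContinuousLinearMap.id ℝ E - h • fderiv ℝ u x)) x :=
      HasFDerivAt.comp x (hfd (x - h • u x)).hasFDerivAt hφ
    rw [hc.fderiv]
    have e : (fderiv ℝ f (x - h • u x)).comp (ContinuousLinearMap.id ℝ E - h • fderiv ℝ u x) - fderiv ℝ f x =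
        (fderiv ℝ f (x - h • u x) - fderiv ℝ f x) - h • (fderiv ℝ f (x - h • u x)).comp (fderiv ℝ u x) := by
      ext v
      simp
      ring
    rw [e]
    have a1 : ‖fderiv ℝ f (x - h • u x) - fderiv ℝ f x‖ ≤ B * (h * B) :=
      (FDCM.lip hfd' h2 x (x - h • u x)).trans (mul_le_mul_of_nonneg_left hv hB)
    have a2 : ‖h • (fderiv ℝ f (x - h • u x)).comp (fderiv ℝ u x)‖ ≤ h * (B * B) := by
      rw [norm_smul, Real.norm_of_nonneg hh]
      refine mul_le_mul_of_nonneg_left ?_ hh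
      refine (ContinuousLinearMap.opNorm_comp_le _ _).trans ?_
      exact mul_le_mul (h1 _) (h3 _) (norm_nonneg _) hB
    calc _ ≤ B * (h * B) + h * (B * B) := (norm_sub_le _ _).trans (add_le_add a1 a2)
      _ = h * (2 * B ^ 2) := by ring

end Pool.Agent.Lib.MP96bed6
end
end

section
/-!
# MP_96bed6_an, part W, module GLS: gluing of smooth solutions
-/
set_option autoImplicit false

open MeasureTheory Filter Topology Set
open scoped ENNReal ContDiff NNReal

noncomputable section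

namespace Pool.Agent.Lib.MP96bed6

/-- GLS: gluing. -/
theorem specGLS : SpecGLS := by
  intro g α κ T' T'' t₁ θ₀ θ η h0 h1 h2 hθ hη hag
  set θ' : ℝ → E → ℝ := fun s => if s < T' then θ s else η (s - t₁) with hθ'
  have A1 : ∀ s, s < T' → θ' s = θ s := fun s hs => by simp only [hθ', if_pos hs]
  have A2 : ∀ s, t₁ ≤ s → θ' s = η (s - t₁) := by
    intro s hs
    by_cases hs' : s < T'
    · rw [A1 s hs', hag (s - t₁) ⟨by linarith, by linarith⟩]
      congr 1
      ring
    · simp only [hθ', if_neg hs']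
  have hT0 : 0 < T' := lt_of_le_of_lt h0 h1
  have E1 : ∀ t, t < T' → ∀ᶠ s in 𝓝 t, θ' s = θ s := by
    intro t ht
    filter_upwards [Iio_mem_nhds ht] with s hs
    exact A1 s hs
  have E2 : ∀ t, t₁ < t → ∀ᶠ s in 𝓝 t, θ' s = η (s - t₁) := by
    intro t ht
    filter_upwards [Ioi_mem_nhds ht] with s hs
    exact A2 s (le_of_lt hs)
  refine ⟨⟨?_, ?_, ?_, ?_, ?_, ?_⟩, ?_, ?_⟩
  · -- init
    rw [A1 0 hT0]
    exact hθ.sol.init
  · -- cont
    intro p hp
    obtain ⟨⟨hp0, hp1⟩, -⟩ := hp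
    by_cases hpT : p.1 < T'
    · have c1 := hθ.sol.cont p ⟨⟨hp0, hpT⟩, mem_univ _⟩
      have hopen : IsOpen {q : ℝ × E | q.1 < T'} := isOpen_lt continuous_fst continuous_const
      have c2 : ContinuousWithinAt (fun p : ℝ × E => θ p.1 p.2) (Ico 0 (t₁ + T'') ×ˢ univ) p := by
        refine c1.mono_of_mem_nhdsWithin ?_
        refine mem_nhdsWithin.mpr ⟨_, hopen, hpT, ?_⟩
        rintro q ⟨hq1, ⟨hq2, -⟩, -⟩
        exact ⟨⟨hq2, hq1⟩, mem_univ _⟩
      refine c2.congr_of_eventuallyEq ?_ ?_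
      · have : {q : ℝ × E | q.1 < T'} ∈ 𝓝[Ico 0 (t₁ + T'') ×ˢ univ] p :=
          mem_nhdsWithin_of_mem_nhds (hopen.mem_nhds hpT)
        filter_upwards [this] with q hq
        show θ' q.1 q.2 = θ q.1 q.2
        rw [A1 q.1 hq]
      · show θ' p.1 p.2 = θ p.1 p.2
        rw [A1 p.1 hpT]
    · have hpt : t₁ < p.1 := lt_of_lt_of_le h1 (not_lt.mp hpT)
      have c1 := hη.sol.cont (p.1 - t₁, p.2) ⟨⟨by simpa using hpt.le, by simp only; linarith⟩, mem_univ _⟩
      have hopen : IsOpen {q : ℝ × E | t₁ < q.1} := isOpen_lt continuous_const continuous_fst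
      have hcm : Continuous (fun q : ℝ × E => ((q.1 - t₁, q.2) : ℝ × E)) := by fun_prop
      have c2 : ContinuousWithinAt (fun q : ℝ × E => η (q.1 - t₁) q.2)
          ((Ico 0 (t₁ + T'') ×ˢ univ) ∩ {q : ℝ × E | t₁ < q.1}) p := by
        refine ContinuousWithinAt.comp (f := fun q : ℝ × E => ((q.1 - t₁, q.2) : ℝ × E))
          (g := fun q : ℝ × E => η q.1 q.2) c1 hcm.continuousWithinAt ?_
        rintro q ⟨⟨⟨hq1, hq2⟩, -⟩, hq3⟩
        have hq3' : t₁ < q.1 := hq3
        exact ⟨⟨by simp only; linarith, by simp only; linarith⟩, mem_univ _⟩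
      have c3 : ContinuousWithinAt (fun q : ℝ × E => η (q.1 - t₁) q.2) (Ico 0 (t₁ + T'') ×ˢ univ) p := by
        refine c2.mono_of_mem_nhdsWithin ?_
        exact Filter.inter_mem self_mem_nhdsWithin (mem_nhdsWithin_of_mem_nhds (hopen.mem_nhds hpt))
      refine c3.congr_of_eventuallyEq ?_ ?_
      · have : {q : ℝ × E | t₁ < q.1} ∈ 𝓝[Ico 0 (t₁ + T'') ×ˢ univ] p :=
          mem_nhdsWithin_of_mem_nhds (hopen.mem_nhds hpt)
        filter_upwards [this] with q hq
        show θ' q.1 q.2 = η (q.1 - t₁) q.2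
        rw [A2 q.1 (le_of_lt hq)]
      · show θ' p.1 p.2 = η (p.1 - t₁) p.2
        rw [A2 p.1 hpt.le]
  · -- decay
    intro t ht ε hε
    obtain ⟨R₁, hR₁⟩ := hθ.sol.decay t₁ ⟨h0, h1⟩ ε hε
    obtain ⟨R₂, hR₂⟩ := hη.sol.decay (max (t - t₁) 0)
      ⟨le_max_right _ _, max_lt (by linarith [ht.2]) (by linarith)⟩ ε hε
    refine ⟨max R₁ R₂, ?_⟩
    intro s hs x hx
    by_cases hst : s ≤ t₁
    · rw [A1 s (lt_of_le_of_lt hst h1)]
      exact hR₁ s ⟨hs.1, hst⟩ x (le_trans (le_max_left _ _) hx)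
    · rw [A2 s (not_le.mp hst).le]
      exact hR₂ (s - t₁) ⟨by linarith [not_le.mp hst], le_trans (by linarith [hs.2]) (le_max_left _ _)⟩ x
        (le_trans (le_max_right _ _) hx)
  · -- dt
    intro t ht x
    by_cases htT : t < T'
    · refine (hθ.sol.dt t ⟨ht.1, htT⟩ x).congr_of_eventuallyEq ?_
      filter_upwards [E1 t htT] with s hs
      rw [hs]
    · have htt : t₁ < t := lt_of_lt_of_le h1 (not_lt.mp htT)
      have d := hη.sol.dt (t - t₁) ⟨by linarith, by linarith [ht.2]⟩ x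
      have d2 : DifferentiableAt ℝ (fun s => η (s - t₁) x) t :=
        DifferentiableAt.comp (g := fun s => η s x) (f := fun s => s - t₁) t d (by fun_prop)
      refine d2.congr_of_eventuallyEq ?_
      filter_upwards [E2 t htt] with s hs
      rw [hs]
  · -- dx
    intro t ht x
    by_cases htT : t < T'
    · rw [A1 t htT]
      exact hθ.sol.dx t ⟨ht.1, htT⟩ x
    · have htt : t₁ < t := lt_of_lt_of_le h1 (not_lt.mp htT)
      rw [A2 t htt.le]
      exact hη.sol.dx (t - t₁) ⟨by linarith, by linarith [ht.2]⟩ x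
  · -- eqn
    intro t ht x
    by_cases htT : t < T'
    · have hd : deriv (fun s => θ' s x) t = deriv (fun s => θ s x) t := by
        refine Filter.EventuallyEq.deriv_eq ?_
        filter_upwards [E1 t htT] with s hs
        rw [hs]
      rw [hd, A1 t htT]
      exact hθ.sol.eqn t ⟨ht.1, htT⟩ x
    · have htt : t₁ < t := lt_of_lt_of_le h1 (not_lt.mp htT)
      have hd : deriv (fun s => θ' s x) t = deriv (fun s => η s x) (t - t₁) := by
        have e1 : deriv (fun s => θ' s x) t = deriv (fun s => η (s - t₁) x) t := by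
          refine Filter.EventuallyEq.deriv_eq ?_
          filter_upwards [E2 t htt] with s hs
          rw [hs]
        rw [e1]
        exact deriv_comp_sub_const (f := fun s => η s x) t₁ t
      rw [hd, A2 t htt.le]
      exact hη.sol.eqn (t - t₁) ⟨by linarith, by linarith [ht.2]⟩ x
  · -- smooth
    intro t ht
    by_cases htT : t < T'
    · rw [A1 t htT]
      exact hθ.smooth t ⟨ht.1, htT⟩
    · have htt : t₁ < t := lt_of_lt_of_le h1 (not_lt.mp htT)
      rw [A2 t htt.le]
      exact hη.smooth (t - t₁) ⟨by linarith, by linarith [ht.2]⟩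
  · -- bdd
    intro k t ht
    obtain ⟨B₁, hB₁⟩ := hθ.bdd k t₁ ⟨h0, h1⟩
    obtain ⟨B₂, hB₂⟩ := hη.bdd k (max (t - t₁) 0)
      ⟨le_max_right _ _, max_lt (by linarith [ht.2]) (by linarith)⟩
    refine ⟨max B₁ B₂, ?_⟩
    intro s hs x
    by_cases hst : s ≤ t₁
    · rw [A1 s (lt_of_le_of_lt hst h1)]
      exact le_trans (hB₁ s ⟨hs.1, hst⟩ x) (le_max_left _ _)
    · rw [A2 s (not_le.mp hst).le]
      exact le_trans (hB₂ (s - t₁) ⟨by linarith [not_le.mp hst],
        le_trans (by linarith [hs.2]) (le_max_left _ _)⟩ x) (le_max_right _ _)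

end Pool.Agent.Lib.MP96bed6
end
end

section
/-!
# MP_96bed6_an, part W, module GLU: the maximal smooth solution
-/
set_option autoImplicit false

open MeasureTheory Filter Topology Set
open scoped ENNReal ContDiff NNReal

noncomputable section

namespace Pool.Agent.Lib.MP96bed6

/-- GLU: the maximal smooth solution. -/
theorem specGLU (hUNQ : SpecUNQ) : SpecGLU := by
  intro g α κ B θ₀ hg hα0 hα1 hκ hex hB
  set S : Set ℝ := {T' | 0 < T' ∧ ∃ θ : ℝ → E → ℝ, IsSmooth α κ T' (law g) θ₀ θ} with hS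
  have hne : S.Nonempty := by
    obtain ⟨T', θ, h0, h1⟩ := hex
    exact ⟨T', h0, θ, h1⟩
  have hbd : BddAbove S := ⟨B, fun T' hT' => by
    obtain ⟨h0, θ, h1⟩ := hT'
    exact hB T' θ h0 h1⟩
  set Tm : ℝ := sSup S with hTm
  have hTm0 : 0 < Tm := by
    obtain ⟨T', hT'⟩ := hne
    exact lt_of_lt_of_le hT'.1 (le_csSup hbd hT')
  have hTmB : Tm ≤ B := csSup_le hne fun T' hT' => by
    obtain ⟨h0, θ, h1⟩ := hT'
    exact hB T' θ h0 h1
  have hch : ∀ t : ℝ, t < Tm → ∃ p : ℝ × (ℝ → E → ℝ), t < p.1 ∧ IsSmooth α κ p.1 (law g) θ₀ p.2 := by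
    intro t ht
    obtain ⟨T', ⟨-, θ, h1⟩, hlt⟩ := exists_lt_of_lt_csSup hne ht
    exact ⟨(T', θ), hlt, h1⟩
  classical
  set Θ : ℝ → E → ℝ := fun t => if h : t < Tm then (Classical.choose (hch t h)).2 t else fun _ => 0 with hΘ
  have key : ∀ (T' : ℝ) (θ' : ℝ → E → ℝ), IsSmooth α κ T' (law g) θ₀ θ' → T' ≤ Tm →
      ∀ t ∈ Ico (0 : ℝ) T', Θ t = θ' t := by
    intro T' θ' h1 hle t ht
    have htm : t < Tm := lt_of_lt_of_le ht.2 hle
    have hc := Classical.choose_spec (hch t htm)
    have e1 : Θ t = (Classical.choose (hch t htm)).2 t := by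
      simp only [hΘ, dif_pos htm]
    rw [e1]
    exact hUNQ g α κ hg hα0 hα1 hκ _ _ θ₀ _ _ hc.2.sol h1.sol (fun s hs => h1.bdd 1 s hs) t
      ⟨ht.1, lt_min hc.1 ht.2⟩
  have loc : ∀ t : ℝ, 0 ≤ t → t < Tm → ∃ (T' : ℝ) (θ' : ℝ → E → ℝ), t < T' ∧
      IsSmooth α κ T' (law g) θ₀ θ' ∧ ∀ s ∈ Ico (0 : ℝ) T', Θ s = θ' s := by
    intro t ht0 ht
    obtain ⟨p, hp1, hp2⟩ := hch t ht
    refine ⟨p.1, p.2, hp1, hp2, key p.1 p.2 hp2 ?_⟩
    exact le_csSup hbd ⟨lt_of_le_of_lt ht0 hp1, p.2, hp2⟩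
  refine ⟨Tm, Θ, hTm0, hTmB, ⟨⟨?_, ?_, ?_, ?_, ?_, ?_⟩, ?_, ?_⟩, ?_⟩
  · -- init
    obtain ⟨T', θ', h1, h2, h3⟩ := loc 0 le_rfl hTm0
    rw [h3 0 ⟨le_rfl, h1⟩]
    exact h2.sol.init
  · -- cont
    intro p hp
    obtain ⟨⟨hp0, hp1⟩, -⟩ := hp
    obtain ⟨T', θ', h1, h2, h3⟩ := loc p.1 hp0 hp1
    have c1 := h2.sol.cont p ⟨⟨hp0, h1⟩, mem_univ _⟩
    have c2 : ContinuousWithinAt (fun q : ℝ × E => Θ q.1 q.2) (Ico 0 T' ×ˢ univ) p := by
      refine c1.congr ?_ ?_
      · rintro q ⟨hq, -⟩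
        show Θ q.1 q.2 = θ' q.1 q.2
        rw [h3 q.1 hq]
      · show Θ p.1 p.2 = θ' p.1 p.2
        rw [h3 p.1 ⟨hp0, h1⟩]
    refine c2.mono_of_mem_nhdsWithin ?_
    have hopen : IsOpen {q : ℝ × E | q.1 < T'} := isOpen_lt continuous_fst continuous_const
    refine mem_nhdsWithin.mpr ⟨_, hopen, h1, ?_⟩
    rintro q ⟨hq1, ⟨hq2, -⟩, -⟩
    exact ⟨⟨hq2, hq1⟩, mem_univ _⟩
  · -- decay
    intro t ht ε hε
    obtain ⟨T', θ', h1, h2, h3⟩ := loc t ht.1 ht.2
    obtain ⟨R, hR⟩ := h2.sol.decay t ⟨ht.1, h1⟩ ε hε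
    refine ⟨R, fun s hs x hx => ?_⟩
    rw [h3 s ⟨hs.1, lt_of_le_of_lt hs.2 h1⟩]
    exact hR s hs x hx
  · -- dt
    intro t ht x
    obtain ⟨T', θ', h1, h2, h3⟩ := loc t ht.1.le ht.2
    refine (h2.sol.dt t ⟨ht.1, h1⟩ x).congr_of_eventuallyEq ?_
    filter_upwards [Ioo_mem_nhds ht.1 h1] with s hs
    rw [h3 s ⟨hs.1.le, hs.2⟩]
  · -- dx
    intro t ht x
    obtain ⟨T', θ', h1, h2, h3⟩ := loc t ht.1.le ht.2
    rw [h3 t ⟨ht.1.le, h1⟩]
    exact h2.sol.dx t ⟨ht.1, h1⟩ x
  · -- eqn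
    intro t ht x
    obtain ⟨T', θ', h1, h2, h3⟩ := loc t ht.1.le ht.2
    have hd : deriv (fun s => Θ s x) t = deriv (fun s => θ' s x) t := by
      refine Filter.EventuallyEq.deriv_eq ?_
      filter_upwards [Ioo_mem_nhds ht.1 h1] with s hs
      rw [h3 s ⟨hs.1.le, hs.2⟩]
    rw [hd, h3 t ⟨ht.1.le, h1⟩]
    exact h2.sol.eqn t ⟨ht.1, h1⟩ x
  · -- smooth
    intro t ht
    obtain ⟨T', θ', h1, h2, h3⟩ := loc t ht.1 ht.2
    rw [h3 t ⟨ht.1, h1⟩]
    exact h2.smooth t ⟨ht.1, h1⟩
  · -- bdd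
    intro k t ht
    obtain ⟨T', θ', h1, h2, h3⟩ := loc t ht.1 ht.2
    obtain ⟨A, hA⟩ := h2.bdd k t ⟨ht.1, h1⟩
    refine ⟨A, fun s hs => ?_⟩
    rw [h3 s ⟨hs.1, lt_of_le_of_lt hs.2 h1⟩]
    exact hA s hs
  · -- maximality
    intro T' θ' h0 h1
    exact le_csSup hbd ⟨h0, θ', h1⟩

end Pool.Agent.Lib.MP96bed6
end
end

section
/-!
# MP_96bed6_an, part W, HOM: high derivatives of smooth homogeneous functions vanish
-/
set_option autoImplicit false

open MeasureTheory Filter Topology Set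
open scoped ENNReal ContDiff NNReal

noncomputable section

namespace Pool.Agent.Lib.MP96bed6

theorem specHOM : SpecHOM := by
  intro F d hF hhom n hn x
  have key : ∀ (r : ℝ), 0 < r → ∀ v : Fin n → E,
      iteratedFDeriv ℝ n F x v = r ^ (n - d) * iteratedFDeriv ℝ n F (r • x) v := by
    intro r hr v
    have h1 : (F ∘ (r • ContinuousLinearMap.id ℝ E)) = fun x => (r ^ d) • F x := by
      funext x
      have := hhom r hr x
      simpa using this
    have h2 := (r • ContinuousLinearMap.id ℝ E).iteratedFDeriv_comp_right hF x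
      (i := n) (by exact_mod_cast le_top)
    rw [h1, iteratedFDeriv_const_smul_apply' (hF.of_le (by exact_mod_cast le_top)).contDiffAt] at h2
    have h3 := congrArg (fun G : ContinuousMultilinearMap ℝ (fun _ : Fin n => E) ℝ => G v) h2
    simp only [smul_apply,
      ContinuousMultilinearMap.compContinuousLinearMap_apply,
      ContinuousLinearMap.id_apply, smul_eq_mul] at h3
    rw [show (fun i => r • v i) = fun i => (fun _ : Fin n => r) i • v i from rfl,
      ContinuousMultilinearMap.map_smul_univ, Finset.prod_const, Finset.card_univ,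
      Fintype.card_fin, smul_eq_mul] at h3
    have h4 : r ^ n = r ^ d * r ^ (n - d) := by
      rw [← pow_add]
      congr 1
      omega
    rw [h4, mul_assoc] at h3
    exact mul_left_cancel₀ (pow_ne_zero d hr.ne') h3
  ext v
  have hc : Continuous fun r : ℝ => r ^ (n - d) * iteratedFDeriv ℝ n F (r • x) v := by
    have h1 : Continuous (iteratedFDeriv ℝ n F) :=
      hF.continuous_iteratedFDeriv (by exact_mod_cast le_top)
    have h2 : Continuous fun r : ℝ => iteratedFDeriv ℝ n F (r • x) :=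
      h1.comp (continuous_id.smul continuous_const)
    have h3 : Continuous fun r : ℝ => iteratedFDeriv ℝ n F (r • x) v :=
      (ContinuousMultilinearMap.apply ℝ (fun _ : Fin n => E) ℝ v).continuous.comp h2
    exact (continuous_pow _).mul h3
  have ht : Tendsto (fun r : ℝ => r ^ (n - d) * iteratedFDeriv ℝ n F (r • x) v) (𝓝[>] 0) (𝓝 0) := by
    have h := (hc.tendsto 0).mono_left (nhdsWithin_le_nhds (s := Ioi 0))
    rwa [zero_pow (by omega), zero_mul] at h
  have ht2 : Tendsto (fun _ : ℝ => iteratedFDeriv ℝ n F x v) (𝓝[>] 0) (𝓝 0) := by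
    refine ht.congr' ?_
    filter_upwards [self_mem_nhdsWithin] with r hr
    exact (key r hr v).symm
  exact tendsto_nhds_unique tendsto_const_nhds ht2

end Pool.Agent.Lib.MP96bed6
end
end

section
/-!
# MP_96bed6_an, part W: the truncated kernel is integrable
-/
set_option autoImplicit false

open MeasureTheory Filter Topology Set
open scoped ENNReal ContDiff NNReal

noncomputable section

namespace Pool.Agent.Lib.MP96bed6

namespace KHIM

theorem kh_nonneg (α h : ℝ) (y : E) : 0 ≤ kh α h y := by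
  unfold kh
  split_ifs
  · positivity
  · exact le_refl 0

theorem kh_le {α h : ℝ} (hh : 0 < h) (y : E) :
    kh α h y ≤ min 1 (h⁻¹ * ‖y‖) / ‖y‖ ^ (2 + 2 * α) := by
  unfold kh
  split_ifs with hy
  · have h1 : 1 ≤ h⁻¹ * ‖y‖ := by
      rw [inv_mul_eq_div, le_div_iff₀ hh]
      linarith
    rw [min_eq_left h1]
  · have : 0 ≤ min 1 (h⁻¹ * ‖y‖) := le_min zero_le_one (by positivity)
    positivity

theorem kh_meas (α h : ℝ) : Measurable (kh α h) := by
  unfold kh
  refine Measurable.ite ?_ ?_ measurable_const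
  · exact measurableSet_le measurable_const measurable_norm
  · exact measurable_const.div (measurable_norm.pow_const _)

end KHIM

theorem specKHI (hINT : SpecINT) : SpecKHI := by
  intro α h hα0 hα1 hh
  obtain ⟨-, hI⟩ := hINT α hα0 hα1
  obtain ⟨hI1, hI2⟩ := hI h⁻¹ (inv_pos.mpr hh)
  have hkI : Integrable (kh α h) := by
    refine hI1.mono' (KHIM.kh_meas α h).aestronglyMeasurable (Filter.Eventually.of_forall fun y => ?_)
    rw [Real.norm_of_nonneg (KHIM.kh_nonneg α h y)]
    exact KHIM.kh_le hh y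
  refine ⟨hkI, KHIM.kh_nonneg α h, ?_, ?_⟩
  · have h1 : (∫ y, kh α h y) ≤ ∫ y : E, min 1 (h⁻¹ * ‖y‖) / ‖y‖ ^ (2 + 2 * α) :=
      integral_mono hkI hI1 (fun y => KHIM.kh_le hh y)
    rw [hI2] at h1
    have h2 : h * (h⁻¹ ^ (2 * α)) = h ^ (1 - 2 * α) := by
      rw [Real.inv_rpow hh.le, Real.rpow_sub hh, Real.rpow_one, div_eq_mul_inv]
    calc h * (∫ y, kh α h y) ≤ h * (h⁻¹ ^ (2 * α) * PHI α) := mul_le_mul_of_nonneg_left h1 hh.le
      _ = h ^ (1 - 2 * α) * PHI α := by rw [← mul_assoc, h2]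
  · unfold PHI
    refine integral_nonneg fun z => ?_
    have : 0 ≤ min 1 ‖z‖ := le_min zero_le_one (norm_nonneg _)
    positivity

end Pool.Agent.Lib.MP96bed6
end
end

section
/-!
# MP_96bed6_an, W/LHB: bounds for `lapH`
-/
set_option autoImplicit false

open MeasureTheory Filter Topology Set
open scoped ENNReal ContDiff NNReal

noncomputable section

namespace Pool.Agent.Lib.MP96bed6

namespace LHBM

theorem kh_le (α h : ℝ) (y : E) : 0 ≤ kh α h y ∧ kh α h y ≤ 1 / ‖y‖ ^ (2 + 2 * α) := by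
  have h0 : (0 : ℝ) ≤ 1 / ‖y‖ ^ (2 + 2 * α) := by positivity
  unfold kh
  split_ifs with hy
  · exact ⟨h0, le_refl _⟩
  · exact ⟨le_refl _, h0⟩

theorem bound_aux (α h : ℝ) (f : E → ℝ) (x y : E) (c m : ℝ) (hc : 0 ≤ c * m) (hb : |f x - f (x - y)| ≤ c * m) :
    ‖(f x - f (x - y)) * kh α h y‖ ≤ c * (m / ‖y‖ ^ (2 + 2 * α)) := by
  rw [norm_mul, Real.norm_eq_abs, Real.norm_eq_abs, abs_of_nonneg (kh_le α h y).1]
  calc |f x - f (x - y)| * kh α h y ≤ (c * m) * (1 / ‖y‖ ^ (2 + 2 * α)) :=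
        mul_le_mul hb (kh_le α h y).2 (kh_le α h y).1 hc
    _ = c * (m / ‖y‖ ^ (2 + 2 * α)) := by ring

end LHBM

open LHBM in
theorem specLHB (hINT : SpecINT) : SpecLHB := by
  intro α h hα hα2 _
  obtain ⟨hi1, hL⟩ := hINT α hα hα2
  refine ⟨?_, ?_⟩
  · intro f M A _ hM hA hfM hfA x
    have hb : ∀ y : E, ‖(f x - f (x - y)) * kh α h y‖ ≤ (2 * M + A) * (min 1 ‖y‖ / ‖y‖ ^ (2 + 2 * α)) := by
      intro y
      have hm : (0 : ℝ) ≤ min 1 ‖y‖ := le_min zero_le_one (norm_nonneg _)
      apply bound_aux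
      · positivity
      · have h1 : |f x - f (x - y)| ≤ 2 * M := by
          have h2 := hfM x
          have h3 := hfM (x - y)
          have h4 := abs_sub (f x) (f (x - y))
          linarith
        have h2 : |f x - f (x - y)| ≤ A * ‖y‖ := by
          have h3 := hfA x (x - y)
          simpa using h3
        rcases le_total 1 ‖y‖ with hy | hy
        · rw [min_eq_left hy]; linarith
        · rw [min_eq_right hy]
          have : 0 ≤ 2 * M * ‖y‖ := by positivity
          linarith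
    have h1 := norm_integral_le_of_norm_le (hi1.const_mul (2 * M + A)) (Filter.Eventually.of_forall hb)
    rw [integral_const_mul] at h1
    exact h1
  · intro f L hLp hf01 hfL x
    obtain ⟨hi2, he⟩ := hL L hLp
    have hb : ∀ y : E, ‖(f x - f (x - y)) * kh α h y‖ ≤ 1 * (min 1 (L * ‖y‖) / ‖y‖ ^ (2 + 2 * α)) := by
      intro y
      have hm : (0 : ℝ) ≤ min 1 (L * ‖y‖) := le_min zero_le_one (by positivity)
      apply bound_aux
      · linarith
      · rw [one_mul]
        refine le_min ?_ ?_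
        · have h2 := hf01 x
          have h3 := hf01 (x - y)
          rw [abs_le]
          constructor <;> linarith [h2.1, h2.2, h3.1, h3.2]
        · have h3 := hfL x (x - y)
          simpa using h3
    have h1 := norm_integral_le_of_norm_le (hi2.const_mul 1) (Filter.Eventually.of_forall hb)
    rw [integral_const_mul, he, one_mul] at h1
    exact h1

end Pool.Agent.Lib.MP96bed6
end
end

section
/-!
# MP_96bed6_an, W/LHL: linearity of `lapH`
-/
set_option autoImplicit false

open MeasureTheory Filter Topology Set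
open scoped ENNReal ContDiff NNReal

noncomputable section

namespace Pool.Agent.Lib.MP96bed6

namespace LHLM

theorem intg {α h : ℝ} (hk : Integrable (kh α h)) {f : E → ℝ} {M : ℝ} (hf : Continuous f) (hM : ∀ y, |f y| ≤ M) (x : E) :
    Integrable (fun y : E => (f x - f (x - y)) * kh α h y) := by
  have hc : Continuous (fun y : E => f x - f (x - y)) := by fun_prop
  refine hk.bdd_mul (c := 2 * M) hc.aestronglyMeasurable (Filter.Eventually.of_forall fun y => ?_)
  have h2 := hM x
  have h3 := hM (x - y)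
  have h4 := abs_sub (f x) (f (x - y))
  rw [Real.norm_eq_abs]
  linarith

end LHLM

open LHLM in
theorem specLHL (hKHI : SpecKHI) : SpecLHL := by
  intro α h hα hα2 hh f₁ f₂ M hf1 hf2 hM1 hM2 a b x
  obtain ⟨hk, -, -, -⟩ := hKHI α h hα hα2 hh
  have i1 := intg hk hf1 hM1 x
  have i2 := intg hk hf2 hM2 x
  unfold lapH
  rw [← integral_const_mul, ← integral_const_mul, ← integral_add (i1.const_mul a) (i2.const_mul b)]
  congr 1
  funext y
  ring

end Pool.Agent.Lib.MP96bed6
end
end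

section
/-!
# MP_96bed6_an, part W, module LMC: limits along an ultrafilter are smooth
-/
set_option autoImplicit false

open MeasureTheory Filter Topology Set
open scoped ENNReal ContDiff NNReal

noncomputable section

namespace Pool.Agent.Lib.MP96bed6

namespace LMCM

variable {W : Type} [NormedAddCommGroup W] [NormedSpace ℝ W]

lemma taylor (f : E → W) (C : ℝ) (hC : 0 ≤ C) (hf : ContDiff ℝ ∞ f) (hb : BD 2 C f) (x v : E) :
    ‖f (x + v) - f x - fderiv ℝ f x v‖ ≤ C * ‖v‖ ^ 2 := by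
  have hd : Differentiable ℝ f := hf.differentiable (by simp)
  have hf' : ContDiff ℝ ∞ (fderiv ℝ f) := (contDiff_infty_iff_fderiv.mp hf).2
  have hd' : Differentiable ℝ (fderiv ℝ f) := hf'.differentiable (by simp)
  have hlip : ∀ y, ‖fderiv ℝ f y - fderiv ℝ f x‖ ≤ C * ‖y - x‖ := by
    intro y
    refine Convex.norm_image_sub_le_of_norm_fderiv_le (𝕜 := ℝ) (s := univ) (fun z _ => hd' z) ?_
      convex_univ (mem_univ x) (mem_univ y)
    intro z _
    have h1 := hb z
    rw [← norm_iteratedFDeriv_one, norm_iteratedFDeriv_fderiv]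
    exact h1
  have hmain : ‖f (x + v) - f x - fderiv ℝ f x ((x + v) - x)‖ ≤ (C * ‖v‖) * ‖(x + v) - x‖ := by
    refine Convex.norm_image_sub_le_of_norm_hasFDerivWithin_le' (𝕜 := ℝ)
      (s := Metric.closedBall x ‖v‖) (f' := fderiv ℝ f) (fun y _ => (hd y).hasFDerivAt.hasFDerivWithinAt) ?_
      (convex_closedBall x ‖v‖) (Metric.mem_closedBall_self (norm_nonneg v)) (by simp)
    intro y hy
    have h2 : ‖y - x‖ ≤ ‖v‖ := by
      rw [← dist_eq_norm]; exact Metric.mem_closedBall.mp hy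
    exact (hlip y).trans (mul_le_mul_of_nonneg_left h2 hC)
  have h3 : (x + v) - x = v := by abel
  rw [h3] at hmain
  calc ‖f (x + v) - f x - fderiv ℝ f x v‖ ≤ (C * ‖v‖) * ‖v‖ := hmain
    _ = C * ‖v‖ ^ 2 := by ring

lemma stepG [FiniteDimensional ℝ W] (𝒰 : Ultrafilter ℕ) (f : ℕ → E → W) (fl : E → W)
    (hf : ∀ N, ContDiff ℝ ∞ (f N)) (hb : ∀ k : ℕ, ∃ C : ℝ, ∀ N, BD k C (f N))
    (hlim : ∀ x, Tendsto (fun N => f N x) 𝒰 (𝓝 (fl x))) :
    ∃ G : E → (E →L[ℝ] W), (∀ x, Tendsto (fun N => fderiv ℝ (f N) x) 𝒰 (𝓝 (G x))) ∧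
      ∀ x, HasFDerivAt fl (G x) x := by
  obtain ⟨C₁, hC₁⟩ := hb 1
  obtain ⟨C₂, hC₂⟩ := hb 2
  have hC₂0 : 0 ≤ C₂ := (norm_nonneg _).trans (hC₂ 0 0)
  have hex : ∀ x : E, ∃ L : E →L[ℝ] W, Tendsto (fun N => fderiv ℝ (f N) x) 𝒰 (𝓝 L) := by
    intro x
    have : FiniteDimensional ℝ (E →L[ℝ] W) := inferInstance
    have : ProperSpace (E →L[ℝ] W) := FiniteDimensional.proper_real _
    have hcomp : IsCompact (Metric.closedBall (0 : E →L[ℝ] W) C₁) := isCompact_closedBall _ _
    have hmem : Metric.closedBall (0 : E →L[ℝ] W) C₁ ∈ 𝒰.map (fun N => fderiv ℝ (f N) x) := by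
      rw [Ultrafilter.mem_map]
      refine Filter.univ_mem' (f := (𝒰 : Filter ℕ)) ?_
      intro N
      have h1 := hC₁ N x
      rw [norm_iteratedFDeriv_one] at h1
      simpa using h1
    obtain ⟨L, -, hL⟩ := hcomp.ultrafilter_le_nhds' _ hmem
    exact ⟨L, hL⟩
  choose G hG using hex
  refine ⟨G, hG, fun x => ?_⟩
  rw [hasFDerivAt_iff_isLittleO_nhds_zero]
  have hbd : ∀ v : E, ‖fl (x + v) - fl x - G x v‖ ≤ C₂ * ‖v‖ ^ 2 := by
    intro v
    have h1 : Tendsto (fun N => ‖f N (x + v) - f N x - fderiv ℝ (f N) x v‖) 𝒰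
        (𝓝 ‖fl (x + v) - fl x - G x v‖) := by
      refine Tendsto.norm ?_
      refine ((hlim (x + v)).sub (hlim x)).sub ?_
      exact ((ContinuousLinearMap.apply ℝ W v).continuous.tendsto (G x)).comp (hG x)
    exact le_of_tendsto h1 (Eventually.of_forall fun N => taylor (f N) C₂ hC₂0 (hf N) (hC₂ N) x v)
  refine Asymptotics.IsBigO.trans_isLittleO (g := fun v : E => ‖v‖ ^ 2) ?_ ?_
  · refine Asymptotics.IsBigO.of_bound C₂ (Eventually.of_forall fun v => ?_)
    rw [Real.norm_of_nonneg (by positivity)]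
    exact hbd v
  · exact Asymptotics.isLittleO_norm_pow_id one_lt_two

lemma main (m : ℕ) : ∀ (W : Type) [NormedAddCommGroup W] [NormedSpace ℝ W] [FiniteDimensional ℝ W]
    (𝒰 : Ultrafilter ℕ) (f : ℕ → E → W) (fl : E → W),
    (∀ N, ContDiff ℝ ∞ (f N)) → (∀ k : ℕ, ∃ C : ℝ, ∀ N, BD k C (f N)) →
    (∀ x, Tendsto (fun N => f N x) 𝒰 (𝓝 (fl x))) →
    ContDiff ℝ m fl ∧ ∀ k : ℕ, k ≤ m → ∀ C : ℝ, (∀ N, BD k C (f N)) → BD k C fl := by
  induction m with
  | zero =>
    intro W _ _ _ 𝒰 f fl hf hb hlim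
    obtain ⟨G, -, hG⟩ := stepG 𝒰 f fl hf hb hlim
    refine ⟨?_, ?_⟩
    · have : Continuous fl := continuous_iff_continuousAt.mpr fun x => (hG x).continuousAt
      exact_mod_cast contDiff_zero.mpr this
    · intro k hk C hC x
      have hk0 : k = 0 := by omega
      subst hk0
      rw [norm_iteratedFDeriv_zero]
      refine le_of_tendsto (hlim x).norm (Eventually.of_forall fun N => ?_)
      have := hC N x
      rwa [norm_iteratedFDeriv_zero] at this
  | succ m ih =>
    intro W _ _ _ 𝒰 f fl hf hb hlim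
    obtain ⟨G, hGt, hG⟩ := stepG 𝒰 f fl hf hb hlim
    have : FiniteDimensional ℝ (E →L[ℝ] W) := inferInstance
    have hf' : ∀ N, ContDiff ℝ ∞ (fderiv ℝ (f N)) := fun N => (contDiff_infty_iff_fderiv.mp (hf N)).2
    have hb' : ∀ k : ℕ, ∃ C : ℝ, ∀ N, BD k C (fderiv ℝ (f N)) := by
      intro k
      obtain ⟨C, hC⟩ := hb (k + 1)
      refine ⟨C, fun N x => ?_⟩
      rw [norm_iteratedFDeriv_fderiv]
      exact hC N x
    obtain ⟨h1, h2⟩ := ih (E →L[ℝ] W) 𝒰 (fun N => fderiv ℝ (f N)) G hf' hb' hGt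
    have hfd : fderiv ℝ fl = G := funext fun x => (hG x).fderiv
    refine ⟨?_, ?_⟩
    · rw [show ((m + 1 : ℕ) : WithTop ℕ∞) = (m : WithTop ℕ∞) + 1 by push_cast; rfl]
      rw [contDiff_succ_iff_fderiv]
      refine ⟨fun x => (hG x).differentiableAt, ?_, by rw [hfd]; exact h1⟩
      intro h
      exact absurd h (by simp)
    · intro k hk C hC
      cases k with
      | zero =>
        intro x
        rw [norm_iteratedFDeriv_zero]
        refine le_of_tendsto (hlim x).norm (Eventually.of_forall fun N => ?_)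
        have := hC N x
        rwa [norm_iteratedFDeriv_zero] at this
      | succ k =>
        have h3 : BD k C G := by
          refine h2 k (by omega) C fun N x => ?_
          rw [norm_iteratedFDeriv_fderiv]
          exact hC N x
        intro x
        rw [← norm_iteratedFDeriv_fderiv, hfd]
        exact h3 x

end LMCM

theorem specLMC : SpecLMC := by
  intro 𝒰 f fl hf hb hlim
  refine ⟨?_, ?_, ?_⟩
  · rw [contDiff_infty]
    intro n
    exact (LMCM.main n ℝ 𝒰 f fl hf hb hlim).1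
  · intro k C hC
    exact (LMCM.main k ℝ 𝒰 f fl hf hb hlim).2 k le_rfl C hC
  · obtain ⟨G, hGt, hG⟩ := LMCM.stepG 𝒰 f fl hf hb hlim
    intro x v
    rw [(hG x).fderiv]
    exact ((ContinuousLinearMap.apply ℝ ℝ v).continuous.tendsto (G x)).comp (hGt x)

end Pool.Agent.Lib.MP96bed6
end
end

section
/-! # LML: the truncated fractional Laplacians converge -/
set_option autoImplicit false

open MeasureTheory Filter Topology Set
open scoped ENNReal ContDiff NNReal

noncomputable section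

namespace Pool.Agent.Lib.MP96bed6

namespace LMLM

theorem cont_of_lip {u : E → ℝ} {A : ℝ} (h : ∀ y z, |u y - u z| ≤ A * ‖y - z‖) : Continuous u := by
  have : LipschitzWith A.toNNReal u := by
    refine LipschitzWith.of_dist_le_mul fun y z => ?_
    rw [Real.dist_eq, dist_eq_norm]
    refine (h y z).trans (mul_le_mul_of_nonneg_right ?_ (norm_nonneg _))
    exact Real.le_coe_toNNReal A
  exact this.continuous

theorem diff_bd {u : E → ℝ} {M A : ℝ} (hA : 0 ≤ A) (hM : ∀ y, |u y| ≤ M)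
    (h : ∀ y z, |u y - u z| ≤ A * ‖y - z‖) (x y : E) :
    |u x - u (x - y)| ≤ (2 * M + A) * min 1 ‖y‖ := by
  have hM0 : 0 ≤ M := (abs_nonneg _).trans (hM 0)
  rcases le_total 1 ‖y‖ with h1 | h1
  · rw [min_eq_left h1, mul_one]
    have := abs_sub (u x) (u (x - y))
    have h2 := hM x
    have h3 := hM (x - y)
    linarith
  · rw [min_eq_right h1]
    have h2 := h x (x - y)
    rw [sub_sub_cancel] at h2
    have : 0 ≤ 2 * M * ‖y‖ := by positivity
    linarith

theorem measurable_pow (α : ℝ) : Measurable (fun y : E => ‖y‖ ^ (2 + 2 * α)) :=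
  measurable_norm.pow_const _

theorem measurable_kh (α h : ℝ) : Measurable (kh α h) := by
  unfold kh
  exact Measurable.ite (measurableSet_le measurable_const measurable_norm)
    (measurable_const.div (measurable_pow α)) measurable_const

theorem kh_le (α h : ℝ) (y : E) : kh α h y ≤ 1 / ‖y‖ ^ (2 + 2 * α) := by
  unfold kh
  split_ifs
  · exact le_rfl
  · positivity

theorem kh_nonneg (α h : ℝ) (y : E) : 0 ≤ kh α h y := by
  unfold kh
  split_ifs
  · positivity
  · exact le_rfl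

/-- the annuli -/
def ann (n : ℕ) : Set E := {y | 1 / ((n : ℝ) + 1) ≤ ‖y‖ ∧ ‖y‖ ≤ (n : ℝ) + 1}

theorem measurableSet_ann (n : ℕ) : MeasurableSet (ann n) :=
  (measurableSet_le measurable_const measurable_norm).inter
    (measurableSet_le measurable_norm measurable_const)

theorem eventually_ann {y : E} (hy : y ≠ 0) : ∀ᶠ n in atTop, y ∈ ann n := by
  have hr : 0 < ‖y‖ := norm_pos_iff.2 hy
  obtain ⟨n₁, h₁⟩ := exists_nat_gt (1 / ‖y‖)
  obtain ⟨n₂, h₂⟩ := exists_nat_gt ‖y‖
  refine eventually_atTop.2 ⟨max n₁ n₂, fun n hn => ?_⟩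
  have e1 : (n₁ : ℝ) ≤ n := by exact_mod_cast (le_max_left _ _).trans hn
  have e2 : (n₂ : ℝ) ≤ n := by exact_mod_cast (le_max_right _ _).trans hn
  constructor
  · rw [div_le_iff₀ (by positivity)]
    rw [div_lt_iff₀ hr] at h₁
    nlinarith
  · linarith

theorem small_out {D : E → ℝ} (hD : Integrable D) {ε : ℝ} (hε : 0 < ε) :
    ∃ n : ℕ, ∫ y, (ann n)ᶜ.indicator D y < ε := by
  have h : Tendsto (fun n : ℕ => ∫ y, (ann n)ᶜ.indicator D y) atTop (𝓝 (∫ _y : E, (0 : ℝ))) := by
    refine tendsto_integral_of_dominated_convergence (fun y => ‖D y‖) ?_ hD.norm ?_ ?_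
    · intro n
      exact hD.aestronglyMeasurable.indicator (measurableSet_ann n).compl
    · intro n
      exact Eventually.of_forall fun y => norm_indicator_le_norm_self _ _
    · have h0 : ∀ᵐ y : E, y ≠ 0 := by
        rw [ae_iff]
        simp
      filter_upwards [h0] with y hy
      refine tendsto_const_nhds.congr' ?_
      filter_upwards [eventually_ann hy] with n hn
      rw [indicator_of_notMem]
      simpa using hn
  rw [integral_zero] at h
  exact (h.eventually (gt_mem_nhds hε)).exists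

end LMLM

open LMLM in
theorem specLML (hUNI : SpecUNI) (hINT : SpecINT) : SpecLML := by
  intro α hα hα2 𝒰 h f fl M A hh hh0 hM hA hlim x
  obtain ⟨hflA, huni⟩ := hUNI 𝒰 f fl A hA hlim
  obtain ⟨hI, -⟩ := hINT α hα hα2
  have hA0 : 0 ≤ A := by
    have h1 := (abs_nonneg _).trans (hA 0 e0 0)
    have h2 : ‖e0 - 0‖ = 1 := by simp [e0]
    rwa [h2, mul_one] at h1
  have hM0 : 0 ≤ M := (abs_nonneg _).trans (hM 0 0)
  have hflM : ∀ y, |fl y| ≤ M := fun y =>
    le_of_tendsto (hlim y).abs (Eventually.of_forall fun N => hM N y)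
  have hcf : ∀ N, Continuous (f N) := fun N => cont_of_lip (hA N)
  have hcfl : Continuous fl := cont_of_lip hflA
  -- the dominating function
  obtain ⟨D, hD⟩ : ∃ D : E → ℝ, D = fun y => (2 * M + A) * (min 1 ‖y‖ / ‖y‖ ^ (2 + 2 * α)) := ⟨_, rfl⟩
  have hDi : Integrable D := by
    rw [hD]
    exact hI.const_mul _
  have hD0 : ∀ y, 0 ≤ D y := fun y => by
    rw [hD]
    positivity
  -- the substitution
  obtain ⟨F, hF⟩ : ∃ F : E → ℝ, F = fun y => (fl x - fl (x - y)) / ‖y‖ ^ (2 + 2 * α) := ⟨_, rfl⟩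
  have hfr : fracLap α fl x = ∫ y, F y := by
    unfold fracLap
    rw [← integral_sub_left_eq_self (fun y => (fl x - fl y) / ‖x - y‖ ^ (2 + 2 * α)) volume x, hF]
    simp only [sub_sub_cancel]
  have hFm : Measurable F := by
    rw [hF]
    exact (measurable_const.sub (hcfl.measurable.comp (measurable_const.sub measurable_id))).div
      (measurable_pow α)
  have hFD : ∀ y, |F y| ≤ D y := fun y => by
    rw [hF, hD]
    simp only
    rw [abs_div, abs_of_nonneg (a := ‖y‖ ^ (2 + 2 * α)) (by positivity), ← mul_div_assoc]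
    exact div_le_div_of_nonneg_right (diff_bd hA0 hflM hflA x y) (by positivity)
  have hFi : Integrable F := hDi.mono' hFm.aestronglyMeasurable (Eventually.of_forall fun y => hFD y)
  obtain ⟨G, hG⟩ : ∃ G : ℕ → E → ℝ, G = fun N y => (f N x - f N (x - y)) * kh α (h N) y := ⟨_, rfl⟩
  have hlap : ∀ N, lapH α (h N) (f N) x = ∫ y, G N y := fun N => by rw [hG]; rfl
  have hGm : ∀ N, Measurable (G N) := fun N => by
    rw [hG]
    exact (measurable_const.sub ((hcf N).measurable.comp (measurable_const.sub measurable_id))).mul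
      (measurable_kh α (h N))
  have hGD : ∀ N y, |G N y| ≤ D y := fun N y => by
    rw [hG, hD]
    simp only
    rw [abs_mul, abs_of_nonneg (kh_nonneg α (h N) y), ← mul_div_assoc, div_eq_mul_one_div]
    exact mul_le_mul (diff_bd hA0 (hM N) (hA N) x y) (kh_le α (h N) y) (kh_nonneg α (h N) y)
      (by positivity)
  have hGi : ∀ N, Integrable (G N) := fun N =>
    hDi.mono' (hGm N).aestronglyMeasurable (Eventually.of_forall fun y => hGD N y)
  rw [hfr]
  simp only [hlap]
  rw [Metric.tendsto_nhds]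
  intro ε hε
  obtain ⟨n, hn⟩ := small_out (hDi.const_mul 2) (half_pos hε)
  obtain ⟨R, hR⟩ : ∃ R : ℝ, R = (n : ℝ) + 1 := ⟨_, rfl⟩
  have hR0 : 0 < R := by rw [hR]; positivity
  obtain ⟨P, hP⟩ : ∃ P : ℝ, P = 1 / (1 / R) ^ (2 + 2 * α) := ⟨_, rfl⟩
  have hP0 : 0 < P := by rw [hP]; positivity
  obtain ⟨V, hV⟩ : ∃ V : ℝ, V = (volume (Metric.closedBall (0 : E) R)).toReal := ⟨_, rfl⟩
  have hV0 : 0 ≤ V := by rw [hV]; exact ENNReal.toReal_nonneg
  obtain ⟨η, hη⟩ : ∃ η : ℝ, η = ε / (4 * P * (V + 1)) := ⟨_, rfl⟩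
  have hη0 : 0 < η := by rw [hη]; positivity
  have hev := huni (‖x‖ + R) η hη0
  have hev2 : ∀ᶠ N in (𝒰 : Filter ℕ), h N < 1 / R := hh0.eventually (gt_mem_nhds (by positivity))
  filter_upwards [hev, hev2] with N h1 h2
  rw [Real.dist_eq, ← integral_sub (hGi N) hFi]
  have hpt : ∀ y, |G N y - F y| ≤ (Metric.closedBall (0 : E) R).indicator (fun _ => 2 * η * P) y +
      (ann n)ᶜ.indicator (fun y => 2 * D y) y := by
    intro y
    by_cases hy : y ∈ ann n
    · have hy' := hy
      obtain ⟨hy1, hy2⟩ := hy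
      rw [← hR] at hy1 hy2
      rw [indicator_of_mem (s := Metric.closedBall (0 : E) R) (by rwa [mem_closedBall_zero_iff]),
        indicator_of_notMem (s := (ann n)ᶜ) (by simpa using hy'), add_zero]
      have hk : kh α (h N) y = 1 / ‖y‖ ^ (2 + 2 * α) := by
        unfold kh
        rw [if_pos (h2.le.trans hy1)]
      have e1 : G N y - F y = ((f N x - fl x) - (f N (x - y) - fl (x - y))) *
          (1 / ‖y‖ ^ (2 + 2 * α)) := by
        rw [hG, hF]
        simp only
        rw [hk]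
        ring
      rw [e1, abs_mul, abs_of_nonneg (a := 1 / ‖y‖ ^ (2 + 2 * α)) (by positivity)]
      have b1 : |f N x - fl x| ≤ η := h1 x (by linarith)
      have b2 : |f N (x - y) - fl (x - y)| ≤ η := h1 (x - y) ((norm_sub_le x y).trans (by linarith))
      have b3 : |(f N x - fl x) - (f N (x - y) - fl (x - y))| ≤ 2 * η :=
        (abs_sub _ _).trans (by linarith)
      have b4 : 1 / ‖y‖ ^ (2 + 2 * α) ≤ P := by
        rw [hP]
        refine one_div_le_one_div_of_le (by positivity) ?_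
        exact Real.rpow_le_rpow (by positivity) hy1 (by linarith)
      exact mul_le_mul b3 b4 (by positivity) (by positivity)
    · rw [indicator_of_mem (s := (ann n)ᶜ) (by simpa using hy)]
      have c1 : 0 ≤ (Metric.closedBall (0 : E) R).indicator (fun _ => 2 * η * P) y :=
        indicator_nonneg (fun _ _ => by positivity) y
      have c2 := (abs_sub (G N y) (F y)).trans (add_le_add (hGD N y) (hFD y))
      linarith
  have hi1 : Integrable ((Metric.closedBall (0 : E) R).indicator (fun _ => 2 * η * P)) :=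
    (integrable_indicator_iff Metric.isClosed_closedBall.measurableSet).2
      (integrableOn_const (measure_closedBall_lt_top).ne)
  have hi2 : Integrable ((ann n)ᶜ.indicator (fun y => 2 * D y)) :=
    (hDi.const_mul 2).indicator (measurableSet_ann n).compl
  have hle : |∫ y, (G N y - F y)| ≤ ∫ y, ((Metric.closedBall (0 : E) R).indicator
      (fun _ => 2 * η * P) y + (ann n)ᶜ.indicator (fun y => 2 * D y) y) := by
    rw [← Real.norm_eq_abs]
    exact norm_integral_le_of_norm_le (hi1.add hi2) (Eventually.of_forall hpt)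
  refine hle.trans_lt ?_
  rw [integral_add hi1 hi2, integral_indicator Metric.isClosed_closedBall.measurableSet,
    setIntegral_const, smul_eq_mul]
  have e2 : (volume : Measure E).real (Metric.closedBall (0 : E) R) * (2 * η * P) < ε / 2 := by
    have : (volume : Measure E).real (Metric.closedBall (0 : E) R) = V := by rw [hV]; rfl
    rw [this, hη]
    have hV1 : 0 < V + 1 := by linarith
    have : V * (2 * (ε / (4 * P * (V + 1))) * P) = (ε / 2) * (V / (V + 1)) := by
      field_simp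
      ring
    rw [this]
    have h3 : V / (V + 1) < 1 := by
      rw [div_lt_one hV1]
      linarith
    have := mul_lt_mul_of_pos_left h3 (half_pos hε)
    linarith
  linarith

end Pool.Agent.Lib.MP96bed6
end
end

section
/-! MP_96bed6_an, part W, module LMR (helper56): the right hand side passes to limits. -/
set_option autoImplicit false

open MeasureTheory Filter Topology Set
open scoped ENNReal ContDiff NNReal

noncomputable section

namespace Pool.Agent.Lib.MP96bed6

namespace LMRM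

lemma norm_fderiv_le {f : E → ℝ} {C : ℝ} (h : BD 1 C f) (x : E) : ‖fderiv ℝ f x‖ ≤ C := by
  have := h x
  rwa [norm_iteratedFDeriv_one] at this

lemma bound {f : E → ℝ} {C : ℝ} (h : BD 0 C f) (x : E) : |f x| ≤ C := by
  have := h x
  rwa [norm_iteratedFDeriv_zero, Real.norm_eq_abs] at this

lemma lip {f : E → ℝ} {C : ℝ} (hf : ContDiff ℝ ∞ f) (h : BD 1 C f) (y z : E) :
    |f y - f z| ≤ C * ‖y - z‖ := by
  have := Convex.norm_image_sub_le_of_norm_fderiv_le (𝕜 := ℝ) (f := f) (C := C) (s := univ)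
    (fun x _ => (hf.differentiable (by simp)) x) (fun x _ => norm_fderiv_le h x) convex_univ
    (mem_univ z) (mem_univ y)
  rwa [Real.norm_eq_abs] at this

end LMRM

open LMRM in
theorem specLMR (hLMC : SpecLMC) (hLMT : SpecLMT) (hLML : SpecLML) : SpecLMR := by
  intro g α κ hg hα hα' 𝒰 h f fl hpos hh hsm hbd hlim x
  obtain ⟨C1, hC1⟩ := hbd 1
  obtain ⟨C0, hC0⟩ := hbd 0
  have hL : ∀ N y z, |f N y - f N z| ≤ C1 * ‖y - z‖ := fun N y z => lip (hsm N) (hC1 N) y z
  have hM : ∀ N y, |f N y| ≤ C0 := fun N y => bound (hC0 N) y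
  obtain ⟨-, -, hD⟩ := hLMC 𝒰 f fl hsm hbd hlim
  have hV := hLMT g hg 𝒰 f fl C1 hL hlim x
  have hLap := hLML α hα hα' 𝒰 h f fl C0 C1 hpos hh hM hL hlim x
  have h1 : Tendsto (fun N => fderiv ℝ (f N) x (vel g (f N) x)) 𝒰 (𝓝 (fderiv ℝ fl x (vel g fl x))) := by
    have h2 : Tendsto (fun N => fderiv ℝ (f N) x (vel g (f N) x - vel g fl x)) 𝒰 (𝓝 0) := by
      have h3 : Tendsto (fun N => C1 * ‖vel g (f N) x - vel g fl x‖) 𝒰 (𝓝 0) := by
        have h4 := (hV.sub_const (vel g fl x)).norm.const_mul C1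
        rwa [sub_self, norm_zero, mul_zero] at h4
      apply squeeze_zero_norm _ h3
      intro N
      exact (ContinuousLinearMap.le_opNorm _ _).trans
        (mul_le_mul_of_nonneg_right (norm_fderiv_le (hC1 N) x) (norm_nonneg _))
    have h5 := h2.add (hD x (vel g fl x))
    rw [zero_add] at h5
    refine h5.congr ?_
    intro N
    rw [map_sub, sub_add_cancel]
  have h6 := h1.add (hLap.const_mul κ)
  refine h6.congr ?_
  intro N
  rfl

end Pool.Agent.Lib.MP96bed6
end
end

section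
/-! MP_96bed6_an, part W, module LMT (helper56): the velocity passes to limits along an ultrafilter. -/
set_option autoImplicit false

open MeasureTheory Filter Topology Set
open scoped ENNReal ContDiff NNReal

noncomputable section

namespace Pool.Agent.Lib.MP96bed6

namespace LMTM

lemma cont_of_lip {f : E → ℝ} {A : ℝ} (h : ∀ y z, |f y - f z| ≤ A * ‖y - z‖) : Continuous f := by
  rw [Metric.continuous_iff]
  intro b ε hε
  refine ⟨ε / (|A| + 1), by positivity, ?_⟩
  intro a hab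
  rw [Real.dist_eq]
  rw [dist_eq_norm] at hab
  calc |f a - f b| ≤ A * ‖a - b‖ := h a b
    _ ≤ (|A| + 1) * ‖a - b‖ := by
        apply mul_le_mul_of_nonneg_right _ (norm_nonneg _)
        linarith [le_abs_self A]
    _ < (|A| + 1) * (ε / (|A| + 1)) := by
        apply mul_lt_mul_of_pos_left hab (by positivity)
    _ = ε := by field_simp

lemma samp_tendsto {𝒰 : Ultrafilter ℕ} {f : ℕ → E → ℝ} {fl : E → ℝ} (hfc : ∀ N, Continuous (f N))
    (hflc : Continuous fl)
    (hball : ∀ R ε : ℝ, 0 < ε → ∀ᶠ N in (𝒰 : Filter ℕ), ∀ y : E, ‖y‖ ≤ R → |f N y - fl y| ≤ ε)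
    (k : E → ℝ) (hk : Continuous k) (hkc : HasCompactSupport k) (r : ℝ) :
    Tendsto (fun N => samp k (f N) r) 𝒰 (𝓝 (samp k fl r)) := by
  obtain ⟨R, hR⟩ := hkc.isCompact.isBounded.exists_norm_le
  have hR' : ∀ z, k z ≠ 0 → ‖z‖ ≤ R := fun z hz => hR z (subset_tsupport _ hz)
  have hint : ∀ φ : E → ℝ, Continuous φ → Integrable (fun z : E => φ (r • z) * k z) := by
    intro φ hφ
    apply Continuous.integrable_of_hasCompactSupport
    · exact (hφ.comp (continuous_const_smul r)).mul hk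
    · exact hkc.mul_left
  have hkint : Integrable (fun z : E => |k z|) := (hk.integrable_of_hasCompactSupport hkc).abs
  have hI : 0 ≤ ∫ z : E, |k z| := integral_nonneg fun z => abs_nonneg _
  rw [Metric.tendsto_nhds]
  intro ε hε
  set I := ∫ z : E, |k z| with hIdef
  filter_upwards [hball (|r| * R) (ε / (I + 1)) (by positivity)] with N hN
  rw [Real.dist_eq]
  unfold samp
  rw [← integral_sub (hint _ (hfc N)) (hint _ hflc)]
  calc |∫ z : E, (f N (r • z) * k z - fl (r • z) * k z)|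
      ≤ ∫ z : E, |f N (r • z) * k z - fl (r • z) * k z| := abs_integral_le_integral_abs
    _ ≤ ∫ z : E, ε / (I + 1) * |k z| := by
        apply integral_mono_of_nonneg
        · exact Filter.Eventually.of_forall fun z => abs_nonneg _
        · exact hkint.const_mul _
        · apply Filter.Eventually.of_forall
          intro z
          show |f N (r • z) * k z - fl (r • z) * k z| ≤ ε / (I + 1) * |k z|
          rw [← sub_mul, abs_mul]
          by_cases hz : k z = 0
          · rw [hz, abs_zero, mul_zero, mul_zero]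
          · apply mul_le_mul_of_nonneg_right _ (abs_nonneg _)
            apply hN
            rw [norm_smul, Real.norm_eq_abs]
            exact mul_le_mul_of_nonneg_left (hR' z hz) (abs_nonneg _)
    _ = ε / (I + 1) * I := by rw [integral_const_mul]
    _ < ε := by
        rw [div_mul_eq_mul_div, div_lt_iff₀ (by positivity)]
        nlinarith

lemma U_eq (C D : ℝ) (x : E) : U C D x = C • U 1 0 x + D • U 0 1 x := by
  unfold U
  ext i
  fin_cases i
  · simp
    ring
  · simp
    ring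

end LMTM

open LMTM in
theorem specLMT (hUNI : SpecUNI) (hVEL : SpecVEL) (hSUPP : SpecSUPP) : SpecLMT := by
  intro g hg 𝒰 f fl A hf hlim x
  obtain ⟨hfl, hball⟩ := hUNI 𝒰 f fl A hf hlim
  have hfc : ∀ N, Continuous (f N) := fun N => cont_of_lip (hf N)
  have hflc : Continuous fl := cont_of_lip hfl
  obtain ⟨-, hk1, hk2, -, -, -, -, -, -, h6, -⟩ := hSUPP g hg
  by_cases hx : x = 0
  · subst hx
    rw [(hVEL g fl hg hflc).1]
    have : (fun N => vel g (f N) (0 : E)) = fun _ => (0 : E) := by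
      funext N
      exact (hVEL g (f N) hg (hfc N)).1
    rw [this]
    exact tendsto_const_nhds
  · rw [(hVEL g fl hg hflc).2 x hx]
    have : (fun N => vel g (f N) x) =
        fun N => U (samp (kern g) (f N) ‖x‖) (samp (gp (kern g)) (f N) ‖x‖) x := by
      funext N
      exact (hVEL g (f N) hg (hfc N)).2 x hx
    rw [this]
    have hgpc : Continuous (gp (kern g)) := by
      unfold gp
      have h1 : Continuous (fun z => fderiv ℝ (kern g) z z) :=
        (hk1.continuous_fderiv (by simp)).clm_apply continuous_id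
      exact (continuous_const.mul hk1.continuous).sub h1
    have hgps : HasCompactSupport (gp (kern g)) := by
      apply HasCompactSupport.intro (isCompact_closedBall (0 : E) 6)
      intro z hz
      by_contra hne
      apply hz
      rw [mem_closedBall_zero_iff]
      exact (h6 z hne).2
    have t1 := samp_tendsto (𝒰 := 𝒰) hfc hflc hball (kern g) hk1.continuous hk2 ‖x‖
    have t2 := samp_tendsto (𝒰 := 𝒰) hfc hflc hball (gp (kern g)) hgpc hgps ‖x‖
    have t3 := (t1.smul_const (U 1 0 x)).add (t2.smul_const (U 0 1 x))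
    rw [← U_eq] at t3
    refine t3.congr ?_
    intro N
    exact (U_eq _ _ x).symm

end Pool.Agent.Lib.MP96bed6
end
end

section
/-!
# MP_96bed6_an, part W: module ST2, one step of the scheme
-/
set_option autoImplicit false

open MeasureTheory Filter Topology Set
open scoped ENNReal ContDiff NNReal

noncomputable section

namespace Pool.Agent.Lib.MP96bed6.ST2M

lemma phi_nonneg (α : ℝ) : 0 ≤ PHI α := by
  unfold PHI
  apply integral_nonneg
  intro z
  exact div_nonneg (le_min zero_le_one (norm_nonneg z)) (Real.rpow_nonneg (norm_nonneg z) _)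

section BDs
variable {W : Type} [NormedAddCommGroup W] [NormedSpace ℝ W]

lemma bd_mono {k : ℕ} {A B : ℝ} {f : E → W} (h : BD k A f) (hAB : A ≤ B) : BD k B f :=
  fun x => (h x).trans hAB

lemma bd0 {A : ℝ} {f : E → W} (h : BD 0 A f) (x : E) : ‖f x‖ ≤ A := by
  have := h x
  rwa [norm_iteratedFDeriv_zero] at this

lemma bd0' {A : ℝ} {f : E → W} (h : ∀ x, ‖f x‖ ≤ A) : BD 0 A f := by
  intro x
  rw [norm_iteratedFDeriv_zero]
  exact h x

lemma bd1 {A : ℝ} {f : E → W} (h : BD 1 A f) (x : E) : ‖fderiv ℝ f x‖ ≤ A := by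
  have := h x
  rwa [norm_iteratedFDeriv_one] at this

lemma bd2 {A : ℝ} {f : E → W} (h : BD 2 A f) (x : E) : ‖fderiv ℝ (fderiv ℝ f) x‖ ≤ A := by
  have h1 := h x
  have h2 : ‖iteratedFDeriv ℝ 1 (fderiv ℝ f) x‖ = ‖iteratedFDeriv ℝ (1 + 1) f x‖ :=
    norm_iteratedFDeriv_fderiv
  rw [norm_iteratedFDeriv_one] at h2
  rw [h2]
  exact h1

lemma lip_of_bound {f : E → W} {A : ℝ} (hf : Differentiable ℝ f) (h : ∀ x, ‖fderiv ℝ f x‖ ≤ A) (y z : E) :
    ‖f y - f z‖ ≤ A * ‖y - z‖ :=
  Convex.norm_image_sub_le_of_norm_fderiv_le (𝕜 := ℝ) (fun x _ => hf x) (fun x _ => h x) convex_univ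
    (mem_univ z) (mem_univ y)

lemma lip1 {f : E → W} {A : ℝ} (hf : ContDiff ℝ (∞ : ℕ∞ω) f) (h : BD 1 A f) (y z : E) :
    ‖f y - f z‖ ≤ A * ‖y - z‖ :=
  lip_of_bound (hf.differentiable (by simp)) (bd1 h) y z

lemma cd_fderiv {f : E → W} (hf : ContDiff ℝ (∞ : ℕ∞ω) f) : ContDiff ℝ (∞ : ℕ∞ω) (fderiv ℝ f) :=
  hf.fderiv_right (m := (∞ : ℕ∞ω)) (by simp)

lemma lip2 {f : E → W} {A : ℝ} (hf : ContDiff ℝ (∞ : ℕ∞ω) f) (h : BD 2 A f) (y z : E) :
    ‖fderiv ℝ f y - fderiv ℝ f z‖ ≤ A * ‖y - z‖ :=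
  lip_of_bound ((cd_fderiv hf).differentiable (by simp)) (bd2 h) y z

end BDs

lemma cd_shift {f : E → ℝ} {u : E → E} (h : ℝ) (hf : ContDiff ℝ (∞ : ℕ∞ω) f) (hu : ContDiff ℝ (∞ : ℕ∞ω) u) :
    ContDiff ℝ (∞ : ℕ∞ω) (fun x => f (x - h • u x)) := by
  have h1 : ContDiff ℝ (∞ : ℕ∞ω) (fun x => h • u x) := ContDiff.smul (f := fun _ => h) contDiff_const hu
  exact hf.comp (contDiff_id.sub h1)

lemma sb_shift (hFDA : SpecFDA) (hFDB : SpecFDB) (hTKB : SpecTKB) (hDIV : SpecDIV) {g : E → ℝ} (hg : IsSampler g)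
    {h : ℝ} (hh : 0 < h) (hh1 : h ≤ 1) {f : E → ℝ} (hf : SB f) : SB (shift g h f) := by
  have hu : ContDiff ℝ (∞ : ℕ∞ω) (vel g f) := (hDIV g f hg hf.1).1
  have hub : ∀ k : ℕ, ∃ A : ℝ, 0 ≤ A ∧ BD k A f ∧ BD k A (vel g f) := by
    intro k
    obtain ⟨A, hA⟩ := hf.2 k
    obtain ⟨K, hK0, hK⟩ := hTKB g hg k
    have h1 : BD k |A| f := bd_mono hA (le_abs_self A)
    have h2 := hK f |A| hf.1 (abs_nonneg A) h1
    have h3 : 0 ≤ K * |A| := mul_nonneg hK0 (abs_nonneg A)
    exact ⟨|A| + K * |A|, add_nonneg (abs_nonneg A) h3, bd_mono h1 (by linarith),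
      bd_mono h2 (by linarith [abs_nonneg A])⟩
  choose A hA0 hAf hAu using hub
  refine ⟨cd_shift h hf.1 hu, ?_⟩
  intro k
  rcases Nat.lt_or_ge k 2 with hk | hk
  · interval_cases k
    · exact ⟨A 0, bd0' (fun x => bd0 (hAf 0) _)⟩
    · exact ⟨_, hFDA h (A 1) (A 1) hh.le (hA0 1) (hA0 1) f (vel g f) hf.1 hu (hAf 1) (hAu 1)⟩
  · have hB : 0 ≤ ∑ j ∈ Finset.range k, A j := Finset.sum_nonneg (fun j _ => hA0 j)
    obtain ⟨C, hC0, hC⟩ := hFDB k hk (∑ j ∈ Finset.range k, A j) hB
    refine ⟨_, hC h (A k) (A k) hh.le hh1 (hA0 k) (hA0 k) f (vel g f) hf.1 hu ?_ (hAf k) (hAu k)⟩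
    intro j _ hj
    have hle : A j ≤ ∑ j ∈ Finset.range k, A j :=
      Finset.single_le_sum (f := A) (fun i _ => hA0 i) (Finset.mem_range.2 hj)
    exact ⟨bd_mono (hAf j) hle, bd_mono (hAu j) hle⟩

end Pool.Agent.Lib.MP96bed6.ST2M

namespace Pool.Agent.Lib.MP96bed6

open ST2M

theorem specST2 (hAHB : SpecAHB) (hFDA : SpecFDA) (hFDB : SpecFDB) (hFDC : SpecFDC) (hTKB : SpecTKB)
    (hDIV : SpecDIV) (hLHB : SpecLHB) (hLHL : SpecLHL) : SpecST2 := by
  intro g α κ hg hα hα' hκ B hB
  obtain ⟨K0, hK0, hT0⟩ := hTKB g hg 0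
  obtain ⟨K1, hK1, hT1⟩ := hTKB g hg 1
  obtain ⟨K2, hK2, hT2⟩ := hTKB g hg 2
  obtain ⟨P, hPdef⟩ : ∃ P : ℝ, P = B + (K0 * B + K1 * B + K2 * B) := ⟨_, rfl⟩
  have hb0 : 0 ≤ K0 * B := mul_nonneg hK0 hB
  have hb1 : 0 ≤ K1 * B := mul_nonneg hK1 hB
  have hb2 : 0 ≤ K2 * B := mul_nonneg hK2 hB
  have hP0 : 0 ≤ P := by rw [hPdef]; positivity
  obtain ⟨C2, hC2, hFB⟩ := hFDB 2 le_rfl P hP0
  obtain ⟨Q, hQdef⟩ : ∃ Q : ℝ, Q = P * (1 + P) + (P + C2 * (1 + P + P)) := ⟨_, rfl⟩
  have hQ0 : 0 ≤ Q := by rw [hQdef]; positivity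
  have hφ := phi_nonneg α
  obtain ⟨c1, hc1⟩ : ∃ c : ℝ, c = P ^ 3 + 4 * κ * P ^ 2 * PHI α := ⟨_, rfl⟩
  obtain ⟨c2, hc2⟩ : ∃ c : ℝ, c = P ^ 2 + κ * (2 * P + Q) * PHI α := ⟨_, rfl⟩
  obtain ⟨c3, hc3⟩ : ∃ c : ℝ, c = 2 * P ^ 2 + κ * (3 * Q) * PHI α := ⟨_, rfl⟩
  have hc1' : 0 ≤ c1 := by rw [hc1]; positivity
  have hc2' : 0 ≤ c2 := by rw [hc2]; positivity
  have hc3' : 0 ≤ c3 := by rw [hc3]; positivity
  refine ⟨c1 + c2 + c3, by positivity, ?_⟩
  intro h f hh hh1 hk hf hBf x
  have hu : ContDiff ℝ (∞ : ℕ∞ω) (vel g f) := (hDIV g f hg hf.1).1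
  have hf0 : BD 0 P f := bd_mono (hBf 0 (by norm_num)) (by linarith)
  have hf1 : BD 1 P f := bd_mono (hBf 1 (by norm_num)) (by linarith)
  have hf2 : BD 2 P f := bd_mono (hBf 2 (by norm_num)) (by linarith)
  have hu0 : BD 0 P (vel g f) := bd_mono (hT0 f B hf.1 hB (hBf 0 (by norm_num))) (by linarith)
  have hu1 : BD 1 P (vel g f) := bd_mono (hT1 f B hf.1 hB (hBf 1 (by norm_num))) (by linarith)
  have hu2 : BD 2 P (vel g f) := bd_mono (hT2 f B hf.1 hB (hBf 2 (by norm_num))) (by linarith)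
  have hF : SB (shift g h f) := sb_shift hFDA hFDB hTKB hDIV hg hh hh1 hf
  have hFC := hFDC h P hh.le hP0 f (vel g f) hf.1 hu hf1 hf2 hu0 hu1
  have hF0 : ∀ y, |shift g h f y| ≤ P := fun y => by
    have := bd0 hf0 (y - h • vel g f y)
    rwa [Real.norm_eq_abs] at this
  have hF1 : BD 1 Q (shift g h f) := by
    refine bd_mono (hFDA h P P hh.le hP0 hP0 f (vel g f) hf.1 hu hf1 hu1) ?_
    rw [hQdef]
    have e1 : P * (1 + h * P) ≤ P * (1 + P) := by
      apply mul_le_mul_of_nonneg_left _ hP0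
      nlinarith
    have e2 : 0 ≤ P + C2 * (1 + P + P) := by positivity
    linarith
  have hF2 : BD 2 Q (shift g h f) := by
    refine bd_mono (hFB h P P hh.le hh1 hP0 hP0 f (vel g f) hf.1 hu ?_ hf2 hu2) ?_
    · intro j hj1 hj2
      have : j = 1 := by omega
      subst this
      exact ⟨hf1, hu1⟩
    · rw [hQdef]
      have e0 : 0 ≤ C2 * (1 + P + P) := by positivity
      have e1 : h * (C2 * (1 + P + P)) ≤ 1 * (C2 * (1 + P + P)) := mul_le_mul_of_nonneg_right hh1 e0
      have e2 : 0 ≤ P * (1 + P) := by positivity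
      linarith
  have hA := hAHB α κ h hα hα' hκ hh hk (shift g h f) hF
  have hLB := (hLHB α h hα hα' hh).1
  -- the difference F - f
  have hdiff_lip : ∀ y z, |(1 * shift g h f y + (-1) * f y) - (1 * shift g h f z + (-1) * f z)| ≤
      (h * (2 * P ^ 2)) * ‖y - z‖ := by
    intro y z
    have hdF : Differentiable ℝ (shift g h f) := hF.1.differentiable (by simp)
    have hdf : Differentiable ℝ f := hf.1.differentiable (by simp)
    have := lip_of_bound (f := fun x => shift g h f x - f x) (A := h * (2 * P ^ 2)) (hdF.sub hdf) (fun x => by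
      have e : fderiv ℝ (fun x => shift g h f x - f x) x = fderiv ℝ (shift g h f) x - fderiv ℝ f x :=
        fderiv_fun_sub (hdF x) (hdf x)
      rw [e]
      exact (hFC x).2.2) y z
    rw [Real.norm_eq_abs] at this
    have e : (1 * shift g h f y + (-1) * f y) - (1 * shift g h f z + (-1) * f z) =
      (shift g h f y - f y) - (shift g h f z - f z) := by ring
    rw [e]
    exact this
  have hdiff_b : ∀ y, |1 * shift g h f y + (-1) * f y| ≤ h * P ^ 2 := by
    intro y
    have e : 1 * shift g h f y + (-1) * f y = f (y - h • vel g f y) - f y := by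
      unfold shift; ring
    rw [e]
    exact (hFC y).1
  have hlin : lapH α h (shift g h f) x - lapH α h f x =
      lapH α h (fun y => 1 * shift g h f y + (-1) * f y) x := by
    have := hLHL α h hα hα' hh (shift g h f) f P hF.1.continuous hf.1.continuous hF0 (fun y => by
      have := bd0 hf0 y
      rwa [Real.norm_eq_abs] at this) 1 (-1) x
    rw [this]; ring
  have hl1 : |lapH α h (shift g h f) x - lapH α h f x| ≤ (4 * (h * P ^ 2)) * PHI α := by
    rw [hlin]
    have := hLB (fun y => 1 * shift g h f y + (-1) * f y) (h * P ^ 2) (h * (2 * P ^ 2))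
      ((continuous_const.mul hF.1.continuous).add (continuous_const.mul hf.1.continuous))
      (by positivity) (by positivity) hdiff_b hdiff_lip x
    calc _ ≤ _ := this
      _ = _ := by ring
  have hl2 : |lapH α h (shift g h f) x| ≤ (2 * P + Q) * PHI α :=
    hLB (shift g h f) P Q hF.1.continuous hP0 hQ0 hF0 (fun y z => by
      have := lip1 hF.1 hF1 y z
      rwa [Real.norm_eq_abs] at this) x
  refine ⟨?_, ?_, ?_⟩
  · have e : step g α κ h f x - f x + h * rhs g α κ h f x =
      (f (x - h • vel g f x) - f x + h * fderiv ℝ f x (vel g f x)) -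
        κ * h * (lapH α h (shift g h f) x - lapH α h f x) := by
      unfold step rhs shift; ring
    rw [e]
    have e1 := (hFC x).2.1
    have e2 : |κ * h * (lapH α h (shift g h f) x - lapH α h f x)| ≤ κ * h * ((4 * (h * P ^ 2)) * PHI α) := by
      rw [abs_mul, abs_of_nonneg (by positivity : 0 ≤ κ * h)]
      exact mul_le_mul_of_nonneg_left hl1 (by positivity)
    have e3 : 0 ≤ (c2 + c3) * h ^ 2 := by positivity
    calc _ ≤ _ := abs_sub _ _
      _ ≤ h ^ 2 * P ^ 3 + κ * h * ((4 * (h * P ^ 2)) * PHI α) := add_le_add e1 e2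
      _ = c1 * h ^ 2 := by rw [hc1]; ring
      _ ≤ (c1 + c2 + c3) * h ^ 2 := by linarith
  · have e : step g α κ h f x - f x = (f (x - h • vel g f x) - f x) - κ * h * lapH α h (shift g h f) x := by
      unfold step; simp only [shift]; ring
    rw [e]
    have e1 := (hFC x).1
    have e2 : |κ * h * lapH α h (shift g h f) x| ≤ κ * h * ((2 * P + Q) * PHI α) := by
      rw [abs_mul, abs_of_nonneg (by positivity : 0 ≤ κ * h)]
      exact mul_le_mul_of_nonneg_left hl2 (by positivity)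
    have e3 : 0 ≤ (c1 + c3) * h := by positivity
    calc _ ≤ _ := abs_sub _ _
      _ ≤ h * P ^ 2 + κ * h * ((2 * P + Q) * PHI α) := add_le_add e1 e2
      _ = c2 * h := by rw [hc2]; ring
      _ ≤ (c1 + c2 + c3) * h := by linarith
  · refine ContinuousLinearMap.opNorm_le_bound _ (by positivity) ?_
    intro v
    have hst : fderiv ℝ (step g α κ h f) x v =
        fderiv ℝ (shift g h f) x v - κ * h * lapH α h (fun y => fderiv ℝ (shift g h f) y v) x := hA.2.2 x v
    have hcont : Continuous (fun y => fderiv ℝ (shift g h f) y v) :=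
      (cd_fderiv hF.1).continuous.clm_apply continuous_const
    have hl3 : |lapH α h (fun y => fderiv ℝ (shift g h f) y v) x| ≤ (2 * (Q * ‖v‖) + Q * ‖v‖) * PHI α := by
      refine hLB (fun y => fderiv ℝ (shift g h f) y v) (Q * ‖v‖) (Q * ‖v‖) hcont (by positivity) (by positivity)
        ?_ ?_ x
      · intro y
        have := (fderiv ℝ (shift g h f) y).le_opNorm v
        rw [Real.norm_eq_abs] at this
        exact this.trans (mul_le_mul_of_nonneg_right (bd1 hF1 y) (norm_nonneg v))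
      · intro y z
        have h1 := (fderiv ℝ (shift g h f) y - fderiv ℝ (shift g h f) z).le_opNorm v
        rw [Real.norm_eq_abs, sub_apply] at h1
        have h2 := mul_le_mul_of_nonneg_right (lip2 hF.1 hF2 y z) (norm_nonneg v)
        calc _ ≤ _ := h1
          _ ≤ _ := h2
          _ = _ := by ring
    have e1 : |fderiv ℝ (shift g h f) x v - fderiv ℝ f x v| ≤ h * (2 * P ^ 2) * ‖v‖ := by
      have h1 := (fderiv ℝ (shift g h f) x - fderiv ℝ f x).le_opNorm v
      rw [Real.norm_eq_abs, sub_apply] at h1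
      exact h1.trans (mul_le_mul_of_nonneg_right (hFC x).2.2 (norm_nonneg v))
    have e2 : |κ * h * lapH α h (fun y => fderiv ℝ (shift g h f) y v) x| ≤
        κ * h * ((2 * (Q * ‖v‖) + Q * ‖v‖) * PHI α) := by
      rw [abs_mul, abs_of_nonneg (by positivity : 0 ≤ κ * h)]
      exact mul_le_mul_of_nonneg_left hl3 (by positivity)
    have e3 : 0 ≤ (c1 + c2) * h * ‖v‖ := by positivity
    rw [sub_apply, hst, Real.norm_eq_abs]
    have e : fderiv ℝ (shift g h f) x v - κ * h * lapH α h (fun y => fderiv ℝ (shift g h f) y v) x -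
        fderiv ℝ f x v = (fderiv ℝ (shift g h f) x v - fderiv ℝ f x v) -
          κ * h * lapH α h (fun y => fderiv ℝ (shift g h f) y v) x := by ring
    rw [e]
    calc _ ≤ _ := abs_sub _ _
      _ ≤ h * (2 * P ^ 2) * ‖v‖ + κ * h * ((2 * (Q * ‖v‖) + Q * ‖v‖) * PHI α) := add_le_add e1 e2
      _ = c3 * h * ‖v‖ := by rw [hc3]; ring
      _ ≤ (c1 + c2 + c3) * h * ‖v‖ := by linarith

end Pool.Agent.Lib.MP96bed6
end
end

section
/-!
# MP_96bed6_an, part W: module MOD, many steps of the scheme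
-/
set_option autoImplicit false

open MeasureTheory Filter Topology Set
open scoped ENNReal ContDiff NNReal

noncomputable section

namespace Pool.Agent.Lib.MP96bed6.MODM

open ST2M

lemma rhs_diff (hSUP : SpecSUP) (hLIN : SpecLIN) (hLHB : SpecLHB) (hLHL : SpecLHL) {g : E → ℝ} (hg : IsSampler g)
    {α κ : ℝ} (hα : 0 < α) (hα' : α < 1 / 2) (hκ : 0 ≤ κ) {B : ℝ} (hB : 0 ≤ B) :
    ∃ R : ℝ, 0 ≤ R ∧ ∀ (h δ : ℝ) (p q : E → ℝ), 0 < h → 0 ≤ δ → SB p → SB q → BD 0 B p → BD 1 B p → BD 0 B q →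
      (∀ x, |p x - q x| ≤ δ) → (∀ x, ‖fderiv ℝ p x - fderiv ℝ q x‖ ≤ δ) →
      ∀ x, |rhs g α κ h p x - rhs g α κ h q x| ≤ R * δ := by
  obtain ⟨K, hK, hS⟩ := hSUP g hg
  have hφ := phi_nonneg α
  refine ⟨2 * B * K + 3 * κ * PHI α, by positivity, ?_⟩
  intro h δ p q hh hδ hp hq hp0 hp1 hq0 hd hD x
  have hpc : Continuous p := hp.1.continuous
  have hqc : Continuous q := hq.1.continuous
  have hdc : Continuous (fun y => 1 * p y + (-1) * q y) :=
    (continuous_const.mul hpc).add (continuous_const.mul hqc)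
  have hdb : ∀ y, |1 * p y + (-1) * q y| ≤ δ := fun y => by
    have e : 1 * p y + (-1) * q y = p y - q y := by ring
    rw [e]; exact hd y
  have hdl : ∀ y z, |(1 * p y + (-1) * q y) - (1 * p z + (-1) * q z)| ≤ δ * ‖y - z‖ := by
    intro y z
    have hdp : Differentiable ℝ p := hp.1.differentiable (by simp)
    have hdq : Differentiable ℝ q := hq.1.differentiable (by simp)
    have := lip_of_bound (f := fun x => p x - q x) (A := δ) (hdp.sub hdq) (fun x => by
      have e : fderiv ℝ (fun x => p x - q x) x = fderiv ℝ p x - fderiv ℝ q x :=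
        fderiv_fun_sub (hdp x) (hdq x)
      rw [e]
      exact hD x) y z
    rw [Real.norm_eq_abs] at this
    have e : (1 * p y + (-1) * q y) - (1 * p z + (-1) * q z) = (p y - q y) - (p z - q z) := by ring
    rw [e]
    exact this
  have hv1 : vel g p x - vel g q x = vel g (fun y => 1 * p y + (-1) * q y) x := by
    rw [hLIN g p q hg hpc hqc 1 (-1) x, one_smul, neg_one_smul]; abel
  have hv2 : ‖vel g p x - vel g q x‖ ≤ K * δ := by
    rw [hv1]
    exact hS _ hdc δ hdb x
  have hv3 : ‖vel g q x‖ ≤ K * B := hS q hqc B (fun y => by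
    have := bd0 hq0 y
    rwa [Real.norm_eq_abs] at this) x
  have hl1 : lapH α h p x - lapH α h q x = lapH α h (fun y => 1 * p y + (-1) * q y) x := by
    have := hLHL α h hα hα' hh p q B hpc hqc (fun y => by
      have := bd0 hp0 y
      rwa [Real.norm_eq_abs] at this) (fun y => by
      have := bd0 hq0 y
      rwa [Real.norm_eq_abs] at this) 1 (-1) x
    rw [this]; ring
  have hl2 : |lapH α h p x - lapH α h q x| ≤ (2 * δ + δ) * PHI α := by
    rw [hl1]
    exact (hLHB α h hα hα' hh).1 _ δ δ hdc hδ hδ hdb hdl x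
  have e : rhs g α κ h p x - rhs g α κ h q x =
      (fderiv ℝ p x (vel g p x - vel g q x) + (fderiv ℝ p x - fderiv ℝ q x) (vel g q x)) +
        κ * (lapH α h p x - lapH α h q x) := by
    unfold rhs
    rw [map_sub, sub_apply]
    ring
  have e1 : |fderiv ℝ p x (vel g p x - vel g q x)| ≤ B * (K * δ) := by
    have := (fderiv ℝ p x).le_opNorm (vel g p x - vel g q x)
    rw [Real.norm_eq_abs] at this
    exact this.trans (mul_le_mul (bd1 hp1 x) hv2 (norm_nonneg _) hB)
  have e2 : |(fderiv ℝ p x - fderiv ℝ q x) (vel g q x)| ≤ δ * (K * B) := by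
    have := (fderiv ℝ p x - fderiv ℝ q x).le_opNorm (vel g q x)
    rw [Real.norm_eq_abs] at this
    exact this.trans (mul_le_mul (hD x) hv3 (norm_nonneg _) hδ)
  have e3 : |κ * (lapH α h p x - lapH α h q x)| ≤ κ * ((2 * δ + δ) * PHI α) := by
    rw [abs_mul, abs_of_nonneg hκ]
    exact mul_le_mul_of_nonneg_left hl2 hκ
  rw [e]
  calc _ ≤ _ := abs_add_le _ _
    _ ≤ (|fderiv ℝ p x (vel g p x - vel g q x)| + |(fderiv ℝ p x - fderiv ℝ q x) (vel g q x)|) +
        |κ * (lapH α h p x - lapH α h q x)| := by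
      gcongr
      exact abs_add_le _ _
    _ ≤ (B * (K * δ) + δ * (K * B)) + κ * ((2 * δ + δ) * PHI α) := add_le_add (add_le_add e1 e2) e3
    _ = _ := by ring

end Pool.Agent.Lib.MP96bed6.MODM

namespace Pool.Agent.Lib.MP96bed6

open ST2M MODM

theorem specMOD (hST2 : SpecST2) (hSUP : SpecSUP) (hLIN : SpecLIN) (hLHB : SpecLHB) (hLHL : SpecLHL) : SpecMOD := by
  intro g α κ hg hα hα' hκ B T₀ hB hT₀
  obtain ⟨C, hC, hS⟩ := hST2 g α κ hg hα hα' hκ B hB
  obtain ⟨R, hR, hD⟩ := rhs_diff hSUP hLIN hLHB hLHL hg hα hα' hκ hB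
  refine ⟨C + C * T₀ + 2 * (R * C), by positivity, ?_⟩
  intro h f hh hh1 hk hf hstep
  -- one step
  have h1 : ∀ n : ℕ, n * h ≤ T₀ → ∀ x,
      |f (n + 1) x - f n x + h * rhs g α κ h (f n) x| ≤ C * h ^ 2 ∧ |f (n + 1) x - f n x| ≤ C * h ∧
      ‖fderiv ℝ (f (n + 1)) x - fderiv ℝ (f n) x‖ ≤ C * h := by
    intro n hn x
    rw [hstep n]
    exact hS h (f n) hh hh1 hk (hf n hn).1 (hf n hn).2 x
  have hle : ∀ n k : ℕ, ((n + k : ℕ) : ℝ) * h ≤ T₀ → (n : ℝ) * h ≤ T₀ := by
    intro n k hnk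
    push_cast at hnk
    have : 0 ≤ (k : ℝ) * h := by positivity
    linarith
  -- many steps, first order
  have h2 : ∀ n k : ℕ, ((n + k : ℕ) : ℝ) * h ≤ T₀ → ∀ x,
      |f (n + k) x - f n x| ≤ C * (k * h) ∧ ‖fderiv ℝ (f (n + k)) x - fderiv ℝ (f n) x‖ ≤ C * (k * h) := by
    intro n k
    induction k with
    | zero => intro _ x; simp
    | succ k ih =>
      intro hnk x
      have hnk' : ((n + k : ℕ) : ℝ) * h ≤ T₀ := hle (n + k) 1 hnk
      obtain ⟨i1, i2⟩ := ih hnk' x
      obtain ⟨_, j1, j2⟩ := h1 (n + k) hnk' x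
      refine ⟨?_, ?_⟩
      · calc |f (n + (k + 1)) x - f n x| = |(f (n + k + 1) x - f (n + k) x) + (f (n + k) x - f n x)| := by
              rw [← add_assoc]; congr 1; ring
          _ ≤ _ := abs_add_le _ _
          _ ≤ C * h + C * (k * h) := add_le_add j1 i1
          _ = C * (((k + 1 : ℕ) : ℝ) * h) := by push_cast; ring
      · calc ‖fderiv ℝ (f (n + (k + 1))) x - fderiv ℝ (f n) x‖ =
              ‖(fderiv ℝ (f (n + k + 1)) x - fderiv ℝ (f (n + k)) x) +
                (fderiv ℝ (f (n + k)) x - fderiv ℝ (f n) x)‖ := by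
              rw [← add_assoc]; congr 1; abel
          _ ≤ _ := norm_add_le _ _
          _ ≤ C * h + C * (k * h) := add_le_add j2 i2
          _ = C * (((k + 1 : ℕ) : ℝ) * h) := by push_cast; ring
  -- the right hand sides
  have h3 : ∀ n k : ℕ, ((n + k : ℕ) : ℝ) * h ≤ T₀ → ∀ x,
      |rhs g α κ h (f (n + k)) x - rhs g α κ h (f n) x| ≤ R * (C * (k * h)) := by
    intro n k hnk x
    have a1 := hf (n + k) hnk
    have a2 := hf n (hle n k hnk)
    exact hD h (C * (k * h)) (f (n + k)) (f n) hh (by positivity) a1.1 a2.1 (a1.2 0 (by norm_num))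
      (a1.2 1 (by norm_num)) (a2.2 0 (by norm_num)) (fun y => (h2 n k hnk y).1) (fun y => (h2 n k hnk y).2) x
  -- many steps, second order
  have h4 : ∀ n k : ℕ, ((n + k : ℕ) : ℝ) * h ≤ T₀ → ∀ x,
      |f (n + k) x - f n x + k * h * rhs g α κ h (f n) x| ≤ C * (k * h ^ 2) + R * C * (k * h) ^ 2 := by
    intro n k
    induction k with
    | zero => intro _ x; simp
    | succ k ih =>
      intro hnk x
      have hnk' : ((n + k : ℕ) : ℝ) * h ≤ T₀ := hle (n + k) 1 hnk
      have i1 := ih hnk' x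
      obtain ⟨j0, _, _⟩ := h1 (n + k) hnk' x
      have j3 := h3 n k hnk' x
      have e : f (n + (k + 1)) x - f n x + ((k + 1 : ℕ) : ℝ) * h * rhs g α κ h (f n) x =
          (f (n + k) x - f n x + k * h * rhs g α κ h (f n) x) +
          ((f (n + k + 1) x - f (n + k) x + h * rhs g α κ h (f (n + k)) x) -
            h * (rhs g α κ h (f (n + k)) x - rhs g α κ h (f n) x)) := by
        rw [← add_assoc]; push_cast; ring
      rw [e]
      have j4 : |h * (rhs g α κ h (f (n + k)) x - rhs g α κ h (f n) x)| ≤ h * (R * (C * (k * h))) := by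
        rw [abs_mul, abs_of_pos hh]
        exact mul_le_mul_of_nonneg_left j3 hh.le
      have j5 : 0 ≤ R * C * h ^ 2 * (k + 1) := by positivity
      calc _ ≤ _ := abs_add_le _ _
        _ ≤ (C * (k * h ^ 2) + R * C * (k * h) ^ 2) + (C * h ^ 2 + h * (R * (C * (k * h)))) := by
          refine add_le_add i1 ((abs_sub _ _).trans (add_le_add j0 j4))
        _ ≤ (C * (k * h ^ 2) + R * C * (k * h) ^ 2) + (C * h ^ 2 + h * (R * (C * (k * h)))) +
            R * C * h ^ 2 * (k + 1) := by linarith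
        _ = C * (((k + 1 : ℕ) : ℝ) * h ^ 2) + R * C * (((k + 1 : ℕ) : ℝ) * h) ^ 2 := by push_cast; ring
  have h5 : ∀ n k : ℕ, ((n + k : ℕ) : ℝ) * h ≤ T₀ → C * (k * h ^ 2) ≤ C * T₀ * h := by
    intro n k hnk
    push_cast at hnk
    have a1 : 0 ≤ (n : ℝ) * h := by positivity
    have a2 : (k : ℝ) * h ≤ T₀ := by linarith
    have a3 : (k : ℝ) * h * h ≤ T₀ * h := mul_le_mul_of_nonneg_right a2 hh.le
    have a4 := mul_le_mul_of_nonneg_left a3 hC
    calc C * (k * h ^ 2) = C * (k * h * h) := by ring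
      _ ≤ _ := a4
      _ = _ := by ring
  intro m n hm hn x
  have hRC : 0 ≤ R * C := mul_nonneg hR hC
  rcases le_total n m with hnm | hnm
  · obtain ⟨k, rfl⟩ := Nat.exists_eq_add_of_le hnm
    have ek : ((n + k : ℕ) : ℝ) - n = k := by push_cast; ring
    rw [ek, abs_of_nonneg (by positivity : (0 : ℝ) ≤ k)]
    have b1 := (h2 n k hm x).1
    have b2 := h4 n k hm x
    have b3 := h5 n k hm
    have b4 : 0 ≤ (k : ℝ) * h := by positivity
    have b5 : 0 ≤ (C * T₀ + 2 * (R * C)) * (k * h) := by positivity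
    have b6 : 0 ≤ (C + 2 * (R * C)) * h := by positivity
    have b7 : 0 ≤ (C + C * T₀ + R * C) * (k * h) ^ 2 := by positivity
    refine ⟨b1.trans (by linarith), b2.trans ?_⟩
    linarith
  · obtain ⟨k, rfl⟩ := Nat.exists_eq_add_of_le hnm
    have ek : (m : ℝ) - ((m + k : ℕ) : ℝ) = -k := by push_cast; ring
    rw [ek, abs_neg, abs_of_nonneg (by positivity : (0 : ℝ) ≤ k)]
    have b1 := (h2 m k hn x).1
    have b2 := h4 m k hn x
    have b3 := h5 m k hn
    have b8 := h3 m k hn x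
    have b4 : 0 ≤ (k : ℝ) * h := by positivity
    have b5 : 0 ≤ (C * T₀ + 2 * (R * C)) * (k * h) := by positivity
    have b6 : 0 ≤ (C + 2 * (R * C)) * h := by positivity
    have b7 : 0 ≤ (C + C * T₀) * (k * h) ^ 2 := by positivity
    refine ⟨?_, ?_⟩
    · rw [abs_sub_comm]
      exact b1.trans (by linarith)
    · have e : f m x - f (m + k) x + -(k : ℝ) * h * rhs g α κ h (f (m + k)) x =
          -(f (m + k) x - f m x + k * h * rhs g α κ h (f m) x) -
            k * h * (rhs g α κ h (f (m + k)) x - rhs g α κ h (f m) x) := by ring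
      rw [e]
      have b9 : |k * h * (rhs g α κ h (f (m + k)) x - rhs g α κ h (f m) x)| ≤ k * h * (R * (C * (k * h))) := by
        rw [abs_mul, abs_of_nonneg b4]
        exact mul_le_mul_of_nonneg_left b8 b4
      calc _ ≤ _ := abs_sub _ _
        _ ≤ (C * (k * h ^ 2) + R * C * (k * h) ^ 2) + k * h * (R * (C * (k * h))) := by
          rw [abs_neg]
          exact add_le_add b2 b9
        _ ≤ C * T₀ * h + R * C * (k * h) ^ 2 + k * h * (R * (C * (k * h))) := by linarith
        _ ≤ _ := by nlinarith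

end Pool.Agent.Lib.MP96bed6
end
end

section
/-!
# MP_96bed6_an, part W, POL: `T` maps polynomials to polynomials
-/
set_option autoImplicit false

open MeasureTheory Filter Topology Set
open scoped ENNReal ContDiff NNReal

noncomputable section

namespace Pool.Agent.Lib.MP96bed6

namespace POLM

/-- the terms of the stream function -/
def Q (c : ℕ → ℝ) (j : ℕ) (x : E) : ℝ := c j * (x 0 * x 1) * ((x 0) ^ 2 + (x 1) ^ 2) ^ (j / 2)

theorem contDiff_coord (i : Fin 2) : ContDiff ℝ ∞ (fun x : E => x i) := by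
  exact (EuclideanSpace.proj (𝕜 := ℝ) i).contDiff

theorem contDiff_Q (c : ℕ → ℝ) (j : ℕ) : ContDiff ℝ ∞ (Q c j) := by
  unfold Q
  have h0 := contDiff_coord 0
  have h1 := contDiff_coord 1
  exact (contDiff_const.mul (h0.mul h1)).mul (((h0.pow 2).add (h1.pow 2)).pow _)

theorem hom_Q (c : ℕ → ℝ) (j : ℕ) (r : ℝ) (x : E) :
    Q c j (r • x) = r ^ (2 + 2 * (j / 2)) * Q c j x := by
  unfold Q
  have h0 : (r • x) 0 = r * x 0 := rfl
  have h1 : (r • x) 1 = r * x 1 := rfl
  rw [h0, h1, show (r * x 0) ^ 2 + (r * x 1) ^ 2 = r ^ 2 * ((x 0) ^ 2 + (x 1) ^ 2) by ring,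
    mul_pow, ← pow_mul, pow_add]
  ring

theorem norm_sq (x : E) : ‖x‖ ^ 2 = (x 0) ^ 2 + (x 1) ^ 2 := by
  rw [EuclideanSpace.norm_eq, Real.sq_sqrt (by positivity), Fin.sum_univ_two]
  simp

end POLM

open POLM in
theorem specPOL (hSUPP : SpecSUPP) (hHOM : SpecHOM) : SpecPOL := by
  intro g hg k a hc hh
  obtain ⟨-, hks, hkc, -, -, -, -, hodd, -, -, -⟩ := hSUPP g hg
  set c : ℕ → ℝ := fun j => ∫ z, a j z * kern g z with hcdef
  have hint : ∀ j, Integrable (fun z => a j z * kern g z) := fun j =>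
    ((hc j).mul hks.continuous).integrable_of_hasCompactSupport hkc.mul_left
  have heven : ∀ j, Even j → c j = 0 := by
    intro j hj
    have h1 : c j = ∫ z, a j (-z) * kern g (-z) := by
      rw [hcdef]
      exact (integral_neg_eq_self (fun z => a j z * kern g z) volume).symm
    have h2 : (∫ z, a j (-z) * kern g (-z)) = -c j := by
      rw [hcdef]
      simp only
      rw [← integral_neg]
      refine integral_congr_ae (Eventually.of_forall fun z => ?_)
      simp only
      have h3 := hh j (-1) z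
      rw [neg_one_smul, hj.neg_one_pow, one_mul] at h3
      rw [h3, hodd z]
      ring
    rw [h2] at h1
    linarith
  have hstr : stream g (fun y => ∑ j ∈ Finset.range k, a j y) =
      fun x => ∑ j ∈ Finset.range k, Q c j x := by
    funext x
    unfold stream
    have h1 : (∫ z : E, (∑ j ∈ Finset.range k, a j (‖x‖ • z)) * kern g z) =
        ∑ j ∈ Finset.range k, ‖x‖ ^ j * c j := by
      have h2 : ∀ z : E, (∑ j ∈ Finset.range k, a j (‖x‖ • z)) * kern g z =
          ∑ j ∈ Finset.range k, ‖x‖ ^ j * (a j z * kern g z) := by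
        intro z
        rw [Finset.sum_mul]
        refine Finset.sum_congr rfl fun j _ => ?_
        rw [hh j]
        ring
      simp_rw [h2]
      rw [integral_finsetSum _ fun j _ => (hint j).const_mul _]
      refine Finset.sum_congr rfl fun j _ => ?_
      rw [integral_const_mul]
    rw [h1, Finset.mul_sum]
    refine Finset.sum_congr rfl fun j _ => ?_
    by_cases hj : Even j
    · unfold Q
      rw [heven j hj]
      ring
    · rw [Nat.not_even_iff_odd] at hj
      obtain ⟨i, rfl⟩ := hj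
      unfold Q
      rw [show (2 * i + 1) / 2 = i by omega, ← norm_sq, ← pow_mul, pow_succ]
      by_cases hx : x = 0
      · subst hx
        simp
      · have hx' : ‖x‖ ≠ 0 := norm_ne_zero_iff.2 hx
        field_simp
  rw [hstr]
  refine ⟨ContDiff.sum fun j _ => contDiff_Q c j, fun x => ?_⟩
  rw [iteratedFDeriv_sum (fun j _ => (contDiff_Q c j).of_le (by exact_mod_cast le_top))]
  rw [Finset.sum_apply]
  refine Finset.sum_eq_zero fun j hj => ?_
  rw [Finset.mem_range] at hj
  by_cases hje : Even j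
  · have h2 : Q c j = fun _ => (0 : ℝ) := by
      funext x
      unfold Q
      rw [heven j hje]
      ring
    rw [h2]
    simp
  · rw [Nat.not_even_iff_odd] at hje
    obtain ⟨i, rfl⟩ := hje
    exact hHOM (Q c (2 * i + 1)) (2 + 2 * ((2 * i + 1) / 2)) (contDiff_Q c _)
      (fun r _ x => hom_Q c _ r x) (k + 1) (by omega) x

end Pool.Agent.Lib.MP96bed6
end
end

section
/-!
# REM: the estimate on the unit circle
-/
set_option autoImplicit false

open MeasureTheory Filter Topology Set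
open scoped ENNReal ContDiff NNReal

noncomputable section

namespace Pool.Agent.Lib.MP96bed6

namespace REMM

/-- the punctured plane -/
def PS : Set E := {x : E | x ≠ 0}

theorem isOpen_PS : IsOpen PS := isOpen_ne

theorem uniqueDiff_PS : UniqueDiffOn ℝ PS := isOpen_PS.uniqueDiffOn

theorem sphere_sub : Metric.sphere (0 : E) 1 ⊆ PS := by
  intro x hx
  have h : ‖x‖ = 1 := by simpa using hx
  intro h0
  rw [h0, norm_zero] at h
  exact zero_ne_one h

/-- derivatives are bounded on the unit circle -/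
theorem bound {f : E → ℝ} (hf : ContDiffOn ℝ ∞ f PS) (i : ℕ) :
    ∃ B : ℝ, 0 ≤ B ∧ ∀ x : E, ‖x‖ = 1 → ‖iteratedFDerivWithin ℝ i f PS x‖ ≤ B := by
  have h1 : ContinuousOn (iteratedFDerivWithin ℝ i f PS) PS :=
    hf.continuousOn_iteratedFDerivWithin (by exact_mod_cast le_top) uniqueDiff_PS
  obtain ⟨B, hB⟩ := (isCompact_sphere (0 : E) 1).exists_bound_of_continuousOn (h1.mono sphere_sub)
  refine ⟨max B 0, le_max_right _ _, fun x hx => (hB x (by simpa using hx)).trans (le_max_left _ _)⟩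

theorem contDiff_coord (i : Fin 2) : ContDiff ℝ ∞ (fun x : E => x i) :=
  (EuclideanSpace.proj i : E →L[ℝ] ℝ).contDiff

theorem contDiffOn_norm : ContDiffOn ℝ ∞ (fun x : E => ‖x‖) PS := fun _ hx =>
  (contDiffAt_norm ℝ hx).contDiffWithinAt

theorem contDiffOn_q : ContDiffOn ℝ ∞ (fun x : E => x 0 * x 1 / ‖x‖) PS :=
  ((contDiff_coord 0).contDiffOn.mul (contDiff_coord 1).contDiffOn).div contDiffOn_norm
    fun _ hx => norm_ne_zero_iff.2 hx

end REMM

open REMM in
/-- **REM**. -/
theorem specREM (hSMJ : SpecSMJ) (hSUPP : SpecSUPP) : SpecREM := by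
  intro g hg k
  obtain ⟨-, hk1, hk2, -⟩ := hSUPP g hg
  obtain ⟨F, hF, hF2⟩ := hSMJ (kern g) hk1 hk2
  choose Bq hBq0 hBq using fun i => bound contDiffOn_q i
  choose Bn hBn0 hBn using fun i => bound contDiffOn_norm i
  set I : ℕ → ℝ := fun j => ∫ z : E, ‖z‖ ^ k * |F j z| with hI
  have hI0 : ∀ j, 0 ≤ I j := fun j => integral_nonneg fun z => by positivity
  set C : ℝ := ∑ j ∈ Finset.range (k + 2), I j with hC
  have hC0 : 0 ≤ C := Finset.sum_nonneg fun j _ => hI0 j
  set D : ℝ := 1 + ∑ i ∈ Finset.range (k + 2), Bn i with hD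
  have hD1 : 1 ≤ D := by
    have : 0 ≤ ∑ i ∈ Finset.range (k + 2), Bn i := Finset.sum_nonneg fun j _ => hBn0 j
    linarith
  refine ⟨∑ i ∈ Finset.range (k + 1 + 1), ((k + 1).choose i : ℝ) * Bq i *
    (((k + 1 - i).factorial : ℝ) * C * D ^ (k + 1 - i)), ?_, fun R A hR hA hRA x hx => ?_⟩
  · refine Finset.sum_nonneg fun i _ => ?_
    have := hBq0 i
    positivity
  have hxS : x ∈ PS := sphere_sub (by simpa using hx)
  obtain ⟨hcs, hcd⟩ := hF2 R hR
  set c : ℝ → ℝ := samp (kern g) R with hc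
  have hcomp : ContDiffOn ℝ ∞ (c ∘ fun x : E => ‖x‖) PS :=
    hcs.comp contDiffOn_norm fun y hy => norm_pos_iff.2 hy
  -- the derivatives of `c` at `1`
  have hcb : ∀ j, j < k + 2 → ‖iteratedFDerivWithin ℝ j c (Ioi 0) ‖x‖‖ ≤ A * C := by
    intro j hj
    rw [hx, norm_iteratedFDerivWithin_eq_norm_iteratedDerivWithin, hcd j]
    have h1 : Integrable (fun z : E => A * (‖z‖ ^ k * |F j z|)) := by
      refine Integrable.const_mul ?_ A
      refine Continuous.integrable_of_hasCompactSupport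
        ((continuous_norm.pow k).mul (hF j).1.abs) ?_
      exact (hF j).2.norm.mul_left
    calc ‖samp (F j) R 1‖ = ‖∫ z : E, R ((1 : ℝ) • z) * F j z‖ := rfl
      _ ≤ ∫ z : E, A * (‖z‖ ^ k * |F j z|) := by
          refine norm_integral_le_of_norm_le h1 (ae_of_all _ fun z => ?_)
          rw [one_smul, norm_mul, Real.norm_eq_abs, Real.norm_eq_abs, ← mul_assoc]
          exact mul_le_mul_of_nonneg_right (hRA z) (abs_nonneg _)
      _ = A * I j := by rw [integral_const_mul]
      _ ≤ A * C := mul_le_mul_of_nonneg_left (Finset.single_le_sum (f := I) (fun i _ => hI0 i)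
          (Finset.mem_range.2 hj)) hA
  have hcompb : ∀ m, m ≤ k + 1 → ‖iteratedFDerivWithin ℝ m (c ∘ fun x : E => ‖x‖) PS x‖ ≤
      (m.factorial : ℝ) * (A * C) * D ^ m := by
    intro m hm
    refine norm_iteratedFDerivWithin_comp_le hcs contDiffOn_norm (n := m)
      (by exact_mod_cast le_top) isOpen_Ioi.uniqueDiffOn uniqueDiff_PS
      (fun y hy => norm_pos_iff.2 hy) hxS (fun i hi => hcb i (by omega)) fun i hi1 hi2 => ?_
    have h1 : Bn i ≤ D := by
      have : Bn i ≤ ∑ i ∈ Finset.range (k + 2), Bn i :=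
        Finset.single_le_sum (f := Bn) (fun i _ => hBn0 i) (Finset.mem_range.2 (by omega))
      linarith
    calc ‖iteratedFDerivWithin ℝ i (fun x : E => ‖x‖) PS x‖ ≤ Bn i := hBn i x hx
      _ ≤ D := h1
      _ = D ^ 1 := (pow_one D).symm
      _ ≤ D ^ i := pow_le_pow_right₀ hD1 hi1
  have hfun : stream g R = fun y : E => (y 0 * y 1 / ‖y‖) * (c ∘ fun x : E => ‖x‖) y := rfl
  have hopen : iteratedFDeriv ℝ (k + 1) (stream g R) x =
      iteratedFDerivWithin ℝ (k + 1) (stream g R) PS x :=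
    (iteratedFDerivWithin_of_isOpen (k + 1) isOpen_PS hxS).symm
  rw [hopen, hfun, Finset.sum_mul]
  refine (norm_iteratedFDerivWithin_mul_le contDiffOn_q hcomp uniqueDiff_PS hxS
    (n := k + 1) (by exact_mod_cast le_top)).trans (Finset.sum_le_sum fun i hi => ?_)
  have hi' : i ≤ k + 1 := by
    have := Finset.mem_range.1 hi
    omega
  calc ((k + 1).choose i : ℝ) * ‖iteratedFDerivWithin ℝ i (fun x : E => x 0 * x 1 / ‖x‖) PS x‖ *
        ‖iteratedFDerivWithin ℝ (k + 1 - i) (c ∘ fun x : E => ‖x‖) PS x‖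
      ≤ ((k + 1).choose i : ℝ) * Bq i * (((k + 1 - i).factorial : ℝ) * (A * C) * D ^ (k + 1 - i)) := by
        refine mul_le_mul ?_ (hcompb _ (by omega)) (norm_nonneg _) ?_
        · exact mul_le_mul_of_nonneg_left (hBq i x hx) (Nat.cast_nonneg _)
        · have := hBq0 i
          positivity
    _ = ((k + 1).choose i : ℝ) * Bq i * (((k + 1 - i).factorial : ℝ) * C * D ^ (k + 1 - i)) * A := by
        ring

end Pool.Agent.Lib.MP96bed6
end
end

section
/-!
# SCB: uniform bounds for the scheme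
-/
set_option autoImplicit false

open MeasureTheory Filter Topology Set
open scoped ENNReal ContDiff NNReal

noncomputable section

namespace Pool.Agent.Lib.MP96bed6

namespace SCBM

theorem BD_mono {k : ℕ} {A B : ℝ} {f : E → ℝ} (h : BD k A f) (hAB : A ≤ B) : BD k B f :=
  fun x => (h x).trans hAB

theorem BD_nonneg {k : ℕ} {A : ℝ} {f : E → ℝ} (h : BD k A f) : 0 ≤ A :=
  (norm_nonneg _).trans (h 0)

theorem exists_h0 (α Q : ℝ) (hα : α < 1 / 2) : ∃ h₀ : ℝ, 0 < h₀ ∧ h₀ ≤ 1 ∧
    ∀ h : ℝ, 0 < h → h ≤ h₀ → Q * h ^ (1 - 2 * α) ≤ 1 := by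
  have hs : 0 < 1 - 2 * α := by linarith
  set q : ℝ := |Q| + 1 with hq
  have hq1 : 1 ≤ q := by
    have := abs_nonneg Q
    linarith
  have hq0 : 0 < q := by linarith
  refine ⟨(q⁻¹) ^ (1 / (1 - 2 * α)), by positivity, ?_, fun h hh hle => ?_⟩
  · exact Real.rpow_le_one (by positivity) (inv_le_one_of_one_le₀ hq1) (by positivity)
  · have h1 : h ^ (1 - 2 * α) ≤ q⁻¹ := by
      calc h ^ (1 - 2 * α) ≤ ((q⁻¹) ^ (1 / (1 - 2 * α))) ^ (1 - 2 * α) :=
            Real.rpow_le_rpow hh.le hle hs.le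
        _ = q⁻¹ := by
            rw [← Real.rpow_mul (by positivity), one_div, inv_mul_cancel₀ hs.ne', Real.rpow_one]
    have h2 : 0 ≤ h ^ (1 - 2 * α) := by positivity
    calc Q * h ^ (1 - 2 * α) ≤ q * h ^ (1 - 2 * α) := by
          refine mul_le_mul_of_nonneg_right ?_ h2
          have := le_abs_self Q
          linarith
      _ ≤ q * q⁻¹ := mul_le_mul_of_nonneg_left h1 hq0.le
      _ = 1 := mul_inv_cancel₀ hq0.ne'

theorem sch_succ (g : E → ℝ) (α κ h : ℝ) (f₀ : E → ℝ) (n : ℕ) :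
    sch g α κ h f₀ (n + 1) = step g α κ h (sch g α κ h f₀ n) := by
  unfold sch
  exact Function.iterate_succ_apply' _ _ _

end SCBM

open SCBM in
/-- **SCB**. -/
theorem specSCB (hST1 : SpecST1) : SpecSCB := by
  intro g α κ hg hα hα2 hκ
  obtain ⟨ha, ⟨K, hK, hb⟩, hc⟩ := hST1 g α κ hg hα hα2 hκ
  obtain ⟨h₀, hh₀, hh₁, hsm⟩ := exists_h0 α (κ * PHI α) hα2
  refine ⟨1 / (4 * (K + 1)), h₀, by positivity, hh₀, hh₁, hsm, fun f₀ A hf₀ hA hA1 => ?_⟩
  set c : ℝ := 1 / (4 * (K + 1)) with hcd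
  have hc0 : 0 < c := by positivity
  -- all iterates are `SB`
  have hSB : ∀ (h : ℝ) (n : ℕ), 0 < h → h ≤ h₀ → SB (sch g α κ h f₀ n) := by
    intro h n hh hle
    induction n with
    | zero => exact hf₀
    | succ n ih =>
      rw [sch_succ]
      exact (ha h _ hh (hle.trans hh₁) (hsm h hh hle) ih).1
  have hM : ∀ (h : ℝ) (n : ℕ), 0 < h → h ≤ h₀ → ∀ M : ℝ, (∀ x, |f₀ x| ≤ M) →
      ∀ x, |sch g α κ h f₀ n x| ≤ M := by
    intro h n hh hle M hM
    induction n with
    | zero => exact hM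
    | succ n ih =>
      rw [sch_succ]
      exact (ha h _ hh (hle.trans hh₁) (hsm h hh hle) (hSB h n hh hle)).2 M ih
  -- order one
  have h2A : ∀ (h : ℝ) (n : ℕ), 0 < h → n * h ≤ c / A → A * Real.exp (2 * K * A * (n * h)) ≤ 2 * A := by
    intro h n hh hn
    have h1 : 2 * K * A * (n * h) ≤ 1 / 2 := by
      calc 2 * K * A * (n * h) ≤ 2 * K * A * (c / A) :=
            mul_le_mul_of_nonneg_left hn (by positivity)
        _ = 2 * K * c := by field_simp
        _ ≤ 1 / 2 := by
            rw [hcd, mul_one_div, div_le_iff₀ (by positivity)]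
            linarith
    have h2 : Real.exp (2 * K * A * (n * h)) ≤ 2 := by
      refine (Real.exp_le_exp.2 h1).trans ?_
      have h3 : Real.exp (1 / 2) ^ 2 ≤ 2 ^ 2 := by
        rw [← Real.exp_nat_mul]
        have h4 := Real.exp_one_lt_d9
        have h5 : ((2 : ℕ) : ℝ) * (1 / 2) = 1 := by norm_num
        rw [h5]
        linarith
      exact (pow_le_pow_iff_left₀ (Real.exp_pos _).le (by norm_num) (by norm_num)).1 h3
    nlinarith
  have hone : ∀ (h : ℝ) (n : ℕ), 0 < h → h ≤ h₀ → n * h ≤ c / A →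
      BD 1 (A * Real.exp (2 * K * A * (n * h))) (sch g α κ h f₀ n) := by
    intro h n hh hle
    induction n with
    | zero =>
      intro _
      have : A * Real.exp (2 * K * A * ((0 : ℕ) * h)) = A := by simp
      rw [this]
      exact hA1
    | succ n ih =>
      intro hn
      have hn' : (n : ℝ) * h ≤ c / A := by
        push_cast at hn
        nlinarith
      have h1 := ih hn'
      set a : ℝ := A * Real.exp (2 * K * A * (n * h)) with had
      have ha0 : 0 ≤ a := by positivity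
      have ha2 : a ≤ 2 * A := h2A h n hh hn'
      have h2 := hb h a _ hh (hle.trans hh₁) (hsm h hh hle) (hSB h n hh hle) ha0 h1
      rw [sch_succ]
      refine BD_mono h2 ?_
      have h3 : 1 + h * (K * a) ≤ Real.exp (2 * K * A * h) := by
        have h4 := Real.add_one_le_exp (2 * K * A * h)
        have h5 : h * (K * a) ≤ 2 * K * A * h := by
          have h6 : K * a ≤ K * (2 * A) := mul_le_mul_of_nonneg_left ha2 hK
          nlinarith
        linarith
      calc a * (1 + h * (K * a)) ≤ a * Real.exp (2 * K * A * h) := mul_le_mul_of_nonneg_left h3 ha0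
        _ = A * Real.exp (2 * K * A * (((n + 1 : ℕ) : ℝ) * h)) := by
            rw [had, mul_assoc, ← Real.exp_add]
            push_cast
            ring_nf
  -- all orders
  have hall : ∀ k : ℕ, ∃ C : ℝ, 0 ≤ C ∧ ∀ (h : ℝ) (n : ℕ), 0 < h → h ≤ h₀ → n * h ≤ c / A →
      BD k C (sch g α κ h f₀ n) := by
    intro k
    induction k using Nat.strong_induction_on with
    | _ k ih =>
      rcases (by omega : k = 0 ∨ k = 1 ∨ 2 ≤ k) with rfl | rfl | hk
      · obtain ⟨M, hM0⟩ := hf₀.2 0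
        refine ⟨M, BD_nonneg hM0, fun h n hh hle _ x => ?_⟩
        rw [norm_iteratedFDeriv_zero, Real.norm_eq_abs]
        refine hM h n hh hle M (fun y => ?_) x
        have := hM0 y
        rwa [norm_iteratedFDeriv_zero, Real.norm_eq_abs] at this
      · exact ⟨2 * A, by positivity, fun h n hh hle hn => BD_mono (hone h n hh hle hn) (h2A h n hh hn)⟩
      · choose! C hC0 hC using ih
        set B : ℝ := ∑ j ∈ Finset.range k, C j with hB
        have hB0 : 0 ≤ B := Finset.sum_nonneg fun j hj => hC0 j (Finset.mem_range.1 hj)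
        have hCB : ∀ j, j < k → C j ≤ B := fun j hj =>
          Finset.single_le_sum (f := C) (fun i hi => hC0 i (Finset.mem_range.1 hi))
            (Finset.mem_range.2 hj)
        obtain ⟨C', hC'0, hC'⟩ := hc k hk B hB0
        obtain ⟨a₀, ha₀⟩ := hf₀.2 k
        have ha₀0 := BD_nonneg ha₀
        have hrec : ∀ (h : ℝ) (n : ℕ), 0 < h → h ≤ h₀ → n * h ≤ c / A →
            BD k ((1 + a₀) * Real.exp (C' * (n * h)) - 1) (sch g α κ h f₀ n) := by
          intro h n hh hle
          induction n with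
          | zero =>
            intro _
            have : (1 + a₀) * Real.exp (C' * ((0 : ℕ) * h)) - 1 = a₀ := by simp
            rw [this]
            exact ha₀
          | succ n ih =>
            intro hn
            have hn' : (n : ℝ) * h ≤ c / A := by
              push_cast at hn
              nlinarith
            have h1 := ih hn'
            set a : ℝ := (1 + a₀) * Real.exp (C' * (n * h)) - 1 with had
            have ha0 := BD_nonneg h1
            have h2 := hC' h a _ hh (hle.trans hh₁) (hsm h hh hle) (hSB h n hh hle) ha0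
              (fun j _ hj => BD_mono (hC j hj h n hh hle hn') (hCB j hj)) h1
            rw [sch_succ]
            refine BD_mono h2 ?_
            have h3 := Real.add_one_le_exp (C' * h)
            have h4 : a + h * (C' * (1 + a)) = (1 + a) * (C' * h + 1) - 1 := by ring
            have h5 : (1 + a) * (C' * h + 1) ≤ (1 + a) * Real.exp (C' * h) :=
              mul_le_mul_of_nonneg_left h3 (by linarith)
            have h6 : (1 + a) * Real.exp (C' * h) =
                (1 + a₀) * Real.exp (C' * (((n + 1 : ℕ) : ℝ) * h)) := by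
              have h7 : 1 + a = (1 + a₀) * Real.exp (C' * (n * h)) := by rw [had]; ring
              rw [h7, mul_assoc, ← Real.exp_add]
              push_cast
              ring_nf
            rw [h4, ← h6]
            linarith
        refine ⟨(1 + a₀) * Real.exp (C' * (c / A)), by positivity, fun h n hh hle hn => ?_⟩
        refine BD_mono (hrec h n hh hle hn) ?_
        have h1 : Real.exp (C' * (n * h)) ≤ Real.exp (C' * (c / A)) :=
          Real.exp_le_exp.2 (mul_le_mul_of_nonneg_left hn hC'0)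
        have h2 : (1 + a₀) * Real.exp (C' * (n * h)) ≤ (1 + a₀) * Real.exp (C' * (c / A)) :=
          mul_le_mul_of_nonneg_left h1 (by linarith)
        linarith
  choose C hC0 hC using hall
  exact ⟨C, hC0, fun h n hh hle hn => ⟨hSB h n hh hle, fun k => hC k h n hh hle hn,
    fun M hM' => hM h n hh hle M hM'⟩⟩

end Pool.Agent.Lib.MP96bed6
end
end

section
/-! # SCL: the estimate away from the unit circle, by scaling -/
set_option autoImplicit false

open MeasureTheory Filter Topology Set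
open scoped ENNReal ContDiff NNReal

noncomputable section

namespace Pool.Agent.Lib.MP96bed6

namespace SCLM

/-- the dilation by a nonzero factor -/
def dil (c : ℝ) (hc : c ≠ 0) : E ≃L[ℝ] E :=
  ContinuousLinearEquiv.equivOfInverse (c • ContinuousLinearMap.id ℝ E)
    (c⁻¹ • ContinuousLinearMap.id ℝ E) (fun x => by simp [smul_smul, mul_inv_cancel₀ hc])
    (fun x => by simp [smul_smul, inv_mul_cancel₀ hc])

theorem dil_apply (c : ℝ) (hc : c ≠ 0) (x : E) : dil c hc x = c • x := rfl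

theorem deriv_dil (F : E → ℝ) {c : ℝ} (hc : 0 < c) (n : ℕ) (y : E) :
    ‖iteratedFDeriv ℝ n (F ∘ dil c hc.ne') y‖ = c ^ n * ‖iteratedFDeriv ℝ n F (c • y)‖ := by
  have h1 : iteratedFDeriv ℝ n (F ∘ dil c hc.ne') y =
      (iteratedFDeriv ℝ n F (dil c hc.ne' y)).compContinuousLinearMap
        fun _ => (dil c hc.ne' : E →L[ℝ] E) := by
    have := (dil c hc.ne').iteratedFDerivWithin_comp_right F uniqueDiffOn_univ
      (x := y) (mem_univ _) n
    rwa [preimage_univ, iteratedFDerivWithin_univ, iteratedFDerivWithin_univ] at this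
  have h2 : (iteratedFDeriv ℝ n F (dil c hc.ne' y)).compContinuousLinearMap
      (fun _ => (dil c hc.ne' : E →L[ℝ] E)) = c ^ n • iteratedFDeriv ℝ n F (c • y) := by
    ext v
    rw [ContinuousMultilinearMap.compContinuousLinearMap_apply]
    have h3 : (fun i : Fin n => (dil c hc.ne' : E →L[ℝ] E) (v i)) = fun i => c • v i := rfl
    rw [h3, dil_apply, ContinuousMultilinearMap.map_smul_univ]
    simp
  rw [h1, h2, norm_smul, Real.norm_of_nonneg (by positivity)]

theorem stream_dil (g R : E → ℝ) {c : ℝ} (hc : 0 < c) :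
    stream g R ∘ dil c hc.ne' = stream g (fun y => c * R (c • y)) := by
  funext x
  rw [Function.comp_apply, dil_apply]
  unfold stream
  have h1 : ‖c • x‖ = c * ‖x‖ := by rw [norm_smul, Real.norm_of_nonneg hc.le]
  have h3 : (c • x) 0 = c * x 0 := rfl
  have h4 : (c • x) 1 = c * x 1 := rfl
  rw [h1, h3, h4]
  have h2 : (fun z : E => c * R (c • (‖x‖ • z)) * kern g z) =
      fun z : E => c * (R ((c * ‖x‖) • z) * kern g z) := by
    funext z
    rw [smul_smul, mul_assoc]
  rw [h2, integral_const_mul]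
  by_cases hx : ‖x‖ = 0
  · rw [hx]; simp
  · field_simp

end SCLM

theorem specSCL (hREM : SpecREM) : SpecSCL := by
  intro g hg k
  obtain ⟨K, hK, h⟩ := hREM g hg k
  refine ⟨K, hK, fun R A hR hA hb x hx => ?_⟩
  have hc : 0 < ‖x‖ := norm_pos_iff.2 hx
  set c := ‖x‖ with hcdef
  have hR' : Continuous fun y : E => c * R (c • y) :=
    continuous_const.mul (hR.comp (continuous_const_smul c))
  have hb' : ∀ y : E, |c * R (c • y)| ≤ A * c ^ (k + 1) * ‖y‖ ^ k := by
    intro y
    rw [abs_mul, abs_of_pos hc]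
    have h1 := hb (c • y)
    rw [norm_smul, Real.norm_of_nonneg hc.le, mul_pow] at h1
    calc c * |R (c • y)| ≤ c * (A * (c ^ k * ‖y‖ ^ k)) := mul_le_mul_of_nonneg_left h1 hc.le
      _ = A * c ^ (k + 1) * ‖y‖ ^ k := by ring
  have hn : ‖c⁻¹ • x‖ = 1 := by
    rw [norm_smul, Real.norm_of_nonneg (inv_nonneg.2 hc.le), ← hcdef, inv_mul_cancel₀ hc.ne']
  have h1 := h (fun y => c * R (c • y)) (A * c ^ (k + 1)) hR' (by positivity) hb' (c⁻¹ • x) hn
  rw [← SCLM.stream_dil g R hc, SCLM.deriv_dil (stream g R) hc, smul_smul,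
    mul_inv_cancel₀ hc.ne', one_smul] at h1
  have h2 : 0 < c ^ (k + 1) := by positivity
  have h3 : c ^ (k + 1) * ‖iteratedFDeriv ℝ (k + 1) (stream g R) x‖ ≤ c ^ (k + 1) * (K * A) := by
    calc c ^ (k + 1) * ‖iteratedFDeriv ℝ (k + 1) (stream g R) x‖ ≤ K * (A * c ^ (k + 1)) := h1
      _ = c ^ (k + 1) * (K * A) := by ring
  exact le_of_mul_le_mul_left h3 h2

end Pool.Agent.Lib.MP96bed6
end
end

section
/-!
# MP_96bed6_an, W/SHT: shift in time
-/
set_option autoImplicit false

open MeasureTheory Filter Topology Set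
open scoped ENNReal ContDiff NNReal

noncomputable section

namespace Pool.Agent.Lib.MP96bed6

theorem specSHT : SpecSHT := by
  intro g α κ T' t₁ θ₀ θ hθ ht₁
  have hIcc : ∀ t ∈ Ico (0 : ℝ) (T' - t₁), t₁ + t ∈ Ico (0 : ℝ) T' := by
    intro t ht
    exact ⟨by linarith [ht.1, ht₁.1], by linarith [ht.2]⟩
  have hIoo : ∀ t ∈ Ioo (0 : ℝ) (T' - t₁), t₁ + t ∈ Ioo (0 : ℝ) T' := by
    intro t ht
    exact ⟨by linarith [ht.1, ht₁.1], by linarith [ht.2]⟩
  refine ⟨⟨?_, ?_, ?_, ?_, ?_, ?_⟩, ?_, ?_⟩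
  · simp
  · have h1 : ContinuousOn (fun p : ℝ × E => (t₁ + p.1, p.2)) (Ico 0 (T' - t₁) ×ˢ univ) := by fun_prop
    refine hθ.sol.cont.comp h1 ?_
    rintro ⟨t, x⟩ ⟨ht, -⟩
    exact ⟨hIcc t ht, mem_univ _⟩
  · intro t ht η hη
    obtain ⟨R, hR⟩ := hθ.sol.decay (t₁ + t) (hIcc t ht) η hη
    refine ⟨R, fun s hs x hx => hR (t₁ + s) ⟨by linarith [hs.1, ht₁.1], by linarith [hs.2]⟩ x hx⟩
  · intro t ht x
    have h1 := hθ.sol.dt (t₁ + t) (hIoo t ht) x
    have h2 : DifferentiableAt ℝ (fun s : ℝ => t₁ + s) t := by fun_prop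
    exact DifferentiableAt.comp t h1 h2
  · intro t ht x
    exact hθ.sol.dx (t₁ + t) (hIoo t ht) x
  · intro t ht x
    have h1 := hθ.sol.eqn (t₁ + t) (hIoo t ht) x
    have h2 : deriv (fun s => θ (t₁ + s) x) t = deriv (fun s => θ s x) (t₁ + t) :=
      deriv_comp_const_add (fun s => θ s x) t₁ t
    rw [h2]
    exact h1
  · intro t ht
    exact hθ.smooth (t₁ + t) (hIcc t ht)
  · intro k t ht
    obtain ⟨A, hA⟩ := hθ.bdd k (t₁ + t) (hIcc t ht)
    exact ⟨A, fun s hs => hA (t₁ + s) ⟨by linarith [hs.1, ht₁.1], by linarith [hs.2]⟩⟩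

end Pool.Agent.Lib.MP96bed6
end
end

section
/-!
# MP_96bed6_an, part W, module SMJ: all derivatives of `r ↦ samp f θ r`
-/
set_option autoImplicit false

open MeasureTheory Filter Topology Set
open scoped ENNReal ContDiff NNReal

noncomputable section

namespace Pool.Agent.Lib.MP96bed6

namespace SMJM

/-- the functions `F j` -/
def FJ (f : E → ℝ) : ℕ → E → ℝ
  | 0 => f
  | j + 1 => fun z => gp (FJ f j) z - (j : ℝ) * FJ f j z

/-- `gp f` is smooth. -/
theorem gp_smooth {f : E → ℝ} (hf : ContDiff ℝ ∞ f) : ContDiff ℝ ∞ (gp f) := by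
  have h1 : ContDiff ℝ ∞ (fderiv ℝ f) := hf.fderiv_right (by simp)
  exact (contDiff_const.mul hf).sub (h1.clm_apply contDiff_id)

/-- `gp f` has compact support. -/
theorem gp_supp {f : E → ℝ} (hfc : HasCompactSupport f) : HasCompactSupport (gp f) := by
  refine HasCompactSupport.of_support_subset_isCompact hfc.isCompact ?_
  intro z hz
  by_contra hcon
  apply hz
  have h2 : f z = 0 := image_eq_zero_of_notMem_tsupport hcon
  have h3 : fderiv ℝ f z = 0 := by
    have h4 : z ∉ tsupport (fderiv ℝ f) := fun h => hcon (tsupport_fderiv_subset ℝ h)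
    exact image_eq_zero_of_notMem_tsupport h4
  unfold gp
  rw [h2, h3]
  simp

theorem FJ_prop {f : E → ℝ} (hf : ContDiff ℝ ∞ f) (hfc : HasCompactSupport f) (j : ℕ) :
    ContDiff ℝ ∞ (FJ f j) ∧ HasCompactSupport (FJ f j) := by
  induction j with
  | zero => exact ⟨hf, hfc⟩
  | succ j ih =>
    refine ⟨(gp_smooth ih.1).sub (contDiff_const.mul ih.1), ?_⟩
    exact (gp_supp ih.2).sub (HasCompactSupport.mul_left ih.2)

/-- linearity of `samp` in the sampling function -/
theorem samp_lin {a b θ : E → ℝ} (ha : Continuous a) (hac : HasCompactSupport a) (hb : Continuous b)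
    (hbc : HasCompactSupport b) (hθ : Continuous θ) (c r : ℝ) :
    samp (fun z => a z - c * b z) θ r = samp a θ r - c * samp b θ r := by
  unfold samp
  have i1 : Integrable (fun z : E => θ (r • z) * a z) :=
    ((hθ.comp (continuous_const_smul r)).mul ha).integrable_of_hasCompactSupport hac.mul_left
  have i2 : Integrable (fun z : E => θ (r • z) * b z) :=
    ((hθ.comp (continuous_const_smul r)).mul hb).integrable_of_hasCompactSupport hbc.mul_left
  rw [← integral_const_mul, ← integral_sub i1 (i2.const_mul c)]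
  congr 1
  funext z
  ring

end SMJM

open SMJM

theorem specSMJ (hDER : SpecDER) : SpecSMJ := by
  intro f hf hfc
  refine ⟨FJ f, fun j => ⟨(FJ_prop hf hfc j).1.continuous, (FJ_prop hf hfc j).2⟩, ?_⟩
  intro θ hθ
  -- the one step derivative
  have hstep : ∀ (j : ℕ) (r : ℝ), 0 < r →
      HasDerivAt (fun r : ℝ => (r⁻¹) ^ j * samp (FJ f j) θ r) ((r⁻¹) ^ (j + 1) * samp (FJ f (j + 1)) θ r) r := by
    intro j r hr
    obtain ⟨p1, p2⟩ := FJ_prop hf hfc j
    have h1 := hDER (FJ f j) θ p1 p2 hθ r hr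
    have h2 : HasDerivAt (fun s : ℝ => s⁻¹) (-(r ^ 2)⁻¹) r := hasDerivAt_inv hr.ne'
    have h3 := (h2.pow j).mul h1
    refine h3.congr_deriv ?_
    have h4 : samp (FJ f (j + 1)) θ r = samp (gp (FJ f j)) θ r - (j : ℝ) * samp (FJ f j) θ r :=
      samp_lin (gp_smooth p1).continuous (gp_supp p2) p1.continuous p2 hθ j r
    rw [h4]
    simp only [Pi.pow_apply]
    rw [div_eq_mul_inv, show (r ^ 2)⁻¹ = r⁻¹ ^ 2 by rw [inv_pow]]
    rcases Nat.eq_zero_or_pos j with rfl | hj
    · simp
      ring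
    · obtain ⟨i, rfl⟩ : ∃ i, j = i + 1 := ⟨j - 1, by omega⟩
      simp only [Nat.add_sub_cancel]
      ring
  -- iterated derivatives
  have hit : ∀ (j : ℕ), ∀ r ∈ Ioi (0 : ℝ), iteratedDerivWithin j (samp f θ) (Ioi 0) r = (r⁻¹) ^ j * samp (FJ f j) θ r := by
    intro j
    induction j with
    | zero =>
      intro r _
      simp [FJ]
    | succ j ih =>
      intro r hr
      rw [iteratedDerivWithin_succ]
      rw [derivWithin_congr ih (ih r hr)]
      exact ((hstep j r hr).hasDerivWithinAt).derivWithin ((uniqueDiffOn_Ioi 0) r hr)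
  have hdiff : ∀ (j : ℕ), DifferentiableOn ℝ (iteratedDerivWithin j (samp f θ) (Ioi 0)) (Ioi 0) := by
    intro j r hr
    have h1 : DifferentiableWithinAt ℝ (fun r : ℝ => (r⁻¹) ^ j * samp (FJ f j) θ r) (Ioi 0) r :=
      (hstep j r hr).differentiableAt.differentiableWithinAt
    exact h1.congr (hit j) (hit j r hr)
  refine ⟨?_, fun j => ?_⟩
  · exact contDiffOn_of_differentiableOn_deriv fun m _ => hdiff m
  · rw [hit j 1 (by simp : (1 : ℝ) ∈ Ioi 0)]
    simp

end Pool.Agent.Lib.MP96bed6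
end
end
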