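import Pool.Agent.Lib.MP_96bed6_an.W.Spec

section
/-!
# ST1: one step of the scheme
-/
set_option autoImplicit false

open MeasureTheory Filter Topology Set
open scoped ENNReal ContDiff NNReal

noncomputable section

namespace Pool.Agent.Lib.MP96bed6

namespace ST1M

theorem BD_mono {W : Type} [NormedAddCommGroup W] [NormedSpace ℝ W] {k : ℕ} {A B : ℝ} {f : E → W}
    (h : BD k A f) (hAB : A ≤ B) : BD k B f :=
  fun x => (h x).trans hAB

theorem BD_nonneg {W : Type} [NormedAddCommGroup W] [NormedSpace ℝ W] {k : ℕ} {A : ℝ} {f : E → W}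
    (h : BD k A f) : 0 ≤ A :=
  (norm_nonneg _).trans (h 0)

theorem BD_zero_iff {M : ℝ} {f : E → ℝ} : BD 0 M f ↔ ∀ x, |f x| ≤ M := by
  unfold BD
  simp only [norm_iteratedFDeriv_zero, Real.norm_eq_abs]

theorem step_eq (g : E → ℝ) (α κ h : ℝ) (f : E → ℝ) :
    step g α κ h f = fun x => shift g h f x - κ * h * lapH α h (shift g h f) x := rfl

theorem shift_eq (g : E → ℝ) (h : ℝ) (f : E → ℝ) :
    shift g h f = fun x => f (x - h • vel g f x) := rfl

theorem shift_smooth (hDIV : SpecDIV) {g : E → ℝ} (hg : IsSampler g) (h : ℝ) {f : E → ℝ}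
    (hf : ContDiff ℝ ∞ f) : ContDiff ℝ ∞ (shift g h f) := by
  rw [shift_eq]
  have h1 : ContDiff ℝ ∞ (fun x => h • vel g f x) := (hDIV g f hg hf).1.const_smul h
  exact hf.comp (contDiff_id.sub h1)

/-- The third part for the transport step. -/
theorem shift_high (hFDB : SpecFDB) (hTKB : SpecTKB) (hDIV : SpecDIV) {g : E → ℝ} (hg : IsSampler g)
    {k : ℕ} (hk : 2 ≤ k) {B : ℝ} (hB : 0 ≤ B) : ∃ C : ℝ, 0 ≤ C ∧ ∀ (h A : ℝ) (f : E → ℝ), 0 < h → h ≤ 1 →
      ContDiff ℝ ∞ f → 0 ≤ A → (∀ j, 1 ≤ j → j < k → BD j B f) → BD k A f →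
      BD k (A + h * (C * (1 + A))) (shift g h f) := by
  choose K hK0 hK using hTKB g hg
  set S : ℝ := ∑ j ∈ Finset.range k, K j with hS
  have hS0 : 0 ≤ S := Finset.sum_nonneg fun j _ => hK0 j
  have hKS : ∀ j, j < k → K j ≤ S := fun j hj =>
    Finset.single_le_sum (f := K) (fun i _ => hK0 i) (Finset.mem_range.2 hj)
  obtain ⟨C, hC0, hC⟩ := hFDB k hk ((1 + S) * B) (by positivity)
  refine ⟨C * (1 + K k), mul_nonneg hC0 (by linarith [hK0 k]), fun h A f hh hh1 hf hA hlow hkA => ?_⟩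
  have h1 := hC h A (K k * A) hh.le hh1 hA (mul_nonneg (hK0 k) hA) f (vel g f) hf (hDIV g f hg hf).1
    (fun j hj1 hjk => ⟨BD_mono (hlow j hj1 hjk) (by nlinarith), ?_⟩) hkA (hK k f A hf hA hkA)
  · rw [shift_eq]
    refine BD_mono h1 ?_
    have h2 : C * (1 + A + K k * A) ≤ C * (1 + K k) * (1 + A) := by
      have : 1 + A + K k * A ≤ (1 + K k) * (1 + A) := by nlinarith [hK0 k]
      calc C * (1 + A + K k * A) ≤ C * ((1 + K k) * (1 + A)) := mul_le_mul_of_nonneg_left this hC0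
        _ = C * (1 + K k) * (1 + A) := by ring
    nlinarith [mul_le_mul_of_nonneg_left h2 hh.le]
  · refine BD_mono (hK j f B hf hB (hlow j hj1 hjk)) ?_
    have := hKS j hjk
    nlinarith

theorem shift_one (hFDA : SpecFDA) (hTKB : SpecTKB) (hDIV : SpecDIV) {g : E → ℝ} (hg : IsSampler g) :
    ∃ K : ℝ, 0 ≤ K ∧ ∀ (h A : ℝ) (f : E → ℝ), 0 < h → ContDiff ℝ ∞ f → 0 ≤ A → BD 1 A f →
      BD 1 (A * (1 + h * (K * A))) (shift g h f) := by
  obtain ⟨K, hK0, hK⟩ := hTKB g hg 1
  refine ⟨K, hK0, fun h A f hh hf hA hA1 => ?_⟩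
  rw [shift_eq]
  exact hFDA h A (K * A) hh.le hA (mul_nonneg hK0 hA) f (vel g f) hf (hDIV g f hg hf).1 hA1
    (hK f A hf hA hA1)

theorem shift_SB (hFDA : SpecFDA) (hFDB : SpecFDB) (hTKB : SpecTKB) (hDIV : SpecDIV) {g : E → ℝ}
    (hg : IsSampler g) {h : ℝ} (hh : 0 < h) (hh1 : h ≤ 1) {f : E → ℝ} (hf : SB f) : SB (shift g h f) := by
  refine ⟨shift_smooth hDIV hg h hf.1, fun k => ?_⟩
  choose b hb using hf.2
  have hb0 : ∀ k, 0 ≤ b k := fun k => BD_nonneg (hb k)
  rcases (by omega : k = 0 ∨ k = 1 ∨ 2 ≤ k) with rfl | rfl | hk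
  · exact ⟨b 0, BD_zero_iff.2 fun x => BD_zero_iff.1 (hb 0) _⟩
  · obtain ⟨K, _, hK⟩ := shift_one hFDA hTKB hDIV hg
    exact ⟨_, hK h (b 1) f hh hf.1 (hb0 1) (hb 1)⟩
  · set B : ℝ := ∑ j ∈ Finset.range k, b j with hB
    have hB0 : 0 ≤ B := Finset.sum_nonneg fun j _ => hb0 j
    obtain ⟨C, _, hC⟩ := shift_high hFDB hTKB hDIV hg hk hB0
    exact ⟨_, hC h (b k) f hh hh1 hf.1 (hb0 k) (fun j _ hj => BD_mono (hb j)
      (Finset.single_le_sum (f := b) (fun i _ => hb0 i) (Finset.mem_range.2 hj))) (hb k)⟩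

end ST1M

open ST1M in
/-- **ST1**. -/
theorem specST1 (hAHB : SpecAHB) (hFDA : SpecFDA) (hFDB : SpecFDB) (hTKB : SpecTKB) (hDIV : SpecDIV) :
    SpecST1 := by
  intro g α κ hg hα hα2 hκ
  refine ⟨fun h f hh hh1 hs hf => ?_, ?_, fun k hk B hB => ?_⟩
  · have hF := shift_SB hFDA hFDB hTKB hDIV hg hh hh1 hf
    obtain ⟨h1, h2, _⟩ := hAHB α κ h hα hα2 hκ hh hs (shift g h f) hF
    rw [step_eq]
    refine ⟨h1, fun M hM => ?_⟩
    exact BD_zero_iff.1 (h2 0 M (BD_zero_iff.2 fun x => hM _))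
  · obtain ⟨K, hK0, hK⟩ := shift_one hFDA hTKB hDIV hg
    refine ⟨K, hK0, fun h A f hh hh1 hs hf hA hA1 => ?_⟩
    have hF := shift_SB hFDA hFDB hTKB hDIV hg hh hh1 hf
    obtain ⟨_, h2, _⟩ := hAHB α κ h hα hα2 hκ hh hs (shift g h f) hF
    rw [step_eq]
    exact h2 1 _ (hK h A f hh hf.1 hA hA1)
  · obtain ⟨C, hC0, hC⟩ := shift_high hFDB hTKB hDIV hg hk hB
    refine ⟨C, hC0, fun h A f hh hh1 hs hf hA hlow hkA => ?_⟩
    have hF := shift_SB hFDA hFDB hTKB hDIV hg hh hh1 hf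
    obtain ⟨_, h2, _⟩ := hAHB α κ h hα hα2 hκ hh hs (shift g h f) hF
    rw [step_eq]
    exact h2 k _ (hC h A f hh hh1 hf.1 hA hlow hkA)

end Pool.Agent.Lib.MP96bed6
end
end

section
/-! # STB: the derivatives of the stream function -/
set_option autoImplicit false

open MeasureTheory Filter Topology Set
open scoped ENNReal ContDiff NNReal

noncomputable section

namespace Pool.Agent.Lib.MP96bed6

namespace STBM

/-- the homogeneous parts of the Taylor polynomial at `0` -/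
def part (f : E → ℝ) (j : ℕ) (y : E) : ℝ :=
  (1 / (j.factorial : ℝ)) * iteratedFDeriv ℝ j f 0 (fun _ => y)

theorem part_cont (f : E → ℝ) (j : ℕ) : Continuous (part f j) := by
  unfold part
  exact continuous_const.mul ((iteratedFDeriv ℝ j f 0).cont.comp
    (continuous_pi fun _ => continuous_id))

theorem part_hom (f : E → ℝ) (j : ℕ) (r : ℝ) (y : E) : part f j (r • y) = r ^ j * part f j y := by
  unfold part
  have h1 : (iteratedFDeriv ℝ j f 0) (fun _ : Fin j => r • y) =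
      r ^ j * (iteratedFDeriv ℝ j f 0) (fun _ : Fin j => y) := by
    rw [ContinuousMultilinearMap.map_smul_univ]
    simp
  rw [h1]
  ring

theorem stream_add {g : E → ℝ} (h1 : Continuous (kern g)) (h2 : HasCompactSupport (kern g))
    {P R : E → ℝ} (hP : Continuous P) (hR : Continuous R) :
    stream g (fun y => P y + R y) = fun x => stream g P x + stream g R x := by
  funext x
  have hi : ∀ F : E → ℝ, Continuous F → Integrable (fun z => F (‖x‖ • z) * kern g z) volume := by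
    intro F hF
    exact ((hF.comp (continuous_const_smul ‖x‖)).mul h1).integrable_of_hasCompactSupport
      h2.mul_left
  unfold stream
  rw [← mul_add, ← integral_add (hi P hP) (hi R hR)]
  congr 1
  refine integral_congr_ae (Eventually.of_forall fun z => ?_)
  change (P (‖x‖ • z) + R (‖x‖ • z)) * kern g z = P (‖x‖ • z) * kern g z + R (‖x‖ • z) * kern g z
  ring

end STBM

theorem specSTB (hTAY : SpecTAY) (hPOL : SpecPOL) (hSCL : SpecSCL) (hSMO : SpecSMO)
    (hSUPP : SpecSUPP) : SpecSTB := by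
  intro g hg k
  obtain ⟨-, s1, s2, -⟩ := hSUPP g hg
  obtain ⟨K, hK, hS⟩ := hSCL g hg k
  refine ⟨K, hK, fun f A hf hA hB => ?_⟩
  set P : E → ℝ := fun y => ∑ j ∈ Finset.range k, STBM.part f j y with hP
  have hPc : Continuous P := continuous_finset_sum _ fun j _ => STBM.part_cont f j
  set R : E → ℝ := fun y => f y - P y with hR
  have hRc : Continuous R := hf.continuous.sub hPc
  obtain ⟨p1, p2⟩ := hPOL g hg k (STBM.part f) (STBM.part_cont f) (STBM.part_hom f)
  have hsf : ContDiff ℝ ∞ (stream g f) := hSMO g f hg hf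
  have hsum : stream g f = fun x => stream g P x + stream g R x := by
    rw [← STBM.stream_add s1.continuous s2 hPc hRc]
    congr 1
    funext y
    rw [hR]
    ring
  have hsR : stream g R = fun x => stream g f x - stream g P x := by
    funext x
    rw [congrFun hsum x]
    ring
  have hder : ∀ x, iteratedFDeriv ℝ (k + 1) (stream g R) x
      = iteratedFDeriv ℝ (k + 1) (stream g f) x := by
    intro x
    have h1 : iteratedFDeriv ℝ (k + 1) (stream g f - stream g P) x =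
        iteratedFDeriv ℝ (k + 1) (stream g f) x - iteratedFDeriv ℝ (k + 1) (stream g P) x :=
      iteratedFDeriv_sub_apply ((hsf.of_le (by exact_mod_cast le_top)).contDiffAt)
        ((p1.of_le (by exact_mod_cast le_top)).contDiffAt)
    have h2 : stream g R = stream g f - stream g P := hsR
    rw [h2, h1]
    have h3 : iteratedFDeriv ℝ (k + 1) (stream g P) x = 0 := p2 x
    rw [h3, sub_zero]
  have hRb : ∀ y, |R y| ≤ A * ‖y‖ ^ k := fun y => hTAY k f A hf hA hB y
  have hne : ∀ x : E, x ≠ 0 → ‖iteratedFDeriv ℝ (k + 1) (stream g f) x‖ ≤ K * A := by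
    intro x hx
    rw [← hder x]
    exact hS R A hRc hA hRb x hx
  have hcl : IsClosed {x : E | ‖iteratedFDeriv ℝ (k + 1) (stream g f) x‖ ≤ K * A} := by
    refine isClosed_le ?_ continuous_const
    exact (hsf.continuous_iteratedFDeriv (by exact_mod_cast le_top)).norm
  have hden : Dense ({0}ᶜ : Set E) := dense_compl_singleton 0
  intro x
  have h1 : x ∈ closure ({0}ᶜ : Set E) := hden x
  have h2 : closure ({0}ᶜ : Set E) ⊆ {x : E | ‖iteratedFDeriv ℝ (k + 1) (stream g f) x‖ ≤ K * A} :=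
    hcl.closure_subset_iff.2 fun y hy => hne y hy
  exact h2 h1

end Pool.Agent.Lib.MP96bed6
end
end

section
/-!
# MP_96bed6_an, part W, TAY: Taylor at `0`
-/
set_option autoImplicit false

open MeasureTheory Filter Topology Set
open scoped ENNReal ContDiff NNReal

noncomputable section

namespace Pool.Agent.Lib.MP96bed6

namespace TAYM

/-- the line through `y` -/
def line (y : E) : ℝ →L[ℝ] E := ContinuousLinearMap.toSpanSingleton ℝ y

theorem line_apply (y : E) (t : ℝ) : line y t = t • y := by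
  simp [line]

theorem iteratedDeriv_line {f : E → ℝ} (hf : ContDiff ℝ ∞ f) (y : E) (j : ℕ) (t : ℝ) :
    iteratedDeriv j (f ∘ line y) t = iteratedFDeriv ℝ j f (t • y) (fun _ => y) := by
  rw [iteratedDeriv_eq_iteratedFDeriv,
    (line y).iteratedFDeriv_comp_right hf t (by exact_mod_cast le_top)]
  simp [line_apply]

theorem bound_line {f : E → ℝ} {A : ℝ} {k : ℕ} (hA : BD k A f) (y x : E) :
    ‖iteratedFDeriv ℝ k f x (fun _ => y)‖ ≤ A * ‖y‖ ^ k := by
  refine (ContinuousMultilinearMap.le_opNorm _ _).trans ?_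
  rw [Finset.prod_const, Finset.card_univ, Fintype.card_fin]
  exact mul_le_mul_of_nonneg_right (hA x) (by positivity)

end TAYM

open TAYM in
theorem specTAY : SpecTAY := by
  intro k f A hf hA hk y
  rcases k with _ | n
  · have h := hk y
    rw [norm_iteratedFDeriv_zero, Real.norm_eq_abs] at h
    simpa using h
  · have hφ : ContDiff ℝ ∞ (f ∘ line y) := hf.comp (line y).contDiff
    have hud : UniqueDiffOn ℝ (Icc (0 : ℝ) 1) := uniqueDiffOn_Icc one_pos
    have hw : ∀ (j : ℕ) (t : ℝ), t ∈ Icc (0 : ℝ) 1 →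
        iteratedDerivWithin j (f ∘ line y) (Icc 0 1) t = iteratedFDeriv ℝ j f (t • y) (fun _ => y) := by
      intro j t ht
      rw [← iteratedDeriv_line hf y j t]
      exact iteratedDerivWithin_eq_iteratedDeriv hud
        ((hφ.of_le (by exact_mod_cast le_top)).contDiffAt) ht
    have h := taylor_mean_remainder_bound (f := f ∘ line y) (a := 0) (b := 1) (x := 1) (n := n)
      (C := A * ‖y‖ ^ (n + 1)) zero_le_one ((hφ.of_le (by exact_mod_cast le_top)).contDiffOn)
      ⟨zero_le_one, le_rfl⟩ (fun t ht => by rw [hw (n + 1) t ht]; exact bound_line hk y _)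
    have h1 : taylorWithinEval (f ∘ line y) n (Icc 0 1) 0 1 =
        ∑ j ∈ Finset.range (n + 1), (1 / (j.factorial : ℝ)) *
          iteratedFDeriv ℝ j f 0 (fun _ => y) := by
      rw [taylor_within_apply]
      refine Finset.sum_congr rfl fun j _ => ?_
      rw [hw j 0 ⟨le_rfl, zero_le_one⟩, zero_smul]
      simp
    rw [h1] at h
    have h2 : (f ∘ line y) 1 = f y := by simp [line_apply]
    rw [h2, Real.norm_eq_abs] at h
    refine h.trans ?_
    have h3 : (1 : ℝ) ≤ (n.factorial : ℝ) := by exact_mod_cast Nat.one_le_iff_ne_zero.2 n.factorial_ne_zero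
    rw [sub_zero, one_pow, mul_one]
    exact div_le_self (by positivity) h3

end Pool.Agent.Lib.MP96bed6
end
end

section
/-! # TKB: the derivatives of the velocity -/
set_option autoImplicit false

open MeasureTheory Filter Topology Set
open scoped ENNReal ContDiff NNReal

noncomputable section

namespace Pool.Agent.Lib.MP96bed6

namespace TKBM

/-- the rotation of a gradient -/
def J : (E →L[ℝ] ℝ) →L[ℝ] E :=
  LinearMap.toContinuousLinearMap
    { toFun := fun l => !₂[-(l e1), l e0]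
      map_add' := by
        intro l m
        ext i
        fin_cases i
        · simp
          ring
        · simp
      map_smul' := by
        intro c l
        ext i
        fin_cases i
        · simp
        · simp }

theorem vel_eq (g f : E → ℝ) : vel g f = J ∘ fderiv ℝ (stream g f) := rfl

end TKBM

theorem specTKB (hSTB : SpecSTB) (hSMO : SpecSMO) : SpecTKB := by
  intro g hg k
  obtain ⟨K, hK, h⟩ := hSTB g hg k
  refine ⟨‖TKBM.J‖ * K, by positivity, fun f A hf hA hB x => ?_⟩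
  have h1 : ContDiff ℝ ∞ (stream g f) := hSMO g f hg hf
  have h2 : ContDiff ℝ ∞ (fderiv ℝ (stream g f)) := h1.fderiv_right (by simp)
  rw [TKBM.vel_eq]
  have h3 := TKBM.J.norm_iteratedFDeriv_comp_left (x := x) (n := k) (h2.contDiffAt (x := x))
    (by exact_mod_cast le_top)
  rw [norm_iteratedFDeriv_fderiv] at h3
  refine h3.trans ?_
  rw [mul_assoc]
  exact mul_le_mul_of_nonneg_left (h f A hf hA hB x) (norm_nonneg _)

end Pool.Agent.Lib.MP96bed6
end
end

section
/-!
# MP_96bed6_an, part W, module UNI: uniform convergence on balls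
-/
set_option autoImplicit false

open MeasureTheory Filter Topology Set
open scoped ENNReal ContDiff NNReal

noncomputable section

namespace Pool.Agent.Lib.MP96bed6

theorem specUNI : SpecUNI := by
  intro 𝒰 f fl A hA hlim
  have hfl : ∀ y z, |fl y - fl z| ≤ A * ‖y - z‖ := by
    intro y z
    have h1 : Tendsto (fun N => |f N y - f N z|) 𝒰 (𝓝 |fl y - fl z|) := ((hlim y).sub (hlim z)).abs
    exact le_of_tendsto h1 (Eventually.of_forall fun N => hA N y z)
  refine ⟨hfl, ?_⟩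
  intro R ε hε
  set B : ℝ := |A| + 1 with hB
  have hB0 : 0 < B := by positivity
  have hAB : A ≤ B := by
    have := le_abs_self A
    linarith
  have hδ : 0 < ε / (3 * B) := by positivity
  obtain ⟨t, -, htf, ht⟩ := (isCompact_closedBall (0 : E) R).elim_finite_subcover_image
    (b := univ) (c := fun x : E => Metric.ball x (ε / (3 * B))) (fun _ _ => Metric.isOpen_ball)
    (fun x _ => mem_iUnion₂.mpr ⟨x, mem_univ _, Metric.mem_ball_self hδ⟩)
  have hev : ∀ᶠ N in (𝒰 : Filter ℕ), ∀ c ∈ t, |f N c - fl c| ≤ ε / 3 := by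
    rw [htf.eventually_all]
    intro c _
    have h1 : Tendsto (fun N => |f N c - fl c|) 𝒰 (𝓝 |fl c - fl c|) := ((hlim c).sub tendsto_const_nhds).abs
    rw [sub_self, abs_zero] at h1
    exact (h1.eventually (gt_mem_nhds (show (0 : ℝ) < ε / 3 by positivity))).mono fun N hN => le_of_lt hN
  refine hev.mono ?_
  intro N hN y hy
  have hy' : y ∈ Metric.closedBall (0 : E) R := by simpa using hy
  obtain ⟨c, hc, hyc⟩ := mem_iUnion₂.mp (ht hy')
  have hd : ‖y - c‖ < ε / (3 * B) := by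
    rw [← dist_eq_norm]; exact Metric.mem_ball.mp hyc
  have hbd : A * ‖y - c‖ ≤ ε / 3 := by
    calc A * ‖y - c‖ ≤ B * ‖y - c‖ := mul_le_mul_of_nonneg_right hAB (norm_nonneg _)
      _ ≤ B * (ε / (3 * B)) := mul_le_mul_of_nonneg_left hd.le hB0.le
      _ = ε / 3 := by field_simp
  have h1 := hA N y c
  have h2 := hfl y c
  have h3 := hN c hc
  rw [abs_le] at h1 h2 h3 ⊢
  constructor <;> linarith [h1.1, h1.2, h2.1, h2.2, h3.1, h3.2]

end Pool.Agent.Lib.MP96bed6
end
end

section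
/-!
# MP_96bed6_an, part W, module UNQ: uniqueness
-/
set_option autoImplicit false

open MeasureTheory Filter Topology Set
open scoped ENNReal ContDiff NNReal

noncomputable section

namespace Pool.Agent.Lib.MP96bed6

namespace UNQM

/-- A continuous function that tends to `0` at infinity is bounded. -/
lemma bounded_of_decay (f : E → ℝ) (hf : Continuous f)
    (hd : ∀ η : ℝ, 0 < η → ∃ R : ℝ, ∀ x : E, R ≤ ‖x‖ → |f x| ≤ η) : ∃ M : ℝ, ∀ x, |f x| ≤ M := by
  obtain ⟨R, hR⟩ := hd 1 one_pos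
  obtain ⟨C, hC⟩ := (isCompact_closedBall (0 : E) R).exists_bound_of_continuousOn hf.continuousOn
  refine ⟨max C 1, fun x => ?_⟩
  by_cases hx : R ≤ ‖x‖
  · exact (hR x hx).trans (le_max_right _ _)
  · have h1 := hC x (by rw [mem_closedBall_zero_iff]; exact (not_le.1 hx).le)
    rw [Real.norm_eq_abs] at h1
    exact h1.trans (le_max_left _ _)

/-- A function on an interval that is positive before `t` and zero at `t` has a nonpositive derivative at `t`. -/
lemma deriv_nonpos_of_touch (φ : ℝ → ℝ) (t d : ℝ) (ht : 0 < t) (hφ : HasDerivAt φ d t) (h0 : φ t = 0)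
    (hpos : ∀ s ∈ Ico 0 t, 0 < φ s) : d ≤ 0 := by
  have h1 : Tendsto (slope φ t) (𝓝[<] t) (𝓝 d) :=
    (hasDerivAt_iff_tendsto_slope.1 hφ).mono_left (nhdsWithin_mono _ (fun y hy => ne_of_lt hy))
  refine le_of_tendsto h1 ?_
  have h2 : ∀ᶠ s in 𝓝[<] t, s ∈ Ioo 0 t := Ioo_mem_nhdsLT ht
  filter_upwards [h2] with s hs
  rw [slope_def_field, h0]
  have h3 := hpos s ⟨hs.1.le, hs.2⟩
  have h4 : s - t < 0 := by linarith [hs.2]
  have h5 : 0 < φ s - 0 := by linarith
  exact (div_neg_of_pos_of_neg h5 h4).le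

end UNQM

open UNQM

theorem specUNQ (hCPT : SpecCPT) (hSUP : SpecSUP) (hLIN : SpecLIN) (hFLC : SpecFLC) : SpecUNQ := by
  intro g α κ hg hα0 hα1 hκ T₁ T₂ θ₀ θ₁ θ₂ h1 h2 hB t₁ ht₁
  obtain ⟨K, hK0, hK⟩ := hSUP g hg
  rcases eq_or_lt_of_le ht₁.1 with h0 | h0
  · rw [← h0, h1.init, h2.init]
  have htT1 : t₁ < T₁ := lt_of_lt_of_le ht₁.2 (min_le_left _ _)
  have htT2 : t₁ < T₂ := lt_of_lt_of_le ht₁.2 (min_le_right _ _)
  obtain ⟨A', hA'⟩ := hB t₁ ⟨ht₁.1, htT2⟩
  set A : ℝ := max A' 0 with hAdef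
  have hA0 : 0 ≤ A := le_max_right _ _
  have hA : ∀ s ∈ Icc (0 : ℝ) t₁, ∀ x, ‖fderiv ℝ (θ₂ s) x‖ ≤ A := by
    intro s hs x
    have := hA' s hs x
    rw [norm_iteratedFDeriv_one] at this
    exact this.trans (le_max_left _ _)
  set B : ℝ := K * A + 1 with hBdef
  have hcont : ∀ (T' : ℝ) (θ : ℝ → E → ℝ), IsSolOn α κ T' (law g) θ₀ θ → ∀ s ∈ Ico (0 : ℝ) T', Continuous (θ s) := by
    intro T' θ hθ s hs
    have h3 : ContinuousOn (fun x : E => θ s x) univ := by
      have : ContinuousOn (fun x : E => ((s, x) : ℝ × E)) univ := by fun_prop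
      exact hθ.cont.comp this (fun x _ => ⟨hs, mem_univ _⟩)
    exact continuousOn_univ.1 h3
  have hbdd : ∀ (T' : ℝ) (θ : ℝ → E → ℝ), IsSolOn α κ T' (law g) θ₀ θ → ∀ s ∈ Ico (0 : ℝ) T', ∃ M, ∀ x, |θ s x| ≤ M := by
    intro T' θ hθ s hs
    refine bounded_of_decay (θ s) (hcont T' θ hθ s hs) (fun η hη => ?_)
    obtain ⟨R, hR⟩ := hθ.decay s hs η hη
    exact ⟨R, fun x hx => hR s ⟨hs.1, le_rfl⟩ x hx⟩
  -- the claim
  have claim : ∀ ε : ℝ, 0 < ε → ∀ t ∈ Icc (0 : ℝ) t₁, ∀ x, |θ₁ t x - θ₂ t x| < ε * Real.exp (B * t) := by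
    intro ε hε
    by_contra hcon
    push Not at hcon
    obtain ⟨t, ht, x, htx⟩ := hcon
    obtain ⟨R₁, hR₁⟩ := h1.decay t₁ ⟨ht₁.1, htT1⟩ (ε / 3) (by positivity)
    obtain ⟨R₂, hR₂⟩ := h2.decay t₁ ⟨ht₁.1, htT2⟩ (ε / 3) (by positivity)
    set σ : Fin 2 → ℝ := ![1, -1] with hσ
    set D : Fin 2 → ℝ → E → ℝ := fun i t x => ε * Real.exp (B * t) - σ i * (θ₁ t x - θ₂ t x) with hD
    have hσabs : ∀ i, |σ i| = 1 := by intro i; fin_cases i <;> simp [hσ]
    have hσσ : ∀ i, σ i * σ i = 1 := by intro i; fin_cases i <;> simp [hσ]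
    have hsub : Icc (0 : ℝ) t₁ ×ˢ (univ : Set E) ⊆ Ico 0 T₁ ×ˢ univ :=
      prod_mono (fun s hs => ⟨hs.1, lt_of_le_of_lt hs.2 htT1⟩) le_rfl
    have hsub2 : Icc (0 : ℝ) t₁ ×ˢ (univ : Set E) ⊆ Ico 0 T₂ ×ˢ univ :=
      prod_mono (fun s hs => ⟨hs.1, lt_of_le_of_lt hs.2 htT2⟩) le_rfl
    have hexp1 : ∀ t, 0 ≤ t → 1 ≤ Real.exp (B * t) := by
      intro t ht
      apply Real.one_le_exp
      have : 0 ≤ B := by positivity
      positivity
    obtain ⟨i, t, ht, x, hDx, hDs, hDt⟩ := hCPT t₁ (max R₁ R₂) D h0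
      (by
        intro i
        have c1 := h1.cont.mono hsub
        have c2 := h2.cont.mono hsub2
        have c3 : ContinuousOn (fun p : ℝ × E => ε * Real.exp (B * p.1)) (Icc 0 t₁ ×ˢ univ) := by fun_prop
        exact c3.sub (continuousOn_const.mul (c1.sub c2)))
      (by
        intro i x
        simp only [hD, h1.init, h2.init, sub_self, mul_zero, Real.exp_zero, mul_one, sub_zero]
        exact hε)
      (by
        intro i t ht x hx
        have a1 := hR₁ t ht x ((le_max_left _ _).trans hx)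
        have a2 := hR₂ t ht x ((le_max_right _ _).trans hx)
        have a3 : |σ i * (θ₁ t x - θ₂ t x)| ≤ ε / 3 + ε / 3 := by
          rw [abs_mul, hσabs, one_mul]
          exact (abs_sub _ _).trans (add_le_add a1 a2)
        have a4 := (abs_le.1 a3).2
        have a5 := hexp1 t ht.1
        simp only [hD]
        nlinarith)
      (by
        rcases le_abs.1 htx with h | h
        · exact ⟨0, t, ht, x, by simp only [hD, hσ, Matrix.cons_val_zero, one_mul]; linarith⟩
        · exact ⟨1, t, ht, x, by simp only [hD, hσ, Matrix.cons_val_one, Matrix.cons_val_fin_one]; linarith⟩)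
    have htpos : 0 < t := ht.1
    have htI : t ∈ Icc (0 : ℝ) t₁ := ⟨ht.1.le, ht.2⟩
    have ht1 : t ∈ Ioo (0 : ℝ) T₁ := ⟨ht.1, lt_of_le_of_lt ht.2 htT1⟩
    have ht2 : t ∈ Ioo (0 : ℝ) T₂ := ⟨ht.1, lt_of_le_of_lt ht.2 htT2⟩
    set e : ℝ := ε * Real.exp (B * t) with he
    have hepos : 0 < e := by positivity
    -- values at time `t`
    have hval : σ i * (θ₁ t x - θ₂ t x) = e := by
      have := hDx
      simp only [hD] at this
      linarith
    have hle : ∀ y, σ i * (θ₁ t y - θ₂ t y) ≤ e := by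
      intro y
      have := hDt i y
      simp only [hD] at this
      linarith
    have habs : ∀ y, |1 * θ₁ t y + (-1) * θ₂ t y| ≤ e := by
      intro y
      have b0 := hDt 0 y
      have b1 := hDt 1 y
      simp only [hD, hσ, Matrix.cons_val_zero, Matrix.cons_val_one, Matrix.cons_val_fin_one] at b0 b1
      rw [abs_le]
      constructor <;> linarith
    -- time derivative
    have d1 := (h1.dt t ht1 x).hasDerivAt
    have d2 := (h2.dt t ht2 x).hasDerivAt
    have hφ : HasDerivAt (fun s => D i s x)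
        (ε * (Real.exp (B * t) * B) - σ i * (deriv (fun s => θ₁ s x) t - deriv (fun s => θ₂ s x) t)) t := by
      have e1 : HasDerivAt (fun s : ℝ => ε * Real.exp (B * s)) (ε * (Real.exp (B * t) * B)) t := by
        have : HasDerivAt (fun s : ℝ => B * s) B t := by simpa using (hasDerivAt_id t).const_mul B
        exact (this.exp).const_mul ε
      exact e1.sub ((d1.sub d2).const_mul (σ i))
    have hd := deriv_nonpos_of_touch (fun s => D i s x) t _ htpos hφ hDx (fun s hs => hDs i s hs x)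
    -- space derivative
    have g1 := (h1.dx t ht1 x).hasFDerivAt
    have g2 := (h2.dx t ht2 x).hasFDerivAt
    have hmax : IsLocalMax (fun y => σ i * (θ₁ t y - θ₂ t y)) x := by
      refine Filter.Eventually.of_forall (fun y => ?_)
      show σ i * (θ₁ t y - θ₂ t y) ≤ σ i * (θ₁ t x - θ₂ t x)
      rw [hval]; exact hle y
    have hgz : σ i • (fderiv ℝ (θ₁ t) x - fderiv ℝ (θ₂ t) x) = 0 :=
      hmax.hasFDerivAt_eq_zero ((g1.sub g2).const_mul (σ i))
    have hσne : σ i ≠ 0 := by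
      intro h
      have := hσabs i
      rw [h] at this; simp at this
    have hgrad : fderiv ℝ (θ₁ t) x = fderiv ℝ (θ₂ t) x := by
      rcases smul_eq_zero.1 hgz with h | h
      · exact absurd h hσne
      · exact sub_eq_zero.1 h
    -- the fractional Laplacian
    have c1 := hcont T₁ θ₁ h1 t ⟨ht1.1.le, ht1.2⟩
    have c2 := hcont T₂ θ₂ h2 t ⟨ht2.1.le, ht2.2⟩
    obtain ⟨M₁, hM₁⟩ := hbdd T₁ θ₁ h1 t ⟨ht1.1.le, ht1.2⟩
    obtain ⟨M₂, hM₂⟩ := hbdd T₂ θ₂ h2 t ⟨ht2.1.le, ht2.2⟩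
    have hM₁' : ∀ y, |θ₁ t y| ≤ max M₁ M₂ := fun y => (hM₁ y).trans (le_max_left _ _)
    have hM₂' : ∀ y, |θ₂ t y| ≤ max M₁ M₂ := fun y => (hM₂ y).trans (le_max_right _ _)
    have hΛ : 0 ≤ σ i * (fracLap α (θ₁ t) x - fracLap α (θ₂ t) x) := by
      fin_cases i
      · simp only [hσ, Fin.zero_eta, Matrix.cons_val_zero, one_mul] at hval hle ⊢
        have := hFLC α hα0 hα1 (θ₂ t) (θ₁ t) (max M₁ M₂) x c2 c1 hM₂' hM₁' (h2.dx t ht2 x) (h1.dx t ht1 x)
          (fun y => by have := hle y; linarith)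
        linarith
      · simp only [hσ, Fin.mk_one, Matrix.cons_val_one, Matrix.cons_val_fin_one] at hval hle ⊢
        have := hFLC α hα0 hα1 (θ₁ t) (θ₂ t) (max M₁ M₂) x c1 c2 hM₁' hM₂' (h1.dx t ht1 x) (h2.dx t ht2 x)
          (fun y => by have := hle y; linarith)
        linarith
    -- the equations
    have q1 := h1.eqn t ht1 x
    have q2 := h2.eqn t ht2 x
    simp only [law] at q1 q2
    have hlin := hLIN g (θ₁ t) (θ₂ t) hg c1 c2 1 (-1) x
    have hvel : ‖vel g (fun y => 1 * θ₁ t y + (-1) * θ₂ t y) x‖ ≤ K * e :=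
      hK _ (by fun_prop) e habs x
    have hL : |fderiv ℝ (θ₂ t) x (vel g (fun y => 1 * θ₁ t y + (-1) * θ₂ t y) x)| ≤ A * (K * e) := by
      rw [← Real.norm_eq_abs]
      exact (ContinuousLinearMap.le_opNorm _ _).trans
        (mul_le_mul (hA t htI x) hvel (norm_nonneg _) hA0)
    have hLe : fderiv ℝ (θ₂ t) x (vel g (fun y => 1 * θ₁ t y + (-1) * θ₂ t y) x) =
        fderiv ℝ (θ₂ t) x (vel g (θ₁ t) x) - fderiv ℝ (θ₂ t) x (vel g (θ₂ t) x) := by
      rw [hlin]
      simp [sub_eq_add_neg]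
    rw [hgrad] at q1
    have hdiff : deriv (fun s => θ₁ s x) t - deriv (fun s => θ₂ s x) t =
        -(fderiv ℝ (θ₂ t) x (vel g (fun y => 1 * θ₁ t y + (-1) * θ₂ t y) x)) -
          κ * (fracLap α (θ₁ t) x - fracLap α (θ₂ t) x) := by
      rw [hLe]; linarith
    rw [hdiff] at hd
    have hLs : |σ i * fderiv ℝ (θ₂ t) x (vel g (fun y => 1 * θ₁ t y + (-1) * θ₂ t y) x)| ≤ A * (K * e) := by
      rw [abs_mul, hσabs, one_mul]; exact hL
    have hLs' := (abs_le.1 hLs).1
    have hk : 0 ≤ κ * (σ i * (fracLap α (θ₁ t) x - fracLap α (θ₂ t) x)) := mul_nonneg hκ hΛ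
    have hfin : ε * (Real.exp (B * t) * B) ≤ A * (K * e) := by
      set Lv := fderiv ℝ (θ₂ t) x (vel g (fun y => 1 * θ₁ t y + (-1) * θ₂ t y) x) with hLv
      set Δ := fracLap α (θ₁ t) x - fracLap α (θ₂ t) x with hΔ
      have : σ i * (-Lv - κ * Δ) = -(σ i * Lv) - κ * (σ i * Δ) := by ring
      rw [this] at hd
      linarith
    have : e * B ≤ A * (K * e) := by
      have h8 : ε * (Real.exp (B * t) * B) = e * B := by rw [he]; ring
      linarith
    rw [hBdef] at this
    nlinarith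
  funext x
  have h9 : ∀ ε : ℝ, 0 < ε → |θ₁ t₁ x - θ₂ t₁ x| ≤ ε := by
    intro ε hε
    have hp : 0 < Real.exp (B * t₁) := Real.exp_pos _
    have := claim (ε / Real.exp (B * t₁)) (by positivity) t₁ ⟨ht₁.1, le_rfl⟩ x
    rw [div_mul_cancel₀ _ hp.ne'] at this
    exact this.le
  have h10 : |θ₁ t₁ x - θ₂ t₁ x| ≤ 0 := le_of_forall_pos_le_add (fun ε hε => by simpa using h9 ε hε)
  exact sub_eq_zero.1 (abs_nonpos_iff.1 h10)

end Pool.Agent.Lib.MP96bed6
end
end
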