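import Pool.Agent.Lib.MP_96bed6_an.W.Spec3
import Pool.Agent.Lib.MP_96bed6_an.All
import Pool.Agent.Lib.MP_96bed6_an.FIN3
import Pool.Agent.Lib.MP_96bed6_an.W.SMJ
import Pool.Agent.Lib.MP_96bed6_an.W.UNQ

section
/-!
# MP_96bed6_an, WPB3: the maximal smooth solution of the data of FIN has finite life span
-/
set_option autoImplicit false

open MeasureTheory Filter Topology Set
open scoped ENNReal ContDiff NNReal

noncomputable section

namespace Pool.Agent.Lib.MP96bed6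

namespace WPB3M

/-- smooth functions with compact support are `SB` -/
lemma sb_of {f : E → ℝ} (h1 : ContDiff ℝ ∞ f) (h2 : HasCompactSupport f) : SB f := by
  refine ⟨h1, fun k => ?_⟩
  have h3 : Continuous (iteratedFDeriv ℝ k f) := h1.continuous_iteratedFDeriv (by exact_mod_cast le_top)
  have h4 : HasCompactSupport (iteratedFDeriv ℝ k f) := h2.iteratedFDeriv k
  obtain ⟨C, hC⟩ := h3.bounded_above_of_compact_support h4
  exact ⟨C, hC⟩

lemma decay_of {f : E → ℝ} (h2 : HasCompactSupport f) :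
    ∀ η : ℝ, 0 < η → ∃ R : ℝ, ∀ x : E, R ≤ ‖x‖ → |f x| ≤ η := by
  intro η hη
  obtain ⟨R, hR⟩ := h2.isCompact.isBounded.subset_closedBall (0 : E)
  refine ⟨R + 1, fun x hx => ?_⟩
  have h3 : x ∉ tsupport f := by
    intro h4
    have h5 := hR h4
    rw [mem_closedBall_zero_iff] at h5
    linarith
  rw [image_eq_zero_of_notMem_tsupport h3, abs_zero]
  exact hη.le

lemma bd_one_iff {f : E → ℝ} {A : ℝ} : BD 1 A f ↔ ∀ x, ‖fderiv ℝ f x‖ ≤ A := by
  unfold BD
  simp only [norm_iteratedFDeriv_one]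

end WPB3M

open WPB3M

theorem specWPB3 (hFIN3 : SpecFIN3) (hCNT : SpecCNT) (hUNQ : SpecUNQ) (hGLU : SpecGLU) : SpecWPB3 := by
  intro g hg α κ hα hα2 hκ
  obtain ⟨c, hc, hex, hcont⟩ := hCNT g α κ hg hα hα2 hκ
  refine ⟨c, hc, ?_, ?_, ?_⟩
  · intro θ₀ A h1 h2 hA h3
    exact hex θ₀ A (sb_of h1 h2) (decay_of h2) hA (bd_one_iff.2 h3)
  · intro T₁ T₂ θ₀ θ₁ θ₂ h1 h2
    exact hUNQ g α κ hg hα hα2 hκ T₁ T₂ θ₀ θ₁ θ₂ h1 h2.sol (h2.bdd 1)
  · intro M τ hM hτ
    obtain ⟨θ₁, ε, Ts, hsm1, hcs1, hε, hbd, hTs0, hTs, hfin⟩ := hFIN3 g hg α κ M τ hα hα2 hκ hM hτ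
    refine ⟨θ₁, ε, Ts, hsm1, hcs1, hε, hbd, hTs0, hTs, ?_⟩
    intro θ₀ hsm hcs hclose
    refine ⟨?_, hfin θ₀ hclose⟩
    have hlaw : (fun (_ : ℝ) (f : E → ℝ) (x : E) => vel g f x + (0 : E)) = law g := by
      funext t f x
      simp [law]
    have hle : ∀ (T' : ℝ) (θ : ℝ → E → ℝ), 0 < T' → IsSmooth α κ T' (law g) θ₀ θ → T' ≤ Ts := by
      intro T' θ hT' hθ
      have h1 := hfin θ₀ hclose (fun _ _ _ => 0) (fun t f _ _ x => by
        rw [norm_zero]
        have h2 : 0 ≤ ∫ z, g z := integral_nonneg fun z => hg.nonneg z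
        positivity) T' θ hT' (by rw [hlaw]; exact hθ.sol)
      exact h1.1
    obtain ⟨A, hA⟩ := (sb_of hsm hcs).2 1
    have hA0 : 0 ≤ A := (norm_nonneg _).trans (hA 0)
    obtain ⟨η, hη⟩ := hex θ₀ (A + 1) (sb_of hsm hcs) (decay_of hcs) (by linarith)
      (fun x => (hA x).trans (by linarith))
    obtain ⟨Tm, θ, hTm0, hTmle, hθ, hmax⟩ := hGLU g α κ Ts θ₀ hg hα hα2 hκ
      ⟨c / (A + 1), η, by positivity, hη⟩ hle
    refine ⟨Tm, θ, hTm0, hTmle, hθ, hmax, ?_⟩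
    intro t ht B hB hBt
    by_contra hcon
    push Not at hcon
    have h1 : Tm < t + c / B := by
      have h2 : Tm - t < c / B := by
        rw [lt_div_iff₀ hB]; linarith
      linarith
    obtain ⟨θ', hθ'⟩ := hcont Tm t B θ₀ θ hθ ht hB (bd_one_iff.2 hBt) h1
    have h3 := hmax (t + c / B) θ' (by have := ht.1; positivity) hθ'
    linarith

end Pool.Agent.Lib.MP96bed6
end
end

section
/-!
# MP_96bed6_an, part W: assembly
-/
set_option autoImplicit false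

noncomputable section

namespace Pool.Agent.Lib.MP96bed6

theorem aCORE3 : SpecCORE3 := specCORE3 aTCH aCPT aMAX aFLA aFLB aBVL aBDX aBDT aBLP aBCT aINQ aSAM aSUPP
theorem aFIN3 : SpecFIN3 := specFIN3 aCORE3 aLIFT aDAT aBVL aSUPP aMAX aFLA
theorem aAVG : SpecAVG := specAVG 
theorem aFDA : SpecFDA := specFDA 
theorem aFDB : SpecFDB := specFDB 
theorem aFDC : SpecFDC := specFDC 
theorem aGLS : SpecGLS := specGLS 
theorem aHOM : SpecHOM := specHOM 
theorem aKHI : SpecKHI := specKHI aINT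
theorem aLHB : SpecLHB := specLHB aINT
theorem aLHL : SpecLHL := specLHL aKHI
theorem aLMC : SpecLMC := specLMC 
theorem aPOL : SpecPOL := specPOL aSUPP aHOM
theorem aSHT : SpecSHT := specSHT 
theorem aSMJ : SpecSMJ := specSMJ aDER
theorem aTAY : SpecTAY := specTAY 
theorem aUNI : SpecUNI := specUNI 
theorem aUNQ : SpecUNQ := specUNQ aCPT aSUP aLIN aFLC
theorem aAHM : SpecAHM := specAHM aKHI
theorem aDCY : SpecDCY := specDCY aAHM aLHB aSUP aDIV
theorem aGLU : SpecGLU := specGLU aUNQ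
theorem aLML : SpecLML := specLML aUNI aINT
theorem aLMT : SpecLMT := specLMT aUNI aVEL aSUPP
theorem aREM : SpecREM := specREM aSMJ aSUPP
theorem aSCL : SpecSCL := specSCL aREM
theorem aSTB : SpecSTB := specSTB aTAY aPOL aSCL aSMO aSUPP
theorem aTKB : SpecTKB := specTKB aSTB aSMO
theorem aAHB : SpecAHB := specAHB aAHM aAVG
theorem aLMR : SpecLMR := specLMR aLMC aLMT aLML
theorem aST1 : SpecST1 := specST1 aAHB aFDA aFDB aTKB aDIV
theorem aST2 : SpecST2 := specST2 aAHB aFDA aFDB aFDC aTKB aDIV aLHB aLHL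
theorem aMOD : SpecMOD := specMOD aST2 aSUP aLIN aLHB aLHL
theorem aSCB : SpecSCB := specSCB aST1
theorem aEXI : SpecEXI := specEXI aSCB aMOD aDCY aLMC aLMR
theorem aCNT : SpecCNT := specCNT aEXI aUNQ aSHT aGLS
theorem aWPB3 : SpecWPB3 := specWPB3 aFIN3 aCNT aUNQ aGLU

end Pool.Agent.Lib.MP96bed6
end
end
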