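import Pool.Agent.Lib.MP_96bed6_an.Defs2

/-!
# MP_96bed6_an: smooth solutions
-/

set_option autoImplicit false

open MeasureTheory Filter Topology Set
open scoped ENNReal ContDiff NNReal

noncomputable section

namespace Pool.Agent.Lib.MP96bed6

/-- `‖D^k f‖ ≤ A` everywhere on `ℝ²`. -/
def BD {W : Type} [NormedAddCommGroup W] [NormedSpace ℝ W] (k : ℕ) (A : ℝ) (f : E → W) : Prop :=
  ∀ x : E, ‖iteratedFDeriv ℝ k f x‖ ≤ A

/-- The law `Tθ = vel g θ` as a (time independent) law. -/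
def law (g : E → ℝ) : ℝ → (E → ℝ) → E → E := fun _ f x => vel g f x

/-- Smooth solutions on `[0, T')`: classical solutions (`IsSolOn`) such that `θ(t)` is `C^∞` for every `t ∈ [0, T')`, with
derivatives of every order (in `x`) bounded on `ℝ²`, locally uniformly in `t ∈ [0, T')`. -/
structure IsSmooth (α κ T' : ℝ) (V : ℝ → (E → ℝ) → E → E) (θ₀ : E → ℝ) (θ : ℝ → E → ℝ) : Prop where
  sol : IsSolOn α κ T' V θ₀ θ
  smooth : ∀ t ∈ Ico (0 : ℝ) T', ContDiff ℝ ∞ (θ t)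
  bdd : ∀ k : ℕ, ∀ t ∈ Ico (0 : ℝ) T', ∃ A : ℝ, ∀ s ∈ Icc (0 : ℝ) t, BD k A (θ s)

end Pool.Agent.Lib.MP96bed6
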