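import Pool.Agent.Lib.MP_96bed6_an.Spec2
import Pool.Agent.Lib.MP_96bed6_an.W.Defs

/-!
# MP_96bed6_an, part W: local well-posedness, Specs

Module `XXX` = file `Pool/Agent/Lib/MP_96bed6_an/W/XXX.lean`, theorem `specXXX (hYYY : SpecYYY) .. : SpecXXX` in namespace
`Pool.Agent.Lib.MP96bed6` (own lemmas in namespace `Pool.Agent.Lib.MP96bed6.XXXM`).  Any Spec of `../Spec.lean` (all proved)
or of this file may be a hypothesis as long as no circle arises; the docstring names the intended ones (`none` = none).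

THE THEOREM.  For `0 < α < 1/2`, `κ ≥ 0` and every `θ₀ ∈ C^∞` with bounded derivatives and `θ₀ → 0` at infinity, `|∇θ₀| ≤ A`, the
equation `∂ₜθ + Tθ·∇θ + κ(-Δ)^αθ = 0`, `T = vel g`, has a smooth solution on `[0, c/A)`; it is unique among classical
solutions; the maximal smooth solution blows up in `C¹` (`‖∇θ(t)‖ ≥ c/(T* - t)`).  With FIN: `T* ≤ Ts < ∞` for the data of FIN.

PROOF.  Explicit scheme with time step `h`: `θ_(n+1) = A_h(θ_n∘(id - h·Tθ_n))`, `A_h f = f - κhΛ_h f`, `Λ_h` = the fractional Laplacian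
without the jumps shorter than `h`.  `κhΛ_h` has total mass `≤ κ·PHI·h^(1-2α) ≤ 1`, so `A_h f` is an average of translates of `f`:
it contracts all norms `‖D^k f‖`.  `T` satisfies `‖D^k Tf‖ ≤ K_k‖D^k f‖` for every `k` (Block E): `Tf` is a degree `0` homogeneous
operator, smoothing away from `0`, and maps the Taylor polynomial of `f` at `0` to a polynomial of the same degree (`kern` odd).
So `a_n = ‖Dθ_n‖` satisfies `a_(n+1) ≤ a_n(1 + hK₁a_n)` and the higher norms satisfy linear recursions: all norms are bounded for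
`nh ≤ c/A`, uniformly in `h`.  Limits along an ultrafilter of `h → 0` exist pointwise, are smooth, and satisfy the equation.
-/

set_option autoImplicit false

open MeasureTheory Filter Topology Set
open scoped ENNReal ContDiff NNReal

noncomputable section

namespace Pool.Agent.Lib.MP96bed6

/-- Smooth with bounded derivatives of every order (order `0` included). -/
def SB (f : E → ℝ) : Prop := ContDiff ℝ ∞ f ∧ ∀ k : ℕ, ∃ A : ℝ, BD k A f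

/-- The kernel `|y|^(-2-2α)` without the jumps shorter than `h`. -/
def kh (α h : ℝ) (y : E) : ℝ := if h ≤ ‖y‖ then 1 / ‖y‖ ^ (2 + 2 * α) else 0

/-- The truncated fractional Laplacian. -/
def lapH (α h : ℝ) (f : E → ℝ) (x : E) : ℝ := ∫ y : E, (f x - f (x - y)) * kh α h y

/-- Averages of translates. -/
def avg (μ : Measure E) (f : E → ℝ) (x : E) : ℝ := ∫ y, f (x - y) ∂μ

/-- The transport step `f∘(id - h·Tf)`. -/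
def shift (g : E → ℝ) (h : ℝ) (f : E → ℝ) (x : E) : ℝ := f (x - h • vel g f x)

/-- One step of the scheme. -/
def step (g : E → ℝ) (α κ h : ℝ) (f : E → ℝ) (x : E) : ℝ := shift g h f x - κ * h * lapH α h (shift g h f) x

/-- The scheme. -/
def sch (g : E → ℝ) (α κ h : ℝ) (f₀ : E → ℝ) (n : ℕ) : E → ℝ := (step g α κ h)^[n] f₀

/-- `Tf·∇f + κΛ_h f`. -/
def rhs (g : E → ℝ) (α κ h : ℝ) (f : E → ℝ) (x : E) : ℝ := fderiv ℝ f x (vel g f x) + κ * lapH α h f x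

/-! ### Block E: `‖D^k Tf‖ ≤ K_k ‖D^k f‖` -/

/-- TAY 100 lines, none: Taylor at `0`.
Proof.  `k = 0`: the sum is empty.  `k = n+1`: `φ(t) = f(ty)` on `[0,1]`, `iteratedDeriv j φ t = iteratedFDeriv ℝ j f (ty) (fun _ => y)`
(`ContinuousLinearMap.iteratedFDeriv_comp_right` with `t ↦ ty`), `taylor_mean_remainder_bound`. -/
def SpecTAY : Prop := ∀ (k : ℕ) (f : E → ℝ) (A : ℝ), ContDiff ℝ ∞ f → 0 ≤ A → BD k A f → ∀ y : E,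
  |f y - ∑ j ∈ Finset.range k, (1 / (j.factorial : ℝ)) * iteratedFDeriv ℝ j f 0 (fun _ => y)| ≤ A * ‖y‖ ^ k

/-- HOM 60 lines, none: high derivatives of smooth homogeneous functions vanish.
Proof.  Differentiate `F(rx) = r^d F(x)` `n` times in `x`: `r^n D^nF(rx) = r^d D^nF(x)`, so `‖D^nF(x)‖ = r^(n-d)‖D^nF(rx)‖ → 0·‖D^nF(0)‖` as
`r → 0+` (`D^nF` is continuous). -/
def SpecHOM : Prop := ∀ (F : E → ℝ) (d : ℕ), ContDiff ℝ ∞ F → (∀ r : ℝ, 0 < r → ∀ x, F (r • x) = r ^ d * F x) →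
  ∀ n : ℕ, d < n → ∀ x, iteratedFDeriv ℝ n F x = 0

/-- POL 120 lines, hypotheses SUPP, HOM: `T` maps polynomials of degree `< k` to such.
Proof.  For all `x`: `stream g (∑ a_j) x = ∑_(j<k) c_j x₀x₁‖x‖^(j-1)`, `c_j = ∫a_j(z)kern g z dz` (for `x = 0` both sides are `0`; read
`x₀x₁/‖x‖·‖x‖^j`).  `c_j = 0` for even `j` (substitute `-z`: `a_j(-z) = (-1)^j a_j(z)`, `kern g (-z) = -kern g z`).  For `j = 2i+1` the term is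
`c_j x₀x₁(x₀²+x₁²)^i`, smooth and homogeneous of degree `j+1 ≤ k`: HOM with `n = k+1`; sum (`iteratedFDeriv_sum` or induction). -/
def SpecPOL : Prop := ∀ g : E → ℝ, IsSampler g → ∀ (k : ℕ) (a : ℕ → E → ℝ), (∀ j, Continuous (a j)) →
  (∀ j (r : ℝ) (y : E), a j (r • y) = r ^ j * a j y) →
  ContDiff ℝ ∞ (stream g (fun y => ∑ j ∈ Finset.range k, a j y)) ∧
  ∀ x, iteratedFDeriv ℝ (k + 1) (stream g (fun y => ∑ j ∈ Finset.range k, a j y)) x = 0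

/-- SMJ 120 lines, hypothesis DER: all derivatives of `r ↦ samp f θ r`.
Proof.  `F 0 = f`, `F (j+1) = gp (F j) - j F j` (smooth, compactly supported).  By induction `iteratedDerivWithin j (samp f θ) (Ioi 0) r =
r^(-j) samp (F j) θ r` for all `r > 0`: the derivative of `r^(-j) samp (F j) θ r` is `r^(-j-1)(samp (gp (F j)) θ r - j samp (F j) θ r)` by DER.
Smoothness: `contDiffOn_of_differentiableOn_deriv`.  At the end put `r = 1`. -/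
def SpecSMJ : Prop := ∀ f : E → ℝ, ContDiff ℝ ∞ f → HasCompactSupport f → ∃ F : ℕ → E → ℝ,
  (∀ j, Continuous (F j) ∧ HasCompactSupport (F j)) ∧ ∀ θ : E → ℝ, Continuous θ →
    ContDiffOn ℝ ∞ (samp f θ) (Ioi 0) ∧ ∀ j : ℕ, iteratedDerivWithin j (samp f θ) (Ioi 0) 1 = samp (F j) θ 1

/-- REM 200 lines, hypotheses SMJ, SUPP: the estimate on the unit circle.
Proof.  On the open set `s = {x ≠ 0}`: `stream g R x = q(x)·c(‖x‖)`, `q(x) = x₀x₁/‖x‖`, `c = samp (kern g) R`.  `|c^(j)(1)| = |samp (F j) R 1|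
≤ A∫‖z‖^k|F j z|dz ≤ C A` for `j ≤ k+1` (SMJ).  `norm_iteratedFDerivWithin_comp_le` (with `s` and `Ioi 0`; `D ≥ 1` a bound for the derivatives of
order `1..k+1` of `‖·‖` on the unit circle, which is compact, so that they are `≤ D ≤ D^i`) and `norm_iteratedFDerivWithin_mul_le` (the
derivatives of `q` on the unit circle are bounded, again by compactness).  `iteratedFDerivWithin = iteratedFDeriv` on open sets. -/
def SpecREM : Prop := ∀ g : E → ℝ, IsSampler g → ∀ k : ℕ, ∃ K : ℝ, 0 ≤ K ∧ ∀ (R : E → ℝ) (A : ℝ), Continuous R → 0 ≤ A →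
  (∀ y, |R y| ≤ A * ‖y‖ ^ k) → ∀ x : E, ‖x‖ = 1 → ‖iteratedFDeriv ℝ (k + 1) (stream g R) x‖ ≤ K * A

/-- SCL 80 lines, hypothesis REM: the same for all `x ≠ 0`.
Proof.  `lam = ‖x‖`, `R'(y) = R(lam y)`, `|R'(y)| ≤ A lam^k‖y‖^k`.  `stream g R (lam y) = lam·stream g R' y` for all `y`.  Take derivatives of order
`k+1` at `y = x/lam` (`iteratedFDeriv` of `F∘(lam •)` is `lam^(k+1)` times that of `F`; `ContinuousLinearEquiv.iteratedFDeriv_comp_right` or a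
`Within` version needs no smoothness): `lam^(k+1)‖D(stream g R)(x)‖ = lam‖D(stream g R')(x/lam)‖ ≤ lam·K·A·lam^k`. -/
def SpecSCL : Prop := ∀ g : E → ℝ, IsSampler g → ∀ k : ℕ, ∃ K : ℝ, 0 ≤ K ∧ ∀ (R : E → ℝ) (A : ℝ), Continuous R → 0 ≤ A →
  (∀ y, |R y| ≤ A * ‖y‖ ^ k) → ∀ x : E, x ≠ 0 → ‖iteratedFDeriv ℝ (k + 1) (stream g R) x‖ ≤ K * A

/-- STB 100 lines, hypotheses TAY, POL, SCL, SMO, SUPP.
Proof.  `P(y) = ∑_(j<k) (1/j!) D^jf(0)(y,..,y)` (continuous, homogeneous parts), `R = f - P`.  `stream g f = stream g P + stream g R` (integrals of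
continuous functions times `kern g`, compactly supported).  `stream g f`, `stream g P` are smooth, so `stream g R` is, and for `x ≠ 0`
`‖D^(k+1)(stream g f)(x)‖ = ‖D^(k+1)(stream g R)(x)‖ ≤ KA`.  `x = 0`: continuity of `D^(k+1)(stream g f)`. -/
def SpecSTB : Prop := ∀ g : E → ℝ, IsSampler g → ∀ k : ℕ, ∃ K : ℝ, 0 ≤ K ∧ ∀ (f : E → ℝ) (A : ℝ), ContDiff ℝ ∞ f → 0 ≤ A →
  BD k A f → BD (k + 1) (K * A) (stream g f)

/-- TKB 60 lines, hypotheses STB, SMO.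
Proof.  `vel g f = J ∘ fderiv ℝ (stream g f)` with the continuous linear map `J l = !₂[-(l e1), l e0]`;
`ContinuousLinearMap.norm_iteratedFDeriv_comp_left` or similar, and `norm_iteratedFDeriv_fderiv`. -/
def SpecTKB : Prop := ∀ g : E → ℝ, IsSampler g → ∀ k : ℕ, ∃ K : ℝ, 0 ≤ K ∧ ∀ (f : E → ℝ) (A : ℝ), ContDiff ℝ ∞ f → 0 ≤ A →
  BD k A f → BD k (K * A) (vel g f)

/-! ### Block F: compositions, averages, the truncated fractional Laplacian -/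

/-- FDA 40 lines, none.
Proof.  `D(f∘φ)(x) = Df(φx)∘(1 - h Du(x))`; `norm_iteratedFDeriv_one`. -/
def SpecFDA : Prop := ∀ (h A B : ℝ), 0 ≤ h → 0 ≤ A → 0 ≤ B → ∀ (f : E → ℝ) (u : E → E), ContDiff ℝ ∞ f → ContDiff ℝ ∞ u →
  BD 1 A f → BD 1 B u → BD 1 (A * (1 + h * B)) (fun x => f (x - h • u x))

/-- FDC 100 lines, none.
Proof.  (1) mean value inequality, `‖h u‖ ≤ hB`.  (2) `|f(x+v) - f(x) - Df(x)v| ≤ B‖v‖²` (`Df` is `B`-Lipschitz), `v = -h u(x)`.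
(3) `D(f∘φ)(x) - Df(x) = (Df(φx) - Df(x)) - Df(φx)∘(h Du(x))`.  `BD 2 B f` means that `Df` is `B`-Lipschitz (`norm_iteratedFDeriv_fderiv`). -/
def SpecFDC : Prop := ∀ (h B : ℝ), 0 ≤ h → 0 ≤ B → ∀ (f : E → ℝ) (u : E → E), ContDiff ℝ ∞ f → ContDiff ℝ ∞ u →
  BD 1 B f → BD 2 B f → BD 0 B u → BD 1 B u → ∀ x : E,
  |f (x - h • u x) - f x| ≤ h * B ^ 2 ∧
  |f (x - h • u x) - f x + h * fderiv ℝ f x (u x)| ≤ h ^ 2 * B ^ 3 ∧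
  ‖fderiv ℝ (fun x => f (x - h • u x)) x - fderiv ℝ f x‖ ≤ h * (2 * B ^ 2)

/-- FDB 250 lines, none: derivatives of order `k ≥ 2` of `f∘(id - h u)`, with the factor `1` in front of `A`.
Proof.  `φ = id - h u`: `‖Dφ‖ ≤ 1 + hB`, `‖D^jφ‖ = h‖D^ju‖` for `j ≥ 2`.  Faa di Bruno (`HasFTaylorSeriesUpToOn.comp`,
`norm_compAlongOrderedFinpartition_le`): `‖D^k(f∘φ)(x)‖ ≤ ∑_c ‖D^(c.length)f(φx)‖ ∏_i ‖D^(c.partSize i)φ(x)‖`.  If all parts are singletons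
(`c.length = k`): `≤ A(1+hB)^k ≤ A + hA(1+B)^k` (there is one such `c`, `OrderedFinpartition.atomic k`).  If `c.length = 1`: `≤ B·h·A'` (one such
`c`; or count them with multiplicity).  Otherwise `2 ≤ c.length < k`, all parts are `< k` and one is `≥ 2`: `≤ B·hB·(1+B)^k`.
`C = (1+B)^k + (number of c)·(B + B²(1+B)^k)`. -/
def SpecFDB : Prop := ∀ k : ℕ, 2 ≤ k → ∀ B : ℝ, 0 ≤ B → ∃ C : ℝ, 0 ≤ C ∧ ∀ (h A A' : ℝ), 0 ≤ h → h ≤ 1 → 0 ≤ A → 0 ≤ A' →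
  ∀ (f : E → ℝ) (u : E → E), ContDiff ℝ ∞ f → ContDiff ℝ ∞ u → (∀ j, 1 ≤ j → j < k → BD j B f ∧ BD j B u) →
  BD k A f → BD k A' u → BD k (A + h * (C * (1 + A + A'))) (fun x => f (x - h • u x))

/-- AVG 150 lines, none.
Proof.  For complete `W` and `F : E → W` smooth with bounded derivatives, `x ↦ ∫F(x-y)dμ(y)` has the derivative `∫DF(x-y)dμ(y)`
(`hasFDerivAt_integral_of_dominated_of_fderiv_le`, constant bounds, `μ` finite).  By induction on `k` (over all `W`) it is `C^k` and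
`‖D^k‖ ≤ sup‖D^kF‖` (`norm_iteratedFDeriv_fderiv`, `norm_integral_le_of_norm_le_const`).  The evaluation at `v` commutes with the integral. -/
def SpecAVG : Prop := ∀ (μ : Measure E) [IsProbabilityMeasure μ] (f : E → ℝ), SB f →
  SB (avg μ f) ∧ (∀ (k : ℕ) (A : ℝ), BD k A f → BD k A (avg μ f)) ∧
  ∀ x v, fderiv ℝ (avg μ f) x v = avg μ (fun y => fderiv ℝ f y v) x

/-- KHI 60 lines, hypothesis INT.
Proof.  `kh α h y ≤ min 1 (h⁻¹‖y‖)/‖y‖^(2+2α)`; INT with `L = h⁻¹`. -/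
def SpecKHI : Prop := ∀ (α h : ℝ), 0 < α → α < 1 / 2 → 0 < h →
  Integrable (kh α h) ∧ (∀ y, 0 ≤ kh α h y) ∧ h * (∫ y, kh α h y) ≤ h ^ (1 - 2 * α) * PHI α ∧ 0 ≤ PHI α

/-- LHB 80 lines, hypotheses INT, KHI: bounds for `lapH`.
Proof.  `|f(x) - f(x-y)| ≤ (2M+A)min(1,‖y‖)` resp. `≤ min(1, L‖y‖)`, `kh α h y ≤ ‖y‖^(-(2+2α))`; INT. -/
def SpecLHB : Prop := ∀ (α h : ℝ), 0 < α → α < 1 / 2 → 0 < h →
  (∀ (f : E → ℝ) (M A : ℝ), Continuous f → 0 ≤ M → 0 ≤ A → (∀ y, |f y| ≤ M) → (∀ y z, |f y - f z| ≤ A * ‖y - z‖) →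
    ∀ x, |lapH α h f x| ≤ (2 * M + A) * PHI α) ∧
  (∀ (f : E → ℝ) (L : ℝ), 0 < L → (∀ y, 0 ≤ f y ∧ f y ≤ 1) → (∀ y z, |f y - f z| ≤ L * ‖y - z‖) →
    ∀ x, |lapH α h f x| ≤ L ^ (2 * α) * PHI α)

/-- LHL 40 lines, hypothesis KHI: linearity.
Proof.  The integrands are integrable (bounded measurable times integrable). -/
def SpecLHL : Prop := ∀ (α h : ℝ), 0 < α → α < 1 / 2 → 0 < h → ∀ (f₁ f₂ : E → ℝ) (M : ℝ), Continuous f₁ → Continuous f₂ →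
  (∀ y, |f₁ y| ≤ M) → (∀ y, |f₂ y| ≤ M) → ∀ (a b : ℝ) (x : E),
  lapH α h (fun y => a * f₁ y + b * f₂ y) x = a * lapH α h f₁ x + b * lapH α h f₂ x

/-- AHM 100 lines, hypothesis KHI: `f - κhΛ_h f` is an average of translates.
Proof.  `λ = ∫kh`, `κhλ ≤ κ·PHI·h^(1-2α) ≤ 1`; `μ = ofReal(1 - κhλ) • dirac 0 + volume.withDensity (ofReal (κ h kh))`. -/
def SpecAHM : Prop := ∀ (α κ h : ℝ), 0 < α → α < 1 / 2 → 0 ≤ κ → 0 < h → κ * PHI α * h ^ (1 - 2 * α) ≤ 1 →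
  ∃ μ : Measure E, IsProbabilityMeasure μ ∧ ∀ f : E → ℝ, Continuous f → (∃ M, ∀ x, |f x| ≤ M) → ∀ x,
    f x - κ * h * lapH α h f x = avg μ f x

/-- AHB 60 lines, hypotheses AHM, AVG: what we use of the averaging step.
Proof.  Both sides of the last line: AHM for `f` and for `y ↦ fderiv ℝ f y v` (continuous, bounded). -/
def SpecAHB : Prop := ∀ (α κ h : ℝ), 0 < α → α < 1 / 2 → 0 ≤ κ → 0 < h → κ * PHI α * h ^ (1 - 2 * α) ≤ 1 →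
  ∀ f : E → ℝ, SB f →
    SB (fun x => f x - κ * h * lapH α h f x) ∧
    (∀ (k : ℕ) (B : ℝ), BD k B f → BD k B (fun x => f x - κ * h * lapH α h f x)) ∧
    ∀ x v, fderiv ℝ (fun x => f x - κ * h * lapH α h f x) x v =
      fderiv ℝ f x v - κ * h * lapH α h (fun y => fderiv ℝ f y v) x

/-! ### Block G: the scheme -/

/-- ST1 150 lines, hypotheses AHB, FDA, FDB, TKB, DIV.
Proof.  `step g α κ h f = F - κhΛ_hF`, `F = shift g h f`.  `vel g f` is smooth (DIV) with bounds from TKB.  `F` is `SB`: order `0` trivial, order `1`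
FDA, order `k ≥ 2` FDB (its `B` = a common bound of the finitely many lower norms of `f` and `vel g f`).  `BD 0 M f` is `|f| ≤ M`.
Third part: `B' = max_(j<k) (1+K_j)B`, `A' = K_kA`, `C' = C(1+K_k)`. -/
def SpecST1 : Prop := ∀ (g : E → ℝ) (α κ : ℝ), IsSampler g → 0 < α → α < 1 / 2 → 0 ≤ κ →
  (∀ (h : ℝ) (f : E → ℝ), 0 < h → h ≤ 1 → κ * PHI α * h ^ (1 - 2 * α) ≤ 1 → SB f →
    SB (step g α κ h f) ∧ ∀ M : ℝ, (∀ x, |f x| ≤ M) → ∀ x, |step g α κ h f x| ≤ M) ∧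
  (∃ K : ℝ, 0 ≤ K ∧ ∀ (h A : ℝ) (f : E → ℝ), 0 < h → h ≤ 1 → κ * PHI α * h ^ (1 - 2 * α) ≤ 1 → SB f → 0 ≤ A → BD 1 A f →
    BD 1 (A * (1 + h * (K * A))) (step g α κ h f)) ∧
  (∀ k : ℕ, 2 ≤ k → ∀ B : ℝ, 0 ≤ B → ∃ C : ℝ, 0 ≤ C ∧ ∀ (h A : ℝ) (f : E → ℝ), 0 < h → h ≤ 1 →
    κ * PHI α * h ^ (1 - 2 * α) ≤ 1 → SB f → 0 ≤ A → (∀ j, 1 ≤ j → j < k → BD j B f) → BD k A f →
    BD k (A + h * (C * (1 + A))) (step g α κ h f))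

/-- SCB 200 lines, hypothesis ST1: uniform bounds for the scheme.
Proof.  `c = 1/(4(K+1))`; `h₀ ≤ 1` with `κ·PHI·h₀^(1-2α) ≤ 1` (`1-2α > 0`; monotone in `h`).  Order `1`: by induction
`‖Dθ_n‖ ≤ A exp(2KA nh) ≤ A exp(1/2) ≤ 2A` while `nh ≤ c/A` (`1 + hK·2A ≤ exp(2KAh)`).  Order `k ≥ 2`, by strong induction on `k`: `B` = bound for the
orders `1..k-1`; `a_(n+1) ≤ a_n + hC(1+a_n)`, so `1 + a_n ≤ (1+a_0)exp(Cnh)`.  Order `0`: constant. -/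
def SpecSCB : Prop := ∀ (g : E → ℝ) (α κ : ℝ), IsSampler g → 0 < α → α < 1 / 2 → 0 ≤ κ → ∃ c h₀ : ℝ, 0 < c ∧ 0 < h₀ ∧ h₀ ≤ 1 ∧
  (∀ h : ℝ, 0 < h → h ≤ h₀ → κ * PHI α * h ^ (1 - 2 * α) ≤ 1) ∧
  ∀ (f₀ : E → ℝ) (A : ℝ), SB f₀ → 0 < A → BD 1 A f₀ → ∃ C : ℕ → ℝ, (∀ k, 0 ≤ C k) ∧
    ∀ (h : ℝ) (n : ℕ), 0 < h → h ≤ h₀ → n * h ≤ c / A →
      SB (sch g α κ h f₀ n) ∧ (∀ k, BD k (C k) (sch g α κ h f₀ n)) ∧
      ∀ M : ℝ, (∀ x, |f₀ x| ≤ M) → ∀ x, |sch g α κ h f₀ n x| ≤ M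

/-- ST2 200 lines, hypotheses AHB, FDA, FDB, FDC, TKB, DIV, LHB, LHL: one step.
Proof.  `u = vel g f`, `B'` = a common bound of `‖D^jf‖`, `‖D^ju‖` (`j ≤ 2`), `F = shift g h f`.  FDC: `|F - f| ≤ hB'²`,
`|F - f + h Df·u| ≤ h²B'³`, `‖DF - Df‖ ≤ 2hB'²`; FDA, FDB (`k = 2`): `‖DF‖, ‖D²F‖ ≤ B''`.  `step f - f + h rhs f = (F - f + h Df·u) - κhΛ_h(F - f)`,
`|Λ_h(F - f)| ≤ 4hB'²PHI` (LHB, LHL).  `|step f - f| ≤ |F - f| + κh|Λ_hF|`.  For `‖v‖ ≤ 1`: `D(step f)v - Df v = (DF v - Df v) - κhΛ_h(DF v)` (AHB),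
`|Λ_h(DF v)| ≤ (2B''+B'')PHI` (`y ↦ DF(y)v` is `B''`-Lipschitz). -/
def SpecST2 : Prop := ∀ (g : E → ℝ) (α κ : ℝ), IsSampler g → 0 < α → α < 1 / 2 → 0 ≤ κ → ∀ B : ℝ, 0 ≤ B → ∃ C : ℝ, 0 ≤ C ∧
  ∀ (h : ℝ) (f : E → ℝ), 0 < h → h ≤ 1 → κ * PHI α * h ^ (1 - 2 * α) ≤ 1 → SB f → (∀ j, j ≤ 2 → BD j B f) → ∀ x,
    |step g α κ h f x - f x + h * rhs g α κ h f x| ≤ C * h ^ 2 ∧
    |step g α κ h f x - f x| ≤ C * h ∧
    ‖fderiv ℝ (step g α κ h f) x - fderiv ℝ f x‖ ≤ C * h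

/-- MOD 200 lines, hypotheses ST2, SUP, LIN, LHB, LHL: many steps.
Proof.  `|f_m - f_n|, ‖Df_m - Df_n‖ ≤ C|m-n|h` by ST2.  `rhs f_m - rhs f_n = Df_m(T(f_m - f_n)) + (Df_m - Df_n)(Tf_n) + κΛ_h(f_m - f_n)`
(LIN, LHL), so `|rhs f_m - rhs f_n| ≤ C'|m-n|h` (SUP, LHB).  For `m ≥ n` sum `f_(j+1) - f_j + h rhs f_j = O(h²)` over `n ≤ j < m`:
`f_m - f_n + (m-n)h rhs f_n = O((m-n)h²) + O(((m-n)h)²)` and `(m-n)h ≤ T₀`.  For `m < n` exchange `m, n` and use the bound for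
`rhs f_m - rhs f_n`. -/
def SpecMOD : Prop := ∀ (g : E → ℝ) (α κ : ℝ), IsSampler g → 0 < α → α < 1 / 2 → 0 ≤ κ → ∀ B T₀ : ℝ, 0 ≤ B → 0 ≤ T₀ →
  ∃ C : ℝ, 0 ≤ C ∧ ∀ (h : ℝ) (f : ℕ → E → ℝ), 0 < h → h ≤ 1 → κ * PHI α * h ^ (1 - 2 * α) ≤ 1 →
    (∀ n : ℕ, n * h ≤ T₀ → SB (f n) ∧ ∀ j, j ≤ 2 → BD j B (f n)) → (∀ n, f (n + 1) = step g α κ h (f n)) →
    ∀ m n : ℕ, m * h ≤ T₀ → n * h ≤ T₀ → ∀ x,
      |f m x - f n x| ≤ C * (|(m : ℝ) - n| * h) ∧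
      |f m x - f n x + ((m : ℝ) - n) * h * rhs g α κ h (f n) x| ≤ C * ((((m : ℝ) - n) * h) ^ 2 + h)

/-- DCY 150 lines, hypotheses AHM, LHB, SUP, DIV: decay at infinity, uniformly in `h` and `n`.
Proof.  `K` from SUP; `ζ(x) = min 1 (max 0 (2 - ‖x‖/R))` (`1/R`-Lipschitz), `c_R = KM/R + κ(1/R)^(2α)PHI`.  If `|f₀| ≤ η/2` for `‖x‖ ≥ R`, then by induction
`|f_n| ≤ η/2 + Mζ + Mnhc_R`: after the transport step the bound grows by `M·hKM/R` (`|vel| ≤ KM`); averages keep the order and the average of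
`ζ` is `ζ - κhΛ_hζ ≤ ζ + κh(1/R)^(2α)PHI` (AHM, LHB).  Take `R` with `MT₀c_R ≤ η/2`; the claim holds for `‖x‖ ≥ 2R`. -/
def SpecDCY : Prop := ∀ (g : E → ℝ) (α κ : ℝ), IsSampler g → 0 < α → α < 1 / 2 → 0 ≤ κ → ∀ (M T₀ : ℝ) (f₀ : E → ℝ), 0 ≤ T₀ →
  (∀ x, |f₀ x| ≤ M) → (∀ η : ℝ, 0 < η → ∃ R : ℝ, ∀ x : E, R ≤ ‖x‖ → |f₀ x| ≤ η) → ∀ η : ℝ, 0 < η → ∃ R : ℝ,
  ∀ (h : ℝ) (f : ℕ → E → ℝ), 0 < h → h ≤ 1 → κ * PHI α * h ^ (1 - 2 * α) ≤ 1 → f 0 = f₀ →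
    (∀ n : ℕ, n * h ≤ T₀ → SB (f n) ∧ ∀ x, |f n x| ≤ M) → (∀ n, f (n + 1) = step g α κ h (f n)) →
    ∀ n : ℕ, n * h ≤ T₀ → ∀ x : E, R ≤ ‖x‖ → |f n x| ≤ η

/-! ### Block H: limits along an ultrafilter -/

/-- UNI 60 lines, none: equi-Lipschitz and pointwise convergent implies uniformly convergent on balls.
Proof.  `fl` is `A`-Lipschitz too (limits of inequalities).  Cover `closedBall 0 R` by finitely many balls of radius `ε/(3(A+1))`; eventually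
`|f N - fl| ≤ ε/3` at the centres. -/
def SpecUNI : Prop := ∀ (𝒰 : Ultrafilter ℕ) (f : ℕ → E → ℝ) (fl : E → ℝ) (A : ℝ), (∀ N y z, |f N y - f N z| ≤ A * ‖y - z‖) →
  (∀ x, Tendsto (fun N => f N x) 𝒰 (𝓝 (fl x))) → (∀ y z, |fl y - fl z| ≤ A * ‖y - z‖) ∧
  ∀ R ε : ℝ, 0 < ε → ∀ᶠ N in (𝒰 : Filter ℕ), ∀ y : E, ‖y‖ ≤ R → |f N y - fl y| ≤ ε

/-- LMC 150 lines, none: limits are smooth.
Proof.  By induction on `m` for all finite dimensional `W`: if `f N : E → W` are smooth, every `‖D^k f N‖` is bounded uniformly in `N`, and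
`f N x → fl x` along the ultrafilter, then `fl` is `C^m` and `BD k C (f N)` for all `N` implies `BD k C fl` for `k ≤ m`.  Step: `D(f N)(x)` is bounded in the
finite dimensional space `E →L[ℝ] W`, so it has a limit `G x` (`Ultrafilter`, compact balls); `‖f N (x+v) - f N x - D(f N)(x)v‖ ≤ C₂‖v‖²` passes to the
limit, so `HasFDerivAt fl (G x) x`; apply the induction hypothesis to `D(f N)`, `G` (`contDiff_succ_iff_fderiv`, `norm_iteratedFDeriv_fderiv`). -/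
def SpecLMC : Prop := ∀ (𝒰 : Ultrafilter ℕ) (f : ℕ → E → ℝ) (fl : E → ℝ), (∀ N, ContDiff ℝ ∞ (f N)) →
  (∀ k : ℕ, ∃ C : ℝ, ∀ N, BD k C (f N)) → (∀ x, Tendsto (fun N => f N x) 𝒰 (𝓝 (fl x))) →
  ContDiff ℝ ∞ fl ∧ (∀ (k : ℕ) (C : ℝ), (∀ N, BD k C (f N)) → BD k C fl) ∧
  ∀ x v, Tendsto (fun N => fderiv ℝ (f N) x v) 𝒰 (𝓝 (fderiv ℝ fl x v))

/-- LMT 80 lines, hypotheses UNI, VEL, SUPP.
Proof.  `x = 0`: both sides are `0`.  `x ≠ 0`: `samp k (f N) ‖x‖ → samp k fl ‖x‖` for `k = kern g, gp (kern g)` (compact support, uniform convergence on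
balls), and `U` is continuous in `(C, D)`. -/
def SpecLMT : Prop := ∀ (g : E → ℝ), IsSampler g → ∀ (𝒰 : Ultrafilter ℕ) (f : ℕ → E → ℝ) (fl : E → ℝ) (A : ℝ),
  (∀ N y z, |f N y - f N z| ≤ A * ‖y - z‖) → (∀ x, Tendsto (fun N => f N x) 𝒰 (𝓝 (fl x))) →
  ∀ x, Tendsto (fun N => vel g (f N) x) 𝒰 (𝓝 (vel g fl x))

/-- LML 150 lines, hypotheses UNI, INT.
Proof.  `fracLap α fl x = ∫(fl x - fl(x-y))/‖y‖^(2+2α)dy` (substitution).  Both integrands are at most `(2M+A)min(1,‖y‖)/‖y‖^(2+2α)` in absolute value, which is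
integrable: the part over `{‖y‖ < δ} ∪ {‖y‖ > R}` is `≤ ε` for suitable `δ, R`; on `{δ ≤ ‖y‖ ≤ R}` the integrands converge uniformly (UNI on the ball of
radius `‖x‖ + R`, `h N < δ` eventually). -/
def SpecLML : Prop := ∀ (α : ℝ), 0 < α → α < 1 / 2 → ∀ (𝒰 : Ultrafilter ℕ) (h : ℕ → ℝ) (f : ℕ → E → ℝ) (fl : E → ℝ) (M A : ℝ),
  (∀ N, 0 < h N) → Tendsto h 𝒰 (𝓝 0) → (∀ N y, |f N y| ≤ M) → (∀ N y z, |f N y - f N z| ≤ A * ‖y - z‖) →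
  (∀ x, Tendsto (fun N => f N x) 𝒰 (𝓝 (fl x))) → ∀ x, Tendsto (fun N => lapH α (h N) (f N) x) 𝒰 (𝓝 (fracLap α fl x))

/-- LMR 60 lines, hypotheses LMC, LMT, LML.
Proof.  `|D(f N)(x)(vel g (f N) x - vel g fl x)| ≤ C‖..‖ → 0` and `D(f N)(x)(vel g fl x) → D fl(x)(vel g fl x)`. -/
def SpecLMR : Prop := ∀ (g : E → ℝ) (α κ : ℝ), IsSampler g → 0 < α → α < 1 / 2 → ∀ (𝒰 : Ultrafilter ℕ) (h : ℕ → ℝ)
  (f : ℕ → E → ℝ) (fl : E → ℝ), (∀ N, 0 < h N) → Tendsto h 𝒰 (𝓝 0) → (∀ N, ContDiff ℝ ∞ (f N)) →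
  (∀ k : ℕ, ∃ C : ℝ, ∀ N, BD k C (f N)) → (∀ x, Tendsto (fun N => f N x) 𝒰 (𝓝 (fl x))) →
  ∀ x, Tendsto (fun N => rhs g α κ (h N) (f N) x) 𝒰 (𝓝 (fderiv ℝ fl x (vel g fl x) + κ * fracLap α fl x))

/-- EXI 300 lines, hypotheses SCB, MOD, DCY, LMC, LMR (may be split by its author): existence.
Proof.  `c, h₀` from SCB, `T₀ = c/A`, `h_N = h₀/(N+1)`, `𝒰 = hyperfilter ℕ`, `n_N(t) = ⌊t/h_N⌋₊`, `θ(t,x) = lim_𝒰 sch g α κ h_N f₀ (n_N(t)) x` for `t ∈ [0,T₀]` (exists: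
bounded).  `θ(0) = f₀`.  `(n_N(t) - n_N(s))h_N → t - s`, so MOD gives `|θ(t,x) - θ(s,x)| ≤ C|t-s|` and, with LMR,
`|θ(t,x) - θ(s,x) + (t-s)G(s,x)| ≤ C(t-s)²`, `G(s,x) = ∇θ(s,x)·Tθ(s)(x) + κΛθ(s)(x)`: the derivative in `t` at `s ∈ (0,T₀)` is `-G(s,x)`.  LMC: `θ(t)` is smooth with
bounds `C k`.  Joint continuity: Lipschitz in `t` and in `x`.  Decay: DCY and limits. -/
def SpecEXI : Prop := ∀ (g : E → ℝ) (α κ : ℝ), IsSampler g → 0 < α → α < 1 / 2 → 0 ≤ κ → ∃ c : ℝ, 0 < c ∧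
  ∀ (f₀ : E → ℝ) (A : ℝ), SB f₀ → (∀ η : ℝ, 0 < η → ∃ R : ℝ, ∀ x : E, R ≤ ‖x‖ → |f₀ x| ≤ η) → 0 < A → BD 1 A f₀ →
    ∃ θ : ℝ → E → ℝ, IsSmooth α κ (c / A) (law g) f₀ θ

/-! ### Block I: uniqueness, continuation, the maximal solution -/

/-- UNQ 200 lines, hypotheses CPT, SUP, LIN, FLI: uniqueness.
Proof.  Let `T' < min T₁ T₂`, `|∇θ₂| ≤ A` on `[0,T']`, `K` from SUP, `B = KA + 1`, `ε > 0`.  Claim `|δ(t,x)| < εe^(Bt)` on `[0,T']`, `δ = θ₁ - θ₂`.  Otherwise apply CPT to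
`D 0 = εe^(Bt) - δ`, `D 1 = εe^(Bt) + δ` (positive at `t = 0` and for large `x`).  At the touching point (say `i = 0`): `∂ₜδ ≥ Bεe^(Bt)` (left difference quotient),
`∇δ = 0` (maximum in `x`), `∫(δ(x) - δ(y))|x-y|^(-2-2α)dy ≥ 0`, i.e. `Λθ₁ ≥ Λθ₂` (integrable by FLI), and the difference of the equations is
`∂ₜδ + ∇δ·Tθ₁ + ∇θ₂·T(δ(t)) + κ(Λθ₁ - Λθ₂) = 0` (LIN), with `|T(δ(t))| ≤ Kεe^(Bt)`: `Bεe^(Bt) ≤ AKεe^(Bt)`, contradiction.  `i = 1` in the same way.  `ε → 0`. -/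
def SpecUNQ : Prop := ∀ (g : E → ℝ) (α κ : ℝ), IsSampler g → 0 < α → α < 1 / 2 → 0 ≤ κ →
  ∀ (T₁ T₂ : ℝ) (θ₀ : E → ℝ) (θ₁ θ₂ : ℝ → E → ℝ), IsSolOn α κ T₁ (law g) θ₀ θ₁ → IsSolOn α κ T₂ (law g) θ₀ θ₂ →
  (∀ t ∈ Ico (0 : ℝ) T₂, ∃ A : ℝ, ∀ s ∈ Icc (0 : ℝ) t, BD 1 A (θ₂ s)) → ∀ t ∈ Ico (0 : ℝ) (min T₁ T₂), θ₁ t = θ₂ t

/-- SHT 60 lines, none: shift in time.
Proof.  `t ↦ t₁ + t` (derivatives: `deriv_comp_const_add`). -/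
def SpecSHT : Prop := ∀ (g : E → ℝ) (α κ T' t₁ : ℝ) (θ₀ : E → ℝ) (θ : ℝ → E → ℝ), IsSmooth α κ T' (law g) θ₀ θ →
  t₁ ∈ Ico (0 : ℝ) T' → IsSmooth α κ (T' - t₁) (law g) (θ t₁) (fun s => θ (t₁ + s))

/-- GLS 150 lines, none: gluing.
Proof.  Let `θ'` be the function of the statement.  `θ' = θ` on `[0,T')` and `θ'(s) = η(s - t₁)` for all `s ∈ [t₁, t₁+T'')` (for `s < T'` by the
agreement).  Every property is local in `t`: use the first description near `t < T'`, the second one near `t > t₁`. -/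
def SpecGLS : Prop := ∀ (g : E → ℝ) (α κ T' T'' t₁ : ℝ) (θ₀ : E → ℝ) (θ η : ℝ → E → ℝ), 0 ≤ t₁ → t₁ < T' → T' < t₁ + T'' →
  IsSmooth α κ T' (law g) θ₀ θ → IsSmooth α κ T'' (law g) (θ t₁) η → (∀ s ∈ Ico (0 : ℝ) (T' - t₁), η s = θ (t₁ + s)) →
  IsSmooth α κ (t₁ + T'') (law g) θ₀ (fun s => if s < T' then θ s else η (s - t₁))

/-- CNT 60 lines, hypotheses EXI, UNQ, SHT, GLS: continuation.
Proof.  `θ t` is `SB` and small at infinity; EXI from time `t` gives `η` on `[0, c/A)`; it agrees with `θ(t + ·)` (SHT, UNQ); GLS. -/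
def SpecCNT : Prop := ∀ (g : E → ℝ) (α κ : ℝ), IsSampler g → 0 < α → α < 1 / 2 → 0 ≤ κ → ∃ c : ℝ, 0 < c ∧
  (∀ (f₀ : E → ℝ) (A : ℝ), SB f₀ → (∀ η : ℝ, 0 < η → ∃ R : ℝ, ∀ x : E, R ≤ ‖x‖ → |f₀ x| ≤ η) → 0 < A → BD 1 A f₀ →
    ∃ θ : ℝ → E → ℝ, IsSmooth α κ (c / A) (law g) f₀ θ) ∧
  ∀ (T' t A : ℝ) (θ₀ : E → ℝ) (θ : ℝ → E → ℝ), IsSmooth α κ T' (law g) θ₀ θ → t ∈ Ico (0 : ℝ) T' → 0 < A → BD 1 A (θ t) →
    T' < t + c / A → ∃ θ' : ℝ → E → ℝ, IsSmooth α κ (t + c / A) (law g) θ₀ θ'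

/-- GLU 150 lines, hypothesis UNQ: the maximal smooth solution.
Proof.  `Tm = sSup {T' > 0 : a smooth solution on [0,T') exists}`.  For `t < Tm` choose a smooth solution `θ^t` on some `[0,T')`, `t < T'`, and put `θ(t) = θ^t(t)`.  By UNQ `θ = θ'` on
`[0,T')` for every smooth solution `θ'` on `[0,T')` (`T' ≤ Tm`).  Every property is local in `t`. -/
def SpecGLU : Prop := ∀ (g : E → ℝ) (α κ B : ℝ) (θ₀ : E → ℝ), IsSampler g → 0 < α → α < 1 / 2 → 0 ≤ κ →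
  (∃ (T' : ℝ) (θ : ℝ → E → ℝ), 0 < T' ∧ IsSmooth α κ T' (law g) θ₀ θ) →
  (∀ (T' : ℝ) (θ : ℝ → E → ℝ), 0 < T' → IsSmooth α κ T' (law g) θ₀ θ → T' ≤ B) →
  ∃ (Tm : ℝ) (θ : ℝ → E → ℝ), 0 < Tm ∧ Tm ≤ B ∧ IsSmooth α κ Tm (law g) θ₀ θ ∧
    ∀ (T' : ℝ) (θ' : ℝ → E → ℝ), 0 < T' → IsSmooth α κ T' (law g) θ₀ θ' → T' ≤ Tm

/-- WPB (helper86), hypotheses FIN, CNT, UNQ, GLU: the maximal smooth solution of the data of FIN has finite life span. -/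
def SpecWPB : Prop := ∀ g : E → ℝ, IsSampler g → ∀ (α κ : ℝ), 0 < α → α < 1 / 2 → 0 ≤ κ → ∃ c : ℝ, 0 < c ∧
  -- local existence
  (∀ (θ₀ : E → ℝ) (A : ℝ), ContDiff ℝ ∞ θ₀ → HasCompactSupport θ₀ → 0 < A → (∀ x, ‖fderiv ℝ θ₀ x‖ ≤ A) →
    ∃ θ : ℝ → E → ℝ, IsSmooth α κ (c / A) (law g) θ₀ θ) ∧
  -- uniqueness
  (∀ (T₁ T₂ : ℝ) (θ₀ : E → ℝ) (θ₁ θ₂ : ℝ → E → ℝ), IsSolOn α κ T₁ (law g) θ₀ θ₁ → IsSmooth α κ T₂ (law g) θ₀ θ₂ →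
    ∀ t ∈ Ico (0 : ℝ) (min T₁ T₂), θ₁ t = θ₂ t) ∧
  -- blow-up
  ∀ M τ : ℝ, 0 < M → 0 < τ → ∃ (θ₀ : E → ℝ) (Ts Tm : ℝ) (θ : ℝ → E → ℝ),
    ContDiff ℝ ∞ θ₀ ∧ HasCompactSupport θ₀ ∧ (∀ x, |θ₀ x| ≤ M) ∧ 0 < Tm ∧ Tm ≤ Ts ∧ Ts < τ ∧
    IsSmooth α κ Tm (law g) θ₀ θ ∧
    (∀ (T' : ℝ) (θ' : ℝ → E → ℝ), 0 < T' → IsSmooth α κ T' (law g) θ₀ θ' → T' ≤ Tm) ∧
    (∀ t ∈ Ico 0 Tm, ∀ A : ℝ, 0 < A → (∀ x, ‖fderiv ℝ (θ t) x‖ ≤ A) → c ≤ A * (Tm - t)) ∧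
    ∀ S : ℝ → (E → ℝ) → E → E,
      (∀ t f, Continuous f → (∀ y, |f y| ≤ M) → ∀ x, ‖S t f x‖ ≤ (∫ z, g z) / 10 * M) →
    ∀ (T' : ℝ) (θ : ℝ → E → ℝ), 0 < T' → IsSolOn α κ T' (fun t f x => vel g f x + S t f x) θ₀ θ →
      T' ≤ Ts ∧
      (∀ t ∈ Ico 0 T', ∃ x : E, ‖x‖ = 3 / 4 * M * (∫ z, g z) * (Ts - t) ∧ θ t x ≤ -(3 / 4 * M) ∧ 3 / 4 * M ≤ θ t (-x)) ∧
      (∀ t ∈ Ico 0 T', ∀ L : ℝ≥0, LipschitzWith L (θ t) → 1 ≤ L * ((∫ z, g z) * (Ts - t))) ∧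
      (∀ b : ℝ, T' = Ts → ¬ Tendsto (fun p : ℝ × E => θ p.1 p.2) (𝓝[Ico 0 T' ×ˢ univ] (Ts, 0)) (𝓝 b))

end Pool.Agent.Lib.MP96bed6
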