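import Pool.Agent.Lib.MP_96bed6_an.Spec3
import Pool.Agent.Lib.MP_96bed6_an.W.Spec

/-!
# MP_96bed6_an, WPB3: the final theorem
-/

set_option autoImplicit false

open MeasureTheory Filter Topology Set
open scoped ENNReal ContDiff NNReal

noncomputable section

namespace Pool.Agent.Lib.MP96bed6

/-- WPB3 (helper86), hypotheses FIN3, CNT, UNQ, GLU. -/
def SpecWPB3 : Prop := ∀ g : E → ℝ, IsSampler g → ∀ (α κ : ℝ), 0 < α → α < 1 / 2 → 0 ≤ κ → ∃ c : ℝ, 0 < c ∧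
  -- local existence
  (∀ (θ₀ : E → ℝ) (A : ℝ), ContDiff ℝ ∞ θ₀ → HasCompactSupport θ₀ → 0 < A → (∀ x, ‖fderiv ℝ θ₀ x‖ ≤ A) →
    ∃ θ : ℝ → E → ℝ, IsSmooth α κ (c / A) (law g) θ₀ θ) ∧
  -- uniqueness among classical solutions
  (∀ (T₁ T₂ : ℝ) (θ₀ : E → ℝ) (θ₁ θ₂ : ℝ → E → ℝ), IsSolOn α κ T₁ (law g) θ₀ θ₁ → IsSmooth α κ T₂ (law g) θ₀ θ₂ →
    ∀ t ∈ Ico (0 : ℝ) (min T₁ T₂), θ₁ t = θ₂ t) ∧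
  -- blow-up
  ∀ M τ : ℝ, 0 < M → 0 < τ → ∃ (θ₁ : E → ℝ) (ε Ts : ℝ),
    ContDiff ℝ ∞ θ₁ ∧ HasCompactSupport θ₁ ∧ 0 < ε ∧ (∀ x, |θ₁ x| + ε ≤ M) ∧ 0 < Ts ∧ Ts < τ ∧
    ∀ θ₀ : E → ℝ, ContDiff ℝ ∞ θ₀ → HasCompactSupport θ₀ → (∀ x, |θ₀ x - θ₁ x| ≤ ε) →
      (∃ (Tm : ℝ) (θ : ℝ → E → ℝ), 0 < Tm ∧ Tm ≤ Ts ∧ IsSmooth α κ Tm (law g) θ₀ θ ∧
        (∀ (T' : ℝ) (θ' : ℝ → E → ℝ), 0 < T' → IsSmooth α κ T' (law g) θ₀ θ' → T' ≤ Tm) ∧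
        (∀ t ∈ Ico 0 Tm, ∀ A : ℝ, 0 < A → (∀ x, ‖fderiv ℝ (θ t) x‖ ≤ A) → c ≤ A * (Tm - t))) ∧
      ∀ S : ℝ → (E → ℝ) → E → E,
        (∀ t f, Continuous f → (∀ y, |f y| ≤ M) → ∀ x, ‖S t f x‖ ≤ (∫ z, g z) / 10 * M) →
      ∀ (T' : ℝ) (θ : ℝ → E → ℝ), 0 < T' → IsSolOn α κ T' (fun t f x => vel g f x + S t f x) θ₀ θ →
        T' ≤ Ts ∧
        (∀ t ∈ Ico 0 T', ∃ x : E, ‖x‖ = 3 / 4 * M * (∫ z, g z) * (Ts - t) ∧ θ t x ≤ -(3 / 4 * M) ∧ 3 / 4 * M ≤ θ t (-x)) ∧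
        (∀ t ∈ Ico 0 T', ∀ L : ℝ≥0, LipschitzWith L (θ t) → 1 ≤ L * ((∫ z, g z) * (Ts - t))) ∧
        (∀ b : ℝ, T' = Ts → ¬ Tendsto (fun p : ℝ × E => θ p.1 p.2) (𝓝[Ico 0 T' ×ˢ univ] (Ts, 0)) (𝓝 b))

end Pool.Agent.Lib.MP96bed6
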