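import Pool.Agent.Lib.MP_96bed6_an.W.Defs

/-!
# MP_96bed6_an: the parts of the final statement
-/

set_option autoImplicit false

open MeasureTheory Filter Topology Set
open scoped ENNReal ContDiff NNReal

noncomputable section

namespace Pool.Agent.Lib.MP96bed6

/-- The properties of the law `T = vel g`: it is linear on continuous functions, commutes with dilations, maps smooth
functions to smooth divergence free fields, does not enlarge supports (balls around `0`), satisfies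
`sup|D^k Tθ| ≤ K_k sup|D^k θ|` for every `k ≥ 0`, and is bounded on `L^p`, `1 ≤ p < ∞`. -/
def LawProps (g : E → ℝ) : Prop :=
  (∀ θ η : E → ℝ, Continuous θ → Continuous η → ∀ (a b : ℝ) (x : E),
    vel g (fun y => a * θ y + b * η y) x = a • vel g θ x + b • vel g η x) ∧
  (∀ (θ : E → ℝ) (lam : ℝ), 0 < lam → ∀ x : E, vel g (fun y => θ (lam • y)) x = vel g θ (lam • x)) ∧
  (∀ θ : E → ℝ, ContDiff ℝ ∞ θ →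
    ContDiff ℝ ∞ (vel g θ) ∧ ∀ x, (fderiv ℝ (vel g θ) x e0) 0 + (fderiv ℝ (vel g θ) x e1) 1 = 0) ∧
  (∀ (θ : E → ℝ) (R : ℝ), (∀ x, R ≤ ‖x‖ → θ x = 0) → ∀ x, R < 3 * ‖x‖ → vel g θ x = 0) ∧
  (∀ k : ℕ, ∃ K : ℝ, 0 ≤ K ∧ ∀ (θ : E → ℝ) (A : ℝ), ContDiff ℝ ∞ θ → 0 ≤ A → BD k A θ → BD k (K * A) (vel g θ)) ∧
  (∃ K : ℝ, 0 ≤ K ∧ ∀ θ : E → ℝ, Continuous θ → ∀ p : ℝ, 1 ≤ p →
    (∫⁻ x, ‖vel g θ x‖ₑ ^ p) ≤ ENNReal.ofReal K ^ p * ∫⁻ x, ‖θ x‖ₑ ^ p)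

/-- Local well-posedness of `∂ₜθ + Tθ·∇θ + κ(-Δ)^αθ = 0`: data in `C_c^∞` with `|∇θ₀| ≤ A` have a smooth solution on
`[0, c/A)`, and smooth solutions are unique among classical solutions. -/
def LocalWP (g : E → ℝ) (α κ c : ℝ) : Prop :=
  (∀ (θ₀ : E → ℝ) (A : ℝ), ContDiff ℝ ∞ θ₀ → HasCompactSupport θ₀ → 0 < A → (∀ x, ‖fderiv ℝ θ₀ x‖ ≤ A) →
    ∃ θ : ℝ → E → ℝ, IsSmooth α κ (c / A) (law g) θ₀ θ) ∧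
  (∀ (T₁ T₂ : ℝ) (θ₀ : E → ℝ) (θ₁ θ₂ : ℝ → E → ℝ), IsSolOn α κ T₁ (law g) θ₀ θ₁ → IsSmooth α κ T₂ (law g) θ₀ θ₂ →
    ∀ t ∈ Ico (0 : ℝ) (min T₁ T₂), θ₁ t = θ₂ t)

/-- There is a maximal smooth solution with data `θ₀`; it lives on `[0, Tm)` with `Tm ≤ Ts`, and
`sup|∇θ(t)| ≥ c/(Tm - t)` for all `0 ≤ t < Tm`. -/
def MaximalBlowup (g : E → ℝ) (α κ c Ts : ℝ) (θ₀ : E → ℝ) : Prop :=
  ∃ (Tm : ℝ) (θ : ℝ → E → ℝ), 0 < Tm ∧ Tm ≤ Ts ∧ IsSmooth α κ Tm (law g) θ₀ θ ∧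
    (∀ (T' : ℝ) (θ' : ℝ → E → ℝ), 0 < T' → IsSmooth α κ T' (law g) θ₀ θ' → T' ≤ Tm) ∧
    (∀ t ∈ Ico 0 Tm, ∀ A : ℝ, 0 < A → (∀ x, ‖fderiv ℝ (θ t) x‖ ≤ A) → c ≤ A * (Tm - t))

/-- For every perturbation `S` of the law with `|S(t, f)| ≤ M∫g/10` whenever `f` is continuous with `|f| ≤ M`: every
classical solution on `[0, T')` with data `θ₀` has `T' ≤ Ts`, takes values `≤ -3M/4` and `≥ 3M/4` at opposite points at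
distance `(3/4)M∫g(Ts - t)` from `0`, has Lipschitz constant at least `1/(∫g(Ts - t))`, and has no limit at `(Ts, 0)` if
`T' = Ts`. -/
def ClassicalBreakdown (g : E → ℝ) (α κ M Ts : ℝ) (θ₀ : E → ℝ) : Prop :=
  ∀ S : ℝ → (E → ℝ) → E → E,
    (∀ t f, Continuous f → (∀ y, |f y| ≤ M) → ∀ x, ‖S t f x‖ ≤ (∫ z, g z) / 10 * M) →
  ∀ (T' : ℝ) (θ : ℝ → E → ℝ), 0 < T' → IsSolOn α κ T' (fun t f x => vel g f x + S t f x) θ₀ θ →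
    T' ≤ Ts ∧
    (∀ t ∈ Ico 0 T', ∃ x : E, ‖x‖ = 3 / 4 * M * (∫ z, g z) * (Ts - t) ∧ θ t x ≤ -(3 / 4 * M) ∧ 3 / 4 * M ≤ θ t (-x)) ∧
    (∀ t ∈ Ico 0 T', ∀ L : ℝ≥0, LipschitzWith L (θ t) → 1 ≤ L * ((∫ z, g z) * (Ts - t))) ∧
    (∀ b : ℝ, T' = Ts → ¬ Tendsto (fun p : ℝ × E => θ p.1 p.2) (𝓝[Ico 0 T' ×ˢ univ] (Ts, 0)) (𝓝 b))

end Pool.Agent.Lib.MP96bed6
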